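import Pool.Agent.Lib.MP_3efbeb_nt.GU.Spec

/-!
# Module AVG: the averaging lemma
-/

set_option autoImplicit false

open Filter Topology Asymptotics

namespace Pool.Agent.Lib.MP_3efbeb_nt.GU

namespace AVGM

/-- one block -/
theorem block {c b : ℕ → ℝ} (hc : ∀ i, 0 ≤ c i) {ε : ℝ} (he : 0 < ε) (he1 : ε ≤ 1)
    {m n : ℕ} (hmn : m ≤ n) (hbn : 0 ≤ b n)
    (h1 : |∑ i ∈ Finset.Ico m n, (c i - 1)| ≤ ε / 8 * ((n : ℝ) - m))
    (h2 : ∀ i ∈ Finset.Ico m n, |b i - b n| ≤ ε / 8 * b n) :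
    |∑ i ∈ Finset.Ico m n, (c i - 1) * b i| ≤ ε * ∑ i ∈ Finset.Ico m n, b i := by
  have hL : (0 : ℝ) ≤ (n : ℝ) - m := by
    have : (m : ℝ) ≤ n := by exact_mod_cast hmn
    linarith
  have hcard : ∀ r : ℝ, ∑ _i ∈ Finset.Ico m n, r = ((n : ℝ) - m) * r := by
    intro r
    rw [Finset.sum_const, Nat.card_Ico, nsmul_eq_mul, Nat.cast_sub hmn]
  have e1 : ∑ i ∈ Finset.Ico m n, (c i - 1) * b i =
      b n * ∑ i ∈ Finset.Ico m n, (c i - 1) + ∑ i ∈ Finset.Ico m n, (c i - 1) * (b i - b n) := by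
    rw [Finset.mul_sum, ← Finset.sum_add_distrib]
    exact Finset.sum_congr rfl fun i _ => by ring
  have e2 : |∑ i ∈ Finset.Ico m n, (c i - 1) * (b i - b n)| ≤
      ε / 8 * b n * (∑ i ∈ Finset.Ico m n, (c i - 1) + 2 * ((n : ℝ) - m)) := by
    have h3 : ε / 8 * b n * (∑ i ∈ Finset.Ico m n, (c i - 1) + 2 * ((n : ℝ) - m)) =
        ∑ i ∈ Finset.Ico m n, (c i + 1) * (ε / 8 * b n) := by
      have h4 : ∑ i ∈ Finset.Ico m n, (c i + 1) * (ε / 8 * b n) =
          ∑ i ∈ Finset.Ico m n, (c i - 1) * (ε / 8 * b n) +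
            ∑ _i ∈ Finset.Ico m n, (2 * (ε / 8 * b n)) := by
        rw [← Finset.sum_add_distrib]
        exact Finset.sum_congr rfl fun i _ => by ring
      rw [h4, hcard, ← Finset.sum_mul]
      ring
    rw [h3]
    refine (Finset.abs_sum_le_sum_abs _ _).trans (Finset.sum_le_sum fun i hi => ?_)
    rw [abs_mul]
    refine mul_le_mul ?_ (h2 i hi) (abs_nonneg _) (by linarith [hc i])
    rw [abs_le]
    constructor <;> linarith [hc i]
  have e3 : ∑ i ∈ Finset.Ico m n, b i ≥ (1 - ε / 8) * b n * ((n : ℝ) - m) := by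
    have h3 : (1 - ε / 8) * b n * ((n : ℝ) - m) = ∑ _i ∈ Finset.Ico m n, ((1 - ε / 8) * b n) := by
      rw [hcard]
      ring
    rw [h3]
    refine Finset.sum_le_sum fun i hi => ?_
    have := (abs_le.1 (h2 i hi)).1
    linarith
  have h5 := (abs_le.1 h1).2
  have hbL : 0 ≤ b n * ((n : ℝ) - m) := mul_nonneg hbn hL
  have e4 : |b n * ∑ i ∈ Finset.Ico m n, (c i - 1)| ≤ ε / 8 * (b n * ((n : ℝ) - m)) := by
    rw [abs_mul, abs_of_nonneg hbn]
    calc b n * |∑ i ∈ Finset.Ico m n, (c i - 1)| ≤ b n * (ε / 8 * ((n : ℝ) - m)) :=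
          mul_le_mul_of_nonneg_left h1 hbn
      _ = ε / 8 * (b n * ((n : ℝ) - m)) := by ring
  have e5 : ε / 8 * b n * (∑ i ∈ Finset.Ico m n, (c i - 1) + 2 * ((n : ℝ) - m)) ≤
      ε / 8 * (ε / 8 + 2) * (b n * ((n : ℝ) - m)) := by
    calc ε / 8 * b n * (∑ i ∈ Finset.Ico m n, (c i - 1) + 2 * ((n : ℝ) - m))
        ≤ ε / 8 * b n * (ε / 8 * ((n : ℝ) - m) + 2 * ((n : ℝ) - m)) := by
          refine mul_le_mul_of_nonneg_left (by linarith) (by positivity)
      _ = ε / 8 * (ε / 8 + 2) * (b n * ((n : ℝ) - m)) := by ring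
  rw [e1]
  refine (abs_add_le _ _).trans ?_
  have e6 : ε * ((1 - ε / 8) * b n * ((n : ℝ) - m)) ≤ ε * ∑ i ∈ Finset.Ico m n, b i :=
    mul_le_mul_of_nonneg_left e3 he.le
  refine le_trans ?_ e6
  have e7 : ε / 8 + ε / 8 * (ε / 8 + 2) ≤ ε * (1 - ε / 8) := by nlinarith
  have e8 : (ε / 8 + ε / 8 * (ε / 8 + 2)) * (b n * ((n : ℝ) - m)) ≤
      ε * (1 - ε / 8) * (b n * ((n : ℝ) - m)) := mul_le_mul_of_nonneg_right e7 hbL
  linarith [e2, e4, e5, e8]

end AVGM

theorem specAVG : SpecAVG := by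
  intro c b hc hb H1 H2
  have main : ∀ ε : ℝ, 0 < ε → ε ≤ 1 → ∃ K : ℝ, ∀ n : ℕ,
      |∑ i ∈ Finset.range n, (c i - 1) * b i| ≤ ε * ∑ i ∈ Finset.range n, b i + K := by
    intro ε he he1
    obtain ⟨M, hM, hM2⟩ := H2 (ε / 8) (by positivity)
    obtain ⟨N, hN⟩ := eventually_atTop.1 ((H1 M hM (ε / 8) (by positivity)).and
      (hM2.and (eventually_ge_atTop M)))
    refine ⟨∑ i ∈ Finset.range N, |(c i - 1) * b i|, ?_⟩
    intro n
    induction n using Nat.strong_induction_on with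
    | _ n ih =>
      rcases lt_or_ge n N with hn | hn
      · have h1 : |∑ i ∈ Finset.range n, (c i - 1) * b i| ≤
            ∑ i ∈ Finset.range N, |(c i - 1) * b i| :=
          (Finset.abs_sum_le_sum_abs _ _).trans (Finset.sum_le_sum_of_subset_of_nonneg
            (Finset.range_subset_range.2 hn.le) fun i _ _ => abs_nonneg _)
        have h2 : 0 ≤ ε * ∑ i ∈ Finset.range n, b i :=
          mul_nonneg he.le (Finset.sum_nonneg fun i _ => hb i)
        linarith
      · obtain ⟨h1, h2, h3⟩ := hN n hn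
        have hL : 1 ≤ n / M := (Nat.one_le_div_iff (by omega)).2 h3
        have hLn : n / M ≤ n := Nat.div_le_self n M
        have hlt : n - n / M < n := by omega
        have hle : n - n / M ≤ n := by omega
        have hcast : ((n / M : ℕ) : ℝ) = (n : ℝ) - ((n - n / M : ℕ) : ℝ) := by
          rw [Nat.cast_sub hLn]
          ring
        rw [hcast] at h1
        have h4 := AVGM.block hc he he1 hle (hb n) h1 h2
        have h5 := ih _ hlt
        have e1 : ∑ i ∈ Finset.range n, (c i - 1) * b i =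
            ∑ i ∈ Finset.range (n - n / M), (c i - 1) * b i +
              ∑ i ∈ Finset.Ico (n - n / M) n, (c i - 1) * b i :=
          (Finset.sum_range_add_sum_Ico _ hle).symm
        have e2 : ∑ i ∈ Finset.range n, b i =
            ∑ i ∈ Finset.range (n - n / M), b i + ∑ i ∈ Finset.Ico (n - n / M) n, b i :=
          (Finset.sum_range_add_sum_Ico _ hle).symm
        rw [e1, e2]
        refine (abs_add_le _ _).trans ?_
        linarith
  intro ε he
  rcases le_or_gt ε 1 with h | h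
  · exact main ε he h
  · obtain ⟨K, hK⟩ := main 1 one_pos le_rfl
    refine ⟨K, fun n => (hK n).trans ?_⟩
    have h2 : 0 ≤ ∑ i ∈ Finset.range n, b i := Finset.sum_nonneg fun i _ => hb i
    nlinarith

end Pool.Agent.Lib.MP_3efbeb_nt.GU
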