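import Pool.Agent.Lib.MP_3efbeb_nt.GU.Spec

/-!
# MP_3efbeb_nt / MP_926cc3_nt (GU): module BDD, the local exponent is bounded
-/

set_option autoImplicit false

open Filter Topology Asymptotics

namespace Pool.Agent.Lib.MP_3efbeb_nt.GU

namespace BDDM

/-- a small `ε` with `(1 + ε) exp ε b < 1` -/
theorem eps (b : ℝ) (hb1 : b < 1) :
    ∃ ε : ℝ, 0 < ε ∧ Real.exp ε * b * (1 + ε) < 1 := by
  have hc : Continuous (fun ε : ℝ => Real.exp ε * b * (1 + ε)) := by fun_prop
  have h0 : (fun ε : ℝ => Real.exp ε * b * (1 + ε)) 0 < 1 := by simpa using hb1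
  have hev : ∀ᶠ ε in 𝓝 (0 : ℝ), Real.exp ε * b * (1 + ε) < 1 :=
    hc.continuousAt.eventually (gt_mem_nhds h0)
  have hev' : ∀ᶠ ε in 𝓝[>] (0 : ℝ), Real.exp ε * b * (1 + ε) < 1 :=
    hev.filter_mono nhdsWithin_le_nhds
  have hpos : ∀ᶠ ε in 𝓝[>] (0 : ℝ), 0 < ε := eventually_mem_nhdsWithin
  obtain ⟨ε, h1, h2⟩ := (hev'.and hpos).exists
  exact ⟨ε, h2, h1⟩

end BDDM

theorem specBDD (hSTU : SpecSTU) : SpecBDD := by
  intro W k S b C hQ
  obtain ⟨ε, hε, hlt⟩ := BDDM.eps b hQ.reg.b1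
  obtain ⟨N0, hN0⟩ := hSTU W k S b C hQ ε hε
  obtain ⟨N2, hN2⟩ := hN0 N0 le_rfl
  set D : ℝ := 1 - Real.exp ε * b * (1 + ε) with hD
  have hDpos : 0 < D := by rw [hD]; linarith
  set B0 : ℝ := Real.exp ε / D with hB0
  set B : ℝ := 1 + B0 + ∑ l ∈ Finset.range N2, |qq k S l| with hB
  have hB0pos : 0 < B0 := div_pos (Real.exp_pos _) hDpos
  have hsum : 0 ≤ ∑ l ∈ Finset.range N2, |qq k S l| :=
    Finset.sum_nonneg (fun l _ => abs_nonneg _)
  have hB1 : 1 ≤ B := by rw [hB]; linarith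
  have hBB0 : B0 ≤ B := by rw [hB]; linarith
  refine ⟨B, hB1, Filter.Eventually.of_forall ?_⟩
  intro n
  induction n using Nat.strong_induction_on with
  | _ n ih =>
    by_cases hn : n < N2
    · have h1 : |qq k S n| ≤ ∑ l ∈ Finset.range N2, |qq k S l| :=
        Finset.single_le_sum (f := fun l => |qq k S l|) (fun l _ => abs_nonneg _)
          (Finset.mem_range.mpr hn)
      have h2 := le_abs_self (qq k S n)
      rw [hB]
      linarith
    · have hn' : N2 ≤ n := not_lt.mp hn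
      have h1 := hN2 B hB1 n hn' (fun l _ hl => ih l hl)
      refine h1.trans ?_
      -- `exp ε (1 + b ((1+ε) B - 1)) ≤ exp ε + exp ε b (1+ε) B ≤ B`
      have he := Real.exp_pos ε
      have h3 : Real.exp ε ≤ D * B := by
        have := mul_le_mul_of_nonneg_left hBB0 hDpos.le
        have h4 : D * B0 = Real.exp ε := by
          rw [hB0]
          field_simp
        linarith
      have h5 : 0 ≤ Real.exp ε * b := mul_nonneg he.le hQ.reg.b0.le
      have h6 : Real.exp ε * (1 + b * ((1 + ε) * B - 1))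
          = Real.exp ε + (Real.exp ε * b * (1 + ε)) * B - Real.exp ε * b := by ring
      rw [h6]
      rw [hD] at h3
      nlinarith [h3, h5]

end Pool.Agent.Lib.MP_3efbeb_nt.GU
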