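import Pool.Agent.Lib.MP_3efbeb_nt.GU.Spec
import Pool.Agent.Lib.MP_926cc3_nt.RS.Gra

/-!
# Module EMU: the reciprocal sieving product varies slowly
-/

set_option autoImplicit false

open Filter Topology Asymptotics

namespace Pool.Agent.Lib.MP_3efbeb_nt.GU

open Pool.Agent.Lib.MP_926cc3_nt.RS Pool.Agent.Lib.MP_3efbeb_nt.RST
  Pool.Agent.Lib.MP_3efbeb_nt.GL

namespace EMUM

/-- the level of the rough numbers near `w` -/
def z (W : ℕ → ℕ) (w : ℕ) : ℕ := max 2 (W w + 1)

theorem V_z (W : ℕ → ℕ) (n : ℕ) : V (z W n) = Path.theta (W n) := by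
  unfold z
  rcases Nat.eq_zero_or_pos (W n) with h | h
  · rw [h, theta_zero]
    unfold V
    apply Finset.prod_eq_one
    intro p hp
    rw [Finset.mem_filter, Finset.mem_range] at hp
    have := hp.2.two_le
    have h2 := hp.1
    simp at h2
    omega
  · rw [max_eq_right (by omega), theta_eq]
    rfl

/-- a rough number has no prime factor below `z W w` -/
theorem rho_le {W : ℕ → ℕ} (hW : Monotone W) {w j : ℕ} (hw : W w < w) (hj : w ≤ j) :
    rho W j ≤ Gra.r (z W w) j := by
  classical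
  unfold rho
  split_ifs with h
  · unfold Gra.r
    have h1 : NoSmall (z W w) j := by
      intro p hp hd
      by_contra hlt
      push Not at hlt
      have h2 := hp.two_le
      have h3 : p ≤ W w := by
        unfold z at hlt
        rcases lt_max_iff.1 hlt with h4 | h4 <;> omega
      exact h.2 p hp (h3.trans (hW hj)) (by omega) hd
    rw [if_pos h1]
  · exact Gra.r_nonneg _ _

/-- the growth of `E` -/
theorem growth {W : ℕ → ℕ} {E : ℕ → ℝ} (hE : EBase E) (hs : EStep W E) {w m : ℕ} (hw : 1 ≤ w)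
    (hm : w ≤ m) : E m ≤ E w * Real.exp (∑ i ∈ Finset.Ico w m, rho W (i + 1) / i) := by
  induction m, hm using Nat.le_induction with
  | base => simp
  | succ m hm ih =>
    rw [Finset.sum_Ico_succ_top hm, Real.exp_add, ← mul_assoc]
    have h1 := hs m (hw.trans hm)
    have h2 : 0 ≤ rho W (m + 1) / m := div_nonneg (rho_nonneg _ _) (Nat.cast_nonneg _)
    calc E (m + 1) ≤ E m * (1 + rho W (m + 1) / m) := h1
      _ ≤ (E w * Real.exp (∑ i ∈ Finset.Ico w m, rho W (i + 1) / i)) *
          Real.exp (rho W (m + 1) / m) := by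
        refine mul_le_mul ih ?_ (by linarith) (mul_nonneg (hE.pos w).le (Real.exp_pos _).le)
        have := Real.add_one_le_exp (rho W (m + 1) / m)
        linarith

end EMUM

theorem specEMU (hLMT : SpecLMT) : SpecEMU := by
  classical
  intro W hW E hE hs c hc
  obtain ⟨c0, hc0, hlim⟩ := hLMT
  obtain ⟨C, hC, hint⟩ := Gra.interval
  have hc' : (1 : ℝ) ≤ c := by exact_mod_cast hc
  -- `θ (W w) → 0`
  have hθ : Tendsto (fun w : ℕ => Path.theta (W w)) atTop (𝓝 0) := by
    have h1 : Tendsto (fun w : ℕ => Path.theta w) atTop (𝓝 0) := by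
      have hlog : Tendsto (fun w : ℕ => Real.log (w : ℝ)) atTop atTop :=
        Real.tendsto_log_atTop.comp tendsto_natCast_atTop_atTop
      have h2 : Tendsto (fun w : ℕ => Path.theta w * Real.log (w : ℝ) * (Real.log (w : ℝ))⁻¹)
          atTop (𝓝 (c0 * 0)) := hlim.mul (tendsto_inv_atTop_zero.comp hlog)
      rw [mul_zero] at h2
      refine h2.congr' ?_
      filter_upwards [eventually_ge_atTop 2] with w hw
      have h3 : 0 < Real.log (w : ℝ) := Real.log_pos (by exact_mod_cast (by omega : 1 < w))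
      field_simp
    exact h1.comp hW.top
  -- the error term
  have hz : Tendsto (fun w : ℕ => ((EMUM.z W w : ℕ) : ℝ) ^ 17 / w) atTop (𝓝 0) := by
    rw [Metric.tendsto_nhds]
    intro ε he
    have hWt : ∀ᶠ w : ℕ in atTop, 2 ≤ W w := hW.top.eventually_ge_atTop 2
    have hp := hW.pow 17 (ε / (2 * 2 ^ 17)) (by positivity)
    filter_upwards [hWt, hp, eventually_ge_atTop 1] with w h1 h2 h3
    have hw : (1 : ℝ) ≤ w := by exact_mod_cast h3
    have h4 : (EMUM.z W w : ℝ) ≤ 2 * W w := by
      have : EMUM.z W w ≤ 2 * W w := by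
        unfold EMUM.z
        omega
      exact_mod_cast this
    have h5 : (W w : ℝ) ≤ W (2 * w) := by exact_mod_cast hW.mono (by omega)
    have h6 : ((EMUM.z W w : ℕ) : ℝ) ^ 17 ≤ ε / 2 * w := by
      calc ((EMUM.z W w : ℕ) : ℝ) ^ 17 ≤ (2 * (W w : ℝ)) ^ 17 :=
            pow_le_pow_left₀ (Nat.cast_nonneg _) h4 17
        _ = 2 ^ 17 * (W w : ℝ) ^ 17 := by rw [mul_pow]
        _ ≤ 2 ^ 17 * (W (2 * w) : ℝ) ^ 17 := by
            refine mul_le_mul_of_nonneg_left (pow_le_pow_left₀ (Nat.cast_nonneg _) h5 17)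
              (by positivity)
        _ ≤ 2 ^ 17 * (ε / (2 * 2 ^ 17) * Real.sqrt w) :=
            mul_le_mul_of_nonneg_left h2 (by positivity)
        _ = ε / 2 * Real.sqrt w := by ring
        _ ≤ ε / 2 * w := by
            refine mul_le_mul_of_nonneg_left ?_ (by positivity)
            rw [Real.sqrt_le_left (by linarith)]
            nlinarith
    rw [Real.dist_eq, sub_zero, abs_of_nonneg (by positivity), div_lt_iff₀ (by linarith)]
    have : ε / 2 * w < ε * w := by
      refine mul_lt_mul_of_pos_right (by linarith) (by linarith)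
    linarith
  -- the upper bound
  have hup : ∀ᶠ w : ℕ in atTop, E (c * w) / E w ≤
      Real.exp ((1 + C) * c * Path.theta (W w) + C * (((EMUM.z W w : ℕ) : ℝ) ^ 17 / w)) := by
    have hlt : ∀ᶠ w : ℕ in atTop, W w < w := by
      filter_upwards [hW.pow 1 (1 / 2) (by norm_num), eventually_ge_atTop 1] with w h1 h2
      have hw : (1 : ℝ) ≤ w := by exact_mod_cast h2
      have h5 : (W w : ℝ) ≤ W (2 * w) := by exact_mod_cast hW.mono (by omega)
      have h6 : Real.sqrt w ≤ w := by
        rw [Real.sqrt_le_left (by linarith)]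
        nlinarith
      rw [pow_one] at h1
      have h7 : (W w : ℝ) < w := by
        have : (0 : ℝ) ≤ Real.sqrt w := Real.sqrt_nonneg _
        linarith
      exact_mod_cast h7
    filter_upwards [hlt, eventually_ge_atTop 1] with w h1 h2
    have hw : (1 : ℝ) ≤ w := by exact_mod_cast h2
    have hw0 : (0 : ℝ) < w := by linarith
    have hle : w ≤ c * w := Nat.le_mul_of_pos_left w (by omega)
    rw [div_le_iff₀ (hE.pos w)]
    refine (EMUM.growth hE hs h2 hle).trans ?_
    rw [mul_comm (Real.exp _) (E w)]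
    refine mul_le_mul_of_nonneg_left (Real.exp_le_exp.2 ?_) (hE.pos w).le
    have h3 : ∑ i ∈ Finset.Ico w (c * w), rho W (i + 1) / i ≤
        (∑ j ∈ Finset.Ioc w (c * w), Gra.r (EMUM.z W w) j) / w := by
      have e1 : ∑ j ∈ Finset.Ioc w (c * w), Gra.r (EMUM.z W w) j =
          ∑ i ∈ Finset.Ico w (c * w), Gra.r (EMUM.z W w) (i + 1) := by
        rw [Finset.sum_Ico_add' (fun j => Gra.r (EMUM.z W w) j) w (c * w) 1]
        refine Finset.sum_congr ?_ fun _ _ => rfl
        ext j
        simp only [Finset.mem_Ioc, Finset.mem_Ico]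
        omega
      rw [e1, Finset.sum_div]
      refine Finset.sum_le_sum fun i hi => ?_
      rw [Finset.mem_Ico] at hi
      have hi' : (w : ℝ) ≤ i := by exact_mod_cast hi.1
      calc rho W (i + 1) / i ≤ Gra.r (EMUM.z W w) (i + 1) / i :=
            div_le_div_of_nonneg_right (EMUM.rho_le hW.mono h1 (by omega)) (by linarith)
        _ ≤ Gra.r (EMUM.z W w) (i + 1) / w :=
            div_le_div_of_nonneg_left (Gra.r_nonneg _ _) hw0 hi'
    refine h3.trans ?_
    have h4 := (abs_le.1 (hint 0 (EMUM.z W w) w (c * w) (by unfold EMUM.z; omega) hle)).2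
    rw [EMUM.V_z] at h4
    simp only [Nat.cast_zero, neg_zero, Real.exp_zero, mul_one, mul_zero, zero_add] at h4
    have hθ0 : 0 ≤ Path.theta (W w) := (Path.theta_pos _).le
    have h5 : ∑ j ∈ Finset.Ioc w (c * w), Gra.r (EMUM.z W w) j ≤
        (1 + C) * c * Path.theta (W w) * w + C * ((EMUM.z W w : ℕ) : ℝ) ^ 17 := by
      have h6 : ((c * w : ℕ) : ℝ) - w ≤ c * w := by
        push_cast
        linarith
      have h7 : (((c * w : ℕ) : ℝ) - w) * Path.theta (W w) ≤ c * w * Path.theta (W w) :=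
        mul_le_mul_of_nonneg_right h6 hθ0
      have h8 : C * ((((c * w : ℕ) : ℝ) - w) * Path.theta (W w)) ≤
          C * (c * w * Path.theta (W w)) := mul_le_mul_of_nonneg_left h7 hC.le
      nlinarith
    calc (∑ j ∈ Finset.Ioc w (c * w), Gra.r (EMUM.z W w) j) / w
        ≤ ((1 + C) * c * Path.theta (W w) * w + C * ((EMUM.z W w : ℕ) : ℝ) ^ 17) / w :=
          div_le_div_of_nonneg_right h5 hw0.le
      _ = (1 + C) * c * Path.theta (W w) + C * (((EMUM.z W w : ℕ) : ℝ) ^ 17 / w) := by
          field_simp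
  have hexp : Tendsto (fun w : ℕ => Real.exp ((1 + C) * c * Path.theta (W w) +
      C * (((EMUM.z W w : ℕ) : ℝ) ^ 17 / w))) atTop (𝓝 1) := by
    have h1 : Tendsto (fun w : ℕ => (1 + C) * c * Path.theta (W w) +
        C * (((EMUM.z W w : ℕ) : ℝ) ^ 17 / w)) atTop (𝓝 ((1 + C) * c * 0 + C * 0)) :=
      (hθ.const_mul _).add (hz.const_mul _)
    rw [mul_zero, mul_zero, add_zero] at h1
    have h2 := (Real.continuous_exp.tendsto 0).comp h1
    rw [Real.exp_zero] at h2
    exact h2
  refine tendsto_of_tendsto_of_tendsto_of_le_of_le' tendsto_const_nhds hexp ?_ hup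
  filter_upwards with w
  rw [one_le_div (hE.pos w)]
  exact hE.mono (Nat.le_mul_of_pos_left w (by omega))

end Pool.Agent.Lib.MP_3efbeb_nt.GU
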