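import Pool.Agent.Lib.MP_3efbeb_nt.GU.Spec

/-!
# GRL: lower bound for the growth of `S`
-/

set_option autoImplicit false

open Filter Topology Asymptotics

namespace Pool.Agent.Lib.MP_3efbeb_nt.GU

namespace GRLM

theorem S_succ {W : ℕ → ℕ} {k S : ℕ → ℝ} {b C : ℝ} (h : QD W k S b C) (n : ℕ) :
    S (n + 1) = S n + k (n + 1) / n := by
  rw [h.Sdef (n + 1), h.Sdef n, Finset.sum_range_succ]

theorem S_nonneg {W : ℕ → ℕ} {k S : ℕ → ℝ} {b C : ℝ} (h : QD W k S b C) (n : ℕ) : 0 ≤ S n := by
  rw [h.Sdef n]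
  exact Finset.sum_nonneg fun i _ => div_nonneg (h.kpos _).le (Nat.cast_nonneg _)

theorem S_pos {W : ℕ → ℕ} {k S : ℕ → ℝ} {b C : ℝ} (h : QD W k S b C) (n : ℕ) (hn : 2 ≤ n) :
    0 < S n := by
  obtain ⟨m, rfl⟩ : ∃ m, n = m + 1 := ⟨n - 1, by omega⟩
  rw [S_succ h m]
  have hm : (0 : ℝ) < m := by
    have : 1 ≤ m := by omega
    exact_mod_cast this
  have := S_nonneg h m
  have h2 : 0 < k (m + 1) / (m : ℝ) := div_pos (h.kpos _) hm
  linarith

theorem log_ge_one {j : ℕ} (hj : 3 ≤ j) : 1 ≤ Real.log (j : ℝ) := by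
  have h3 : (1 : ℝ) ≤ Real.log 3 := by
    rw [Real.le_log_iff_exp_le (by norm_num)]
    exact Real.exp_one_lt_d9.le.trans (by norm_num)
  have : Real.log (3 : ℝ) ≤ Real.log (j : ℝ) := by
    apply Real.log_le_log (by norm_num)
    exact_mod_cast hj
  linarith

/-- `log (j+1) - log j ≤ 1 / j` -/
theorem log_succ_le {j : ℕ} (hj : 1 ≤ j) :
    Real.log ((j + 1 : ℕ) : ℝ) ≤ Real.log (j : ℝ) + 1 / j := by
  have hj0 : (0 : ℝ) < j := by exact_mod_cast hj
  have e : ((j + 1 : ℕ) : ℝ) = (j : ℝ) * (1 + 1 / j) := by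
    push_cast
    field_simp
  rw [e, Real.log_mul hj0.ne' (by positivity)]
  have := Real.log_le_sub_one_of_pos (show (0 : ℝ) < 1 + 1 / j by positivity)
  linarith

end GRLM

open GRLM in
theorem specGRL : SpecGRL := by
  intro W k S b C h ε he he1
  obtain ⟨N0, hN0⟩ := exists_nat_ge (1 / ε)
  refine ⟨max 3 N0, le_max_left _ _, ?_⟩
  intro a ha i j hi hij
  induction j, hij using Nat.le_induction with
  | base =>
    intro _
    have hi3 : 3 ≤ i := (le_max_left _ _).trans hi
    have hl : Real.log (i : ℝ) ≠ 0 := by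
      have := log_ge_one hi3
      linarith
    rw [div_self hl, Real.one_rpow, mul_one]
  | succ j hij IH =>
    intro hq
    have IH' := IH (fun l h1 h2 => hq l h1 (h2.trans (Nat.le_succ j)))
    have hi3 : 3 ≤ i := (le_max_left _ _).trans hi
    have hj3 : 3 ≤ j := hi3.trans hij
    have hj0 : (0 : ℝ) < j := by
      have : 0 < j := by omega
      exact_mod_cast this
    have hNj : N0 ≤ j := (le_max_right _ _).trans (hi.trans hij)
    have hjε : 1 / (j : ℝ) ≤ ε := by
      rw [div_le_iff₀ hj0]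
      have h1 : 1 / ε ≤ j := hN0.trans (by exact_mod_cast hNj)
      rw [div_le_iff₀ he] at h1
      linarith
    have hli := log_ge_one hi3
    have hlj := log_ge_one hj3
    have hlj1 : 1 ≤ Real.log ((j + 1 : ℕ) : ℝ) := log_ge_one (by omega)
    have hSj1 : 0 < S (j + 1) := S_pos h _ (by omega)
    have hSj : 0 < S j := S_pos h _ (by omega)
    have hSi : 0 ≤ S i := S_nonneg h _
    have hqj : a ≤ k (j + 1) * Real.log ((j + 1 : ℕ) : ℝ) / S (j + 1) := hq (j + 1) (by omega) le_rfl
    -- the increment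
    set x : ℝ := k (j + 1) / (j * S (j + 1)) with hx
    have hxS : S j = S (j + 1) * (1 - x) := by
      have := S_succ h j
      rw [hx]
      field_simp
      rw [this]
      field_simp
      ring
    have hxa : a / (j * Real.log ((j + 1 : ℕ) : ℝ)) ≤ x := by
      rw [hx, div_le_div_iff₀ (by positivity) (by positivity)]
      rw [le_div_iff₀ hSj1] at hqj
      nlinarith [mul_le_mul_of_nonneg_left hqj hj0.le]
    have hexp : S j * Real.exp x ≤ S (j + 1) := by
      have h1 : 1 - x ≤ Real.exp (-x) := by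
        have := Real.add_one_le_exp (-x)
        linarith
      have h2 : S j ≤ S (j + 1) * Real.exp (-x) := by
        rw [hxS]
        exact mul_le_mul_of_nonneg_left h1 hSj1.le
      calc S j * Real.exp x ≤ S (j + 1) * Real.exp (-x) * Real.exp x :=
            mul_le_mul_of_nonneg_right h2 (Real.exp_pos _).le
        _ = S (j + 1) := by
            rw [mul_assoc, ← Real.exp_add, neg_add_cancel, Real.exp_zero, mul_one]
    have hr0 : 0 < Real.log (j : ℝ) / Real.log (i : ℝ) := by positivity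
    have hr1 : 0 < Real.log ((j + 1 : ℕ) : ℝ) / Real.log (j : ℝ) := by positivity
    have hsplit : Real.log ((j + 1 : ℕ) : ℝ) / Real.log (i : ℝ) =
        (Real.log (j : ℝ) / Real.log (i : ℝ)) *
          (Real.log ((j + 1 : ℕ) : ℝ) / Real.log (j : ℝ)) := by
      field_simp
    have hratio : (Real.log ((j + 1 : ℕ) : ℝ) / Real.log (j : ℝ)) ^ ((1 - ε) * a) ≤ Real.exp x := by
      rw [Real.rpow_def_of_pos hr1]
      apply Real.exp_le_exp.2
      have h1 : Real.log (Real.log ((j + 1 : ℕ) : ℝ) / Real.log (j : ℝ)) ≤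
          1 / (j * Real.log (j : ℝ)) := by
        have h2 := Real.log_le_sub_one_of_pos hr1
        have h3 := log_succ_le (show 1 ≤ j by omega)
        have h4 : Real.log ((j + 1 : ℕ) : ℝ) / Real.log (j : ℝ) - 1 ≤
            1 / (j * Real.log (j : ℝ)) := by
          rw [div_sub_one (by positivity), div_le_div_iff₀ (by positivity) (by positivity)]
          have h5 : (Real.log ((j + 1 : ℕ) : ℝ) - Real.log (j : ℝ)) * j ≤ 1 := by
            have : Real.log ((j + 1 : ℕ) : ℝ) - Real.log (j : ℝ) ≤ 1 / j := by linarith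
            calc _ ≤ 1 / (j : ℝ) * j := mul_le_mul_of_nonneg_right this hj0.le
              _ = 1 := by field_simp
          nlinarith [mul_le_mul_of_nonneg_right h5 (show (0 : ℝ) ≤ Real.log (j : ℝ) by linarith)]
        linarith
      have hc : 0 ≤ (1 - ε) * a := mul_nonneg (by linarith) ha
      calc Real.log (Real.log ((j + 1 : ℕ) : ℝ) / Real.log (j : ℝ)) * ((1 - ε) * a)
          ≤ 1 / (j * Real.log (j : ℝ)) * ((1 - ε) * a) := mul_le_mul_of_nonneg_right h1 hc
        _ ≤ a / (j * Real.log ((j + 1 : ℕ) : ℝ)) := by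
            have h6 : (1 - ε) * Real.log ((j + 1 : ℕ) : ℝ) ≤ Real.log (j : ℝ) := by
              have h3 := log_succ_le (show 1 ≤ j by omega)
              have h7 : (1 - ε) * Real.log ((j + 1 : ℕ) : ℝ) ≤
                  (1 - ε) * (Real.log (j : ℝ) + ε) :=
                mul_le_mul_of_nonneg_left (by linarith) (by linarith)
              nlinarith [mul_pos he he, mul_nonneg he.le (show (0 : ℝ) ≤ Real.log (j : ℝ) - 1 by linarith)]
            rw [div_mul_eq_mul_div, one_mul, div_le_div_iff₀ (by positivity) (by positivity)]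
            have h8 := mul_le_mul_of_nonneg_left h6 (mul_nonneg ha hj0.le)
            nlinarith [h8]
        _ ≤ x := hxa
    calc S i * (Real.log ((j + 1 : ℕ) : ℝ) / Real.log (i : ℝ)) ^ ((1 - ε) * a)
        = S i * (Real.log (j : ℝ) / Real.log (i : ℝ)) ^ ((1 - ε) * a) *
            (Real.log ((j + 1 : ℕ) : ℝ) / Real.log (j : ℝ)) ^ ((1 - ε) * a) := by
          rw [hsplit, Real.mul_rpow hr0.le hr1.le]
          ring
      _ ≤ S j * Real.exp x := mul_le_mul IH' hratio (Real.rpow_nonneg hr1.le _) hSj.le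
      _ ≤ S (j + 1) := hexp

end Pool.Agent.Lib.MP_3efbeb_nt.GU
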