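import Pool.Agent.Lib.MP_3efbeb_nt.GU.Spec

/-!
# GU: GRU, an upper bound for the growth of `S`
-/

set_option autoImplicit false

open Filter Topology Asymptotics

namespace Pool.Agent.Lib.MP_3efbeb_nt.GU

namespace GRUM

theorem log_step {i : ℕ} (hi : 1 ≤ i) :
    1 / ((i : ℝ) + 1) ≤ Real.log ((i + 1 : ℕ) : ℝ) - Real.log (i : ℝ) := by
  have hi0 : (0 : ℝ) < i := by exact_mod_cast (by omega : 0 < i)
  push_cast
  rw [← Real.log_div (by linarith) (by linarith)]
  have := Real.one_sub_inv_le_log_of_pos (show 0 < ((i : ℝ) + 1) / i by positivity)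
  refine le_trans (le_of_eq ?_) this
  field_simp
  ring

theorem S_nonneg {W : ℕ → ℕ} {k S : ℕ → ℝ} {b C : ℝ} (h : QD W k S b C) (n : ℕ) : 0 ≤ S n := by
  rw [h.Sdef]
  exact Finset.sum_nonneg fun i _ => div_nonneg (h.kpos _).le (Nat.cast_nonneg i)

theorem S_succ {W : ℕ → ℕ} {k S : ℕ → ℝ} {b C : ℝ} (h : QD W k S b C) (n : ℕ) :
    S (n + 1) = S n + k (n + 1) / n := by
  rw [h.Sdef, h.Sdef, Finset.sum_range_succ]

/-- one step -/
theorem step {W : ℕ → ℕ} {k S : ℕ → ℝ} {b C : ℝ} (h : QD W k S b C) {ε B : ℝ} (hε : 0 < ε)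
    (hB : 0 ≤ B) {j : ℕ} (hj : 4 ≤ j) (hjε : 3 + 2 * ε ≤ ε * j) (hk : k (j + 1) ≤ 2 * S (j + 1))
    (hq : qq k S (j + 1) ≤ B) :
    S (j + 1) ≤ S j * (Real.log ((j + 1 : ℕ) : ℝ) / Real.log (j : ℝ)) ^ ((1 + ε) * B) := by
  have hj0 : (4 : ℝ) ≤ j := by exact_mod_cast hj
  have hl0 : 0 < Real.log (j : ℝ) := Real.log_pos (by linarith)
  have hl1 : 0 < Real.log ((j + 1 : ℕ) : ℝ) := Real.log_pos (by push_cast; linarith)
  set X := Real.log (j : ℝ) with hX
  set Y := Real.log ((j + 1 : ℕ) : ℝ) with hY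
  have hS1 : 0 < S (j + 1) := by
    rw [S_succ h]
    have := S_nonneg h j
    have h1 : 0 < k (j + 1) / (j : ℝ) := div_pos (h.kpos _) (by linarith)
    linarith
  set x := k (j + 1) / (j * S (j + 1)) with hx
  have hx0 : 0 ≤ x := div_nonneg (h.kpos _).le (by positivity)
  have hx2 : x ≤ 2 / j := by
    rw [hx, div_le_div_iff₀ (by positivity) (by linarith)]
    have := mul_le_mul_of_nonneg_right hk (show (0 : ℝ) ≤ j by linarith)
    linarith
  have hx12 : x ≤ 1 / 2 := by
    refine hx2.trans ?_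
    rw [div_le_div_iff₀ (by linarith) (by norm_num)]
    linarith
  have hSx : S j = S (j + 1) * (1 - x) := by
    have h1 := S_succ h j
    have h2 : k (j + 1) / (j : ℝ) = S (j + 1) * x := by
      rw [hx]
      field_simp
    rw [h2] at h1
    linarith
  -- `x ≤ B / (j Y)`
  have hxB : x ≤ B / (j * Y) := by
    unfold qq at hq
    rw [div_le_iff₀ hS1] at hq
    rw [hx, div_le_div_iff₀ (by positivity) (by positivity)]
    have := mul_le_mul_of_nonneg_right hq (show (0 : ℝ) ≤ j by linarith)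
    push_cast at this
    calc k (j + 1) * (j * Y) = k (j + 1) * Y * j := by ring
      _ ≤ B * S (j + 1) * j := by
        have h3 : Y = Real.log ((j : ℝ) + 1) := by rw [hY]; push_cast; ring_nf
        rw [h3]
        exact this
      _ = B * (j * S (j + 1)) := by ring
  -- the exponent
  have he : x / (1 - x) ≤ (1 + ε) * B * (1 / (((j : ℝ) + 1) * Y)) := by
    have h1 : x / (1 - x) ≤ (B / (j * Y)) / (1 - 2 / j) := by
      have h2j : (2 : ℝ) / j ≤ 1 / 2 := by
        rw [div_le_div_iff₀ (by linarith) (by norm_num)]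
        linarith
      apply div_le_div₀ (by positivity) hxB (by linarith) (by linarith)
    refine h1.trans ?_
    have h2 : (B / (j * Y)) / (1 - 2 / j) = B * (1 / (((j : ℝ) - 2) * Y)) := by
      have : (j : ℝ) - 2 ≠ 0 := by linarith
      have h3 : (1 : ℝ) - 2 / j = (j - 2) / j := by
        field_simp
      rw [h3]
      field_simp
    rw [h2]
    have h4 : 1 / (((j : ℝ) - 2) * Y) ≤ (1 + ε) * (1 / (((j : ℝ) + 1) * Y)) := by
      rw [mul_one_div, div_le_div_iff₀ (by nlinarith) (by positivity)]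
      nlinarith
    calc B * (1 / (((j : ℝ) - 2) * Y)) ≤ B * ((1 + ε) * (1 / (((j : ℝ) + 1) * Y))) :=
          mul_le_mul_of_nonneg_left h4 hB
      _ = _ := by ring
  have hlog : 1 / (((j : ℝ) + 1) * Y) ≤ Real.log (Y / X) := by
    have h1 := Real.one_sub_inv_le_log_of_pos (show 0 < Y / X by positivity)
    refine le_trans ?_ h1
    have h2 : 1 - (Y / X)⁻¹ = (Y - X) / Y := by
      field_simp
    rw [h2, one_div, mul_inv, ← div_eq_mul_inv]
    apply div_le_div_of_nonneg_right _ hl1.le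
    rw [← one_div]
    exact log_step (by omega)
  have hfin : 1 / (1 - x) ≤ (Y / X) ^ ((1 + ε) * B) := by
    rw [Real.rpow_def_of_pos (by positivity)]
    calc 1 / (1 - x) = x / (1 - x) + 1 := by
          have : (1 : ℝ) - x ≠ 0 := by linarith
          field_simp
          ring
      _ ≤ Real.exp (x / (1 - x)) := Real.add_one_le_exp _
      _ ≤ _ := by
        apply Real.exp_le_exp.2
        refine he.trans ?_
        rw [mul_comm (Real.log (Y / X))]
        exact mul_le_mul_of_nonneg_left hlog (by positivity)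
  have h1x : 0 < 1 - x := by linarith
  calc S (j + 1) = S (j + 1) * (1 - x) * (1 / (1 - x)) := by field_simp
    _ ≤ S (j + 1) * (1 - x) * (Y / X) ^ ((1 + ε) * B) :=
        mul_le_mul_of_nonneg_left hfin (by positivity)
    _ = _ := by rw [← hSx]

end GRUM

open GRUM in
theorem specGRU : SpecGRU := by
  intro W k S b C h ε hε
  obtain ⟨N1, hN1⟩ := eventually_atTop.1 h.kle
  obtain ⟨N2, hN2⟩ := exists_nat_ge ((3 + 2 * ε) / ε)
  refine ⟨max 4 (max N1 N2), by omega, ?_⟩
  intro B hB i j hi hij hq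
  have hi4 : 4 ≤ i := le_trans (le_max_left _ _) hi
  have hiN1 : N1 ≤ i := le_trans ((le_max_left _ _).trans (le_max_right _ _)) hi
  have hiN2 : N2 ≤ i := le_trans ((le_max_right _ _).trans (le_max_right _ _)) hi
  have hl : ∀ m : ℕ, i ≤ m → 0 < Real.log (m : ℝ) := fun m hm =>
    Real.log_pos (by exact_mod_cast (by omega : 1 < m))
  induction j, hij using Nat.le_induction with
  | base => rw [div_self (hl i le_rfl).ne', Real.one_rpow, mul_one]
  | succ j hij ih =>
    have h1 := ih fun l h1 h2 => hq l h1 (by omega)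
    have hj : 3 + 2 * ε ≤ ε * j := by
      have h2 : (N2 : ℝ) ≤ j := by exact_mod_cast hiN2.trans hij
      have h3 := hN2.trans h2
      rw [div_le_iff₀ hε] at h3
      linarith
    have h2 := step h hε hB (by omega : 4 ≤ j) hj (hN1 (j + 1) (by omega)) (hq (j + 1) (by omega) le_rfl)
    have hl1 := hl i le_rfl
    have hl2 := hl j hij
    have hl3 := hl (j + 1) (by omega)
    refine h2.trans ?_
    have h3 : (Real.log (j : ℝ) / Real.log (i : ℝ)) ^ ((1 + ε) * B) *
        (Real.log ((j + 1 : ℕ) : ℝ) / Real.log (j : ℝ)) ^ ((1 + ε) * B) =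
        (Real.log ((j + 1 : ℕ) : ℝ) / Real.log (i : ℝ)) ^ ((1 + ε) * B) := by
      rw [← Real.mul_rpow (by positivity) (by positivity)]
      congr 1
      field_simp
    rw [← h3, ← mul_assoc]
    exact mul_le_mul_of_nonneg_right h1 (by positivity)

end Pool.Agent.Lib.MP_3efbeb_nt.GU
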