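import Pool.Agent.Lib.MP_3efbeb_nt.GU.Spec

/-!
# MP_3efbeb_nt, higher levels: module KOS
-/

set_option autoImplicit false

open Filter Topology Asymptotics

namespace Pool.Agent.Lib.MP_3efbeb_nt.GU

open Pool.Agent.Lib.MP_926cc3_nt.RS Pool.Agent.Lib.MP_3efbeb_nt.RST
  Pool.Agent.Lib.MP_3efbeb_nt.GL

theorem specKOS (hTHW : SpecTHW) (hEMU : SpecEMU) : SpecKOS := by
  intro W hW E hE hS ε hε
  obtain ⟨c, hc, hdbl⟩ := hW.dbl
  have h1 : ∀ᶠ n : ℕ in atTop, 1 - ε < Path.theta (W (2 * n)) / Path.theta (W n) :=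
    (hTHW W hW).eventually (lt_mem_nhds (by linarith))
  have h2 : ∀ᶠ w : ℕ in atTop, E (c * w) / E w < 1 + ε :=
    (hEMU W hW E hE hS c hc).eventually (gt_mem_nhds (by linarith))
  filter_upwards [h1, hW.top.eventually h2, hdbl] with n hn1 hn2 hn3 i hi1 hi2
  have hθ := Path.theta_pos (W n)
  have hθi := Path.theta_pos (W i)
  have hEn := hE.pos (W n)
  have hEi := hE.pos (W i)
  rw [lt_div_iff₀ hθ] at hn1
  rw [div_lt_iff₀ hEn] at hn2
  have a1 : Path.theta (W (2 * n)) ≤ Path.theta (W i) := theta_anti (hW.mono hi2)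
  have a2 : Path.theta (W i) ≤ Path.theta (W n) := theta_anti (hW.mono hi1)
  have b1 : E (W n) ≤ E (W i) := hE.mono (hW.mono hi1)
  have b2 : E (W i) ≤ E (c * W n) := hE.mono ((hW.mono hi2).trans hn3)
  unfold kap
  have lo : (1 - ε) * (Path.theta (W n) * E (W n)) ≤ Path.theta (W i) * E (W i) := by
    calc (1 - ε) * (Path.theta (W n) * E (W n)) = ((1 - ε) * Path.theta (W n)) * E (W n) := by ring
      _ ≤ Path.theta (W i) * E (W n) := mul_le_mul_of_nonneg_right (by linarith) hEn.le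
      _ ≤ Path.theta (W i) * E (W i) := mul_le_mul_of_nonneg_left b1 hθi.le
  have hi : Path.theta (W i) * E (W i) ≤ (1 + ε) * (Path.theta (W n) * E (W n)) := by
    calc Path.theta (W i) * E (W i) ≤ Path.theta (W n) * E (W i) :=
          mul_le_mul_of_nonneg_right a2 hEi.le
      _ ≤ Path.theta (W n) * ((1 + ε) * E (W n)) :=
          mul_le_mul_of_nonneg_left (by linarith) hθ.le
      _ = (1 + ε) * (Path.theta (W n) * E (W n)) := by ring
  rw [abs_le]
  constructor <;> linarith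

end Pool.Agent.Lib.MP_3efbeb_nt.GU
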