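import Pool.Agent.Lib.MP_3efbeb_nt.GU.Spec
import Pool.Agent.Lib.MP_926cc3_nt.TH.All

/-!
# MP_3efbeb_nt, higher levels: module LMT
-/

set_option autoImplicit false

open Filter Topology Asymptotics

namespace Pool.Agent.Lib.MP_3efbeb_nt.GU

open Pool.Agent.Lib.MP_926cc3_nt.RS Pool.Agent.Lib.MP_3efbeb_nt.RST
  Pool.Agent.Lib.MP_3efbeb_nt.GL

theorem specLMT : SpecLMT := by
  obtain ⟨g, hg⟩ := Pool.Agent.Lib.MP_926cc3_nt.TH.specDDE
  obtain ⟨c, hc, hlim, -⟩ := Pool.Agent.Lib.MP_926cc3_nt.TH.All.hLIM g hg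
  refine ⟨c, hc, ?_⟩
  have h1 : Tendsto (fun w : ℕ => V (w + 1) * Real.log ((w + 1 : ℕ) : ℝ)) atTop (𝓝 c) :=
    hlim.comp (tendsto_add_atTop_nat 1)
  have hlog : Tendsto (fun w : ℕ => Real.log (w : ℝ)) atTop atTop :=
    Real.tendsto_log_atTop.comp tendsto_natCast_atTop_atTop
  have hr : Tendsto (fun w : ℕ => Real.log (w : ℝ) / Real.log ((w + 1 : ℕ) : ℝ)) atTop (𝓝 1) := by
    have h2 : Tendsto (fun w : ℕ => 1 - 1 / Real.log ((w + 1 : ℕ) : ℝ)) atTop (𝓝 1) := by
      have h3 := (tendsto_const_nhds (x := (1 : ℝ)) (f := atTop)).div_atTop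
        (hlog.comp (tendsto_add_atTop_nat 1))
      simpa [Function.comp_def] using h3.const_sub 1
    refine tendsto_of_tendsto_of_tendsto_of_le_of_le' h2 tendsto_const_nhds ?_ ?_
    · filter_upwards [eventually_ge_atTop 2] with w hw
      have hw' : (2 : ℝ) ≤ w := by exact_mod_cast hw
      have hp : 0 < Real.log ((w + 1 : ℕ) : ℝ) := Real.log_pos (by push_cast; linarith)
      rw [le_div_iff₀ hp, sub_mul, one_mul, div_mul_cancel₀ _ hp.ne']
      have h4 : Real.log ((w + 1 : ℕ) : ℝ) ≤ Real.log (2 * (w : ℝ)) :=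
        Real.log_le_log (by push_cast; linarith) (by push_cast; linarith)
      rw [Real.log_mul (by norm_num) (by linarith)] at h4
      have h5 : Real.log 2 ≤ 1 := by
        have := Real.log_two_lt_d9; linarith
      linarith
    · filter_upwards [eventually_ge_atTop 2] with w hw
      have hw' : (2 : ℝ) ≤ w := by exact_mod_cast hw
      have hp : 0 < Real.log ((w + 1 : ℕ) : ℝ) := Real.log_pos (by push_cast; linarith)
      rw [div_le_one hp]
      exact Real.log_le_log (by linarith) (by push_cast; linarith)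
  have h2 := h1.mul hr
  rw [mul_one] at h2
  refine h2.congr' ?_
  filter_upwards [eventually_ge_atTop 2] with w hw
  have hw' : (2 : ℝ) ≤ w := by exact_mod_cast hw
  have hp : 0 < Real.log ((w + 1 : ℕ) : ℝ) := Real.log_pos (by push_cast; linarith)
  have hV : V (w + 1) = Path.theta w := by
    rw [theta_eq]; rfl
  rw [hV]
  field_simp

end Pool.Agent.Lib.MP_3efbeb_nt.GU
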