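import Pool.Agent.Lib.MP_3efbeb_nt.GU.Spec

/-!
# MP_3efbeb_nt / MP_926cc3_nt, growing level: the lower bound for the exponent (module LSL)
-/

set_option autoImplicit false

open Filter Topology Asymptotics

namespace Pool.Agent.Lib.MP_3efbeb_nt.GU

open Pool.Agent.Lib.MP_926cc3_nt.RS Pool.Agent.Lib.MP_3efbeb_nt.RST
  Pool.Agent.Lib.MP_3efbeb_nt.GL

namespace LSLM

variable {W : ℕ → ℕ} {k S : ℕ → ℝ} {b C : ℝ}

theorem S_pos (h : QD W k S b C) {n : ℕ} (hn : 2 ≤ n) : 0 < S n := by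
  rw [h.Sdef n]
  have h1 : ∀ i ∈ Finset.range n, (0 : ℝ) ≤ k (i + 1) / i := fun i _ =>
    div_nonneg (h.kpos _).le (Nat.cast_nonneg _)
  have h2 : k (1 + 1) / ((1 : ℕ) : ℝ) ≤ ∑ i ∈ Finset.range n, k (i + 1) / i :=
    Finset.single_le_sum (f := fun i : ℕ => k (i + 1) / (i : ℝ)) h1
      (Finset.mem_range.2 (by omega))
  have h3 : 0 < k (1 + 1) / ((1 : ℕ) : ℝ) := by
    have := h.kpos 2
    simpa using this
  linarith

theorem qq_nonneg (h : QD W k S b C) {n : ℕ} (hn : 2 ≤ n) : 0 ≤ qq k S n := by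
  unfold qq
  have := S_pos h hn
  have h2 : 0 ≤ Real.log (n : ℝ) := Real.log_natCast_nonneg n
  have := h.kpos n
  positivity

theorem step (hSTL : SpecSTL) (h : QD W k S b C) {a a' : ℝ} (ha0 : 0 ≤ a) (ha1 : a ≤ 1)
    (ha : ∀ᶠ n : ℕ in atTop, a ≤ qq k S n) (ha'0 : 0 < a') (ha' : a' < 1 - b * (1 - a)) :
    ∀ᶠ n : ℕ in atTop, a' ≤ qq k S n := by
  have hb0 := h.reg.b0
  have hb1 := h.reg.b1
  obtain ⟨N1, hN1⟩ := eventually_atTop.1 ha
  have hD : 0 < 1 - b * (1 - a) := by nlinarith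
  have hlim : Tendsto (fun ε : ℝ => ε + Real.exp ε / (1 - b * (1 - (1 - ε) * a))) (𝓝[>] 0)
      (𝓝 (0 + Real.exp 0 / (1 - b * (1 - (1 - 0) * a)))) := by
    have hc : ContinuousAt (fun ε : ℝ => ε + Real.exp ε / (1 - b * (1 - (1 - ε) * a))) 0 := by
      refine ContinuousAt.add continuousAt_id (ContinuousAt.div Real.continuous_exp.continuousAt
        (Continuous.continuousAt (by fun_prop)) ?_)
      simp only [sub_zero, one_mul]
      exact hD.ne'
    exact hc.tendsto.mono_left nhdsWithin_le_nhds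
  have hlt : 0 + Real.exp 0 / (1 - b * (1 - (1 - 0) * a)) < 1 / a' := by
    simp only [Real.exp_zero, sub_zero, one_mul, zero_add]
    exact one_div_lt_one_div_of_lt ha'0 ha'
  have hev : ∀ᶠ ε : ℝ in 𝓝[>] 0, ε + Real.exp ε / (1 - b * (1 - (1 - ε) * a)) < 1 / a' :=
    hlim.eventually_lt_const hlt
  have hev2 : ∀ᶠ ε : ℝ in 𝓝[>] 0, ε < 1 :=
    (eventually_lt_nhds (show (0 : ℝ) < 1 by norm_num)).filter_mono nhdsWithin_le_nhds
  have hev3 : ∀ᶠ ε : ℝ in 𝓝[>] 0, 0 < ε := eventually_mem_nhdsWithin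
  obtain ⟨ε, hε, hε1, hε0⟩ := (hev.and (hev2.and hev3)).exists
  obtain ⟨N2, hN2⟩ := hSTL W k S b C h ε hε0 hε1 N1
  filter_upwards [eventually_ge_atTop N2, eventually_ge_atTop 3] with n hn hn3
  have h1 := hN2 a ha0 ha1 n hn (fun l hl _ => hN1 l hl)
  have h2 : S n / (k n * Real.log (n : ℝ)) < 1 / a' := lt_of_le_of_lt h1 hε
  have hS := S_pos h (n := n) (by omega)
  have hk := h.kpos n
  have hlog : 0 < Real.log (n : ℝ) := Real.log_pos (by exact_mod_cast (by omega : 1 < n))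
  have hkl : 0 < k n * Real.log (n : ℝ) := by positivity
  rw [div_lt_div_iff₀ hkl ha'0] at h2
  unfold qq
  rw [le_div_iff₀ hS]
  linarith

end LSLM

open LSLM in
theorem specLSL (hSTL : SpecSTL) : SpecLSL := by
  intro W k S b C h η hη
  have hb0 := h.reg.b0
  have hb1 := h.reg.b1
  set T : Set ℝ := {a | 0 ≤ a ∧ a ≤ 1 ∧ ∀ᶠ n : ℕ in atTop, a ≤ qq k S n} with hT
  have hT0 : (0 : ℝ) ∈ T := ⟨le_rfl, zero_le_one, by
    filter_upwards [eventually_ge_atTop 2] with n hn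
    exact qq_nonneg h hn⟩
  have hbdd : BddAbove T := ⟨1, fun a ha => ha.2.1⟩
  have hs0 : 0 ≤ sSup T := le_csSup hbdd hT0
  have hs1 : sSup T ≤ 1 := csSup_le ⟨0, hT0⟩ (fun a ha => ha.2.1)
  have hs : 1 ≤ sSup T := by
    by_contra hlt
    rw [not_le] at hlt
    set s := sSup T with hsdef
    have hd : 0 < (1 - b) * (1 - s) / 2 := by
      have h1 : 0 < 1 - b := by linarith
      have h2 : 0 < 1 - s := by linarith
      positivity
    obtain ⟨a, haT, ha⟩ := exists_lt_of_lt_csSup ⟨0, hT0⟩ (show s - (1 - b) * (1 - s) / 2 < sSup T by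
      rw [← hsdef]; linarith)
    have ha' : s + (1 - b) * (1 - s) / 4 < 1 - b * (1 - a) := by
      nlinarith [mul_pos hb0 hd]
    have hmem : s + (1 - b) * (1 - s) / 4 ∈ T := by
      refine ⟨by linarith, by nlinarith, ?_⟩
      exact step hSTL h haT.1 haT.2.1 haT.2.2 (by linarith) ha'
    have := le_csSup hbdd hmem
    rw [← hsdef] at this
    linarith
  obtain ⟨a, haT, ha⟩ := exists_lt_of_lt_csSup ⟨0, hT0⟩ (show 1 - η < sSup T by linarith)
  filter_upwards [haT.2.2] with n hn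
  linarith

end Pool.Agent.Lib.MP_3efbeb_nt.GU
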