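import Pool.Agent.Lib.MP_3efbeb_nt.GU.Spec

/-!
# MP_3efbeb_nt, sieve of growing level: the limsup of the local exponent (LSU)
-/

set_option autoImplicit false

open Filter Topology Asymptotics

namespace Pool.Agent.Lib.MP_3efbeb_nt.GU

namespace LSUM

/-- the set of the eventual upper bounds `≥ 1` -/
def TT (k S : ℕ → ℝ) : Set ℝ := {B | 1 ≤ B ∧ ∀ᶠ n : ℕ in atTop, qq k S n ≤ B}

theorem mem_TT {k S : ℕ → ℝ} {B : ℝ} :
    B ∈ TT k S ↔ (1 ≤ B ∧ ∀ᶠ n : ℕ in atTop, qq k S n ≤ B) := Iff.rfl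

/-- one improvement -/
theorem step (hSTU : SpecSTU) {W : ℕ → ℕ} {k S : ℕ → ℝ} {b C : ℝ} (hQ : QD W k S b C)
    {ε B : ℝ} (hε : 0 < ε) (hB : B ∈ TT k S) :
    ∀ᶠ n : ℕ in atTop, qq k S n ≤ Real.exp ε * (1 + b * ((1 + ε) * B - 1)) := by
  obtain ⟨h1, h2⟩ := mem_TT.1 hB
  obtain ⟨N0, hN0⟩ := hSTU W k S b C hQ ε hε
  obtain ⟨N', hN'⟩ := eventually_atTop.1 h2
  obtain ⟨N2, hN2⟩ := hN0 (max N0 N') (le_max_left _ _)
  filter_upwards [eventually_ge_atTop N2] with n hn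
  exact hN2 B h1 n hn (fun l hl _ => hN' l (le_trans (le_max_right _ _) hl))

end LSUM

open LSUM in
theorem specLSU (hSTU : SpecSTU) (hBDD : SpecBDD) : SpecLSU := by
  intro W k S b C hQ η hη
  have hb1 : b < 1 := hQ.reg.b1
  have hne : (TT k S).Nonempty := by
    obtain ⟨B, hB1, hB⟩ := hBDD W k S b C hQ
    exact ⟨B, hB1, hB⟩
  have hbd : BddBelow (TT k S) := ⟨1, fun B hB => (mem_TT.1 hB).1⟩
  set Bs := sInf (TT k S) with hBs
  have h1s : 1 ≤ Bs := le_csInf hne (fun B hB => (mem_TT.1 hB).1)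
  -- `Bs = 1`
  have hle : Bs ≤ 1 := by
    by_contra hcon
    have hgt : 1 < Bs := not_le.1 hcon
    have hcont : Tendsto (fun δ : ℝ => Real.exp δ * (1 + b * ((1 + δ) * (Bs + δ) - 1)))
        (𝓝[>] 0) (𝓝 (Real.exp 0 * (1 + b * ((1 + 0) * (Bs + 0) - 1)))) := by
      apply Tendsto.mono_left _ nhdsWithin_le_nhds
      apply Continuous.tendsto
      fun_prop
    have hlim : Real.exp 0 * (1 + b * ((1 + 0) * (Bs + 0) - 1)) < Bs := by
      rw [Real.exp_zero]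
      nlinarith
    have hev := hcont.eventually (gt_mem_nhds hlim)
    obtain ⟨δ, hδ, hδ0⟩ := (hev.and self_mem_nhdsWithin).exists
    have hδ0' : 0 < δ := hδ0
    obtain ⟨B, hB, hBlt⟩ := exists_lt_of_csInf_lt hne (show sInf (TT k S) < Bs + δ by linarith)
    have hB2 : Bs + δ ∈ TT k S := by
      obtain ⟨h1, h2⟩ := mem_TT.1 hB
      exact ⟨by linarith, h2.mono (fun n hn => by linarith)⟩
    have h3 := step hSTU hQ hδ0' hB2
    have h4 : max 1 (Real.exp δ * (1 + b * ((1 + δ) * (Bs + δ) - 1))) ∈ TT k S :=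
      ⟨le_max_left _ _, h3.mono (fun n hn => le_trans hn (le_max_right _ _))⟩
    have h5 := csInf_le hbd h4
    rw [← hBs] at h5
    have h6 : max 1 (Real.exp δ * (1 + b * ((1 + δ) * (Bs + δ) - 1))) < Bs := max_lt hgt hδ
    linarith
  obtain ⟨B, hB, hBlt⟩ := exists_lt_of_csInf_lt hne (show sInf (TT k S) < 1 + η by
    rw [← hBs]; linarith)
  exact (mem_TT.1 hB).2.mono (fun n hn => by linarith)

end Pool.Agent.Lib.MP_3efbeb_nt.GU
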