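import Pool.Agent.Lib.MP_3efbeb_nt.GU.Spec

/-!
# MP_3efbeb_nt and MP_926cc3_nt: the sieve of growing level, higher levels: module MHL
-/

set_option autoImplicit false

open Filter Topology Asymptotics

namespace Pool.Agent.Lib.MP_3efbeb_nt.GU

open Pool.Agent.Lib.MP_926cc3_nt.RS Pool.Agent.Lib.MP_3efbeb_nt.RST
  Pool.Agent.Lib.MP_3efbeb_nt.GL

namespace MHLM

theorem theta_succ (w : ℕ) : Path.theta (w + 1) =
    Path.theta w * (if (w + 1).Prime then (1 - 1 / ((w + 1 : ℕ) : ℝ)) else 1) := by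
  rw [theta_eq, theta_eq, Finset.prod_filter, Finset.prod_filter, Finset.prod_range_succ _ (w + 1)]

theorem theta_low (w : ℕ) (hw : 1 ≤ w) : 1 / (w : ℝ) ≤ Path.theta w := by
  induction w, hw using Nat.le_induction with
  | base =>
    have h0 : Path.theta 1 = 1 := by
      rw [theta_eq]
      refine Finset.prod_eq_one (fun p hp => ?_)
      have h1 := Finset.mem_filter.1 hp
      have h2 := Finset.mem_range.1 h1.1
      have h3 := h1.2.two_le
      omega
    rw [h0]; norm_num
  | succ w hw ih =>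
    have hw' : (0 : ℝ) < w := by exact_mod_cast hw
    have hw1 : (0 : ℝ) < ((w + 1 : ℕ) : ℝ) := by positivity
    have h1 : (1 / (w : ℝ)) * (1 - 1 / ((w + 1 : ℕ) : ℝ)) = 1 / ((w + 1 : ℕ) : ℝ) := by
      push_cast
      field_simp
      ring
    have h2 : (0 : ℝ) ≤ 1 - 1 / ((w + 1 : ℕ) : ℝ) := by
      rw [sub_nonneg, div_le_one hw1]
      exact_mod_cast Nat.le_add_left 1 w
    rw [theta_succ]
    split_ifs with hp
    · exact h1.symm.le.trans (mul_le_mul_of_nonneg_right ih h2)
    · rw [mul_one, ← h1]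
      calc (1 / (w : ℝ)) * (1 - 1 / ((w + 1 : ℕ) : ℝ)) ≤ (1 / (w : ℝ)) * 1 := by
            apply mul_le_mul_of_nonneg_left _ (by positivity)
            have : 0 < 1 / ((w + 1 : ℕ) : ℝ) := by positivity
            linarith
        _ = 1 / (w : ℝ) := mul_one _
        _ ≤ Path.theta w := ih

theorem theta_low' (w : ℕ) : 1 / ((w : ℝ) + 1) ≤ Path.theta w := by
  rcases Nat.eq_zero_or_pos w with h | h
  · subst h
    have h0 : Path.theta 0 = 1 := by
      rw [theta_eq]
      refine Finset.prod_eq_one (fun p hp => ?_)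
      have h1 := Finset.mem_filter.1 hp
      have h2 := Finset.mem_range.1 h1.1
      have h3 := h1.2.two_le
      omega
    rw [h0]; norm_num
  · refine le_trans ?_ (theta_low w h)
    have hw' : (0 : ℝ) < w := by exact_mod_cast h
    apply one_div_le_one_div_of_le hw'
    linarith

/-- a positive sequence with a positive limit stays away from zero -/
theorem low_of_tendsto {f : ℕ → ℝ} {L : ℝ} (hf : ∀ n, 0 < f n) (hL : 0 < L)
    (h : Tendsto f atTop (𝓝 L)) : ∃ s : ℝ, 0 < s ∧ ∀ n, s ≤ f n := by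
  have h1 : ∀ᶠ n in atTop, L / 2 < f n := h.eventually (lt_mem_nhds (by linarith))
  obtain ⟨N, hN⟩ := eventually_atTop.1 h1
  have hne : ((Finset.range (N + 1)).image f).Nonempty := by
    simp
  have h2 : 0 < ((Finset.range (N + 1)).image f).min' hne := by
    have := Finset.min'_mem _ hne
    obtain ⟨i, _, hi⟩ := Finset.mem_image.1 this
    rw [← hi]; exact hf i
  refine ⟨min (L / 2) (((Finset.range (N + 1)).image f).min' hne), lt_min (by linarith) h2,
    fun n => ?_⟩
  rcases le_total N n with hn | hn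
  · exact (min_le_left _ _).trans (hN n hn).le
  · refine (min_le_right _ _).trans (Finset.min'_le _ _ ?_)
    exact Finset.mem_image.2 ⟨n, Finset.mem_range.2 (by omega), rfl⟩

end MHLM

theorem specMHL : SpecMHL := by
  intro H hH
  have hp : ∀ w, 0 < sing w H := fun w => sing_pos (fun p hp _ => hH p hp)
  have ht := sing_tendsto H
  have hl := hl_pos H hH
  obtain ⟨s0, hs0, h0⟩ := MHLM.low_of_tendsto hp hl ht
  obtain ⟨s1, h1⟩ := ht.bddAbove_range
  refine ⟨s0, s1, hs0, fun w => ⟨h0 w, h1 (Set.mem_range_self w), ?_⟩⟩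
  unfold mH
  have hw : (0 : ℝ) < (w : ℝ) + 1 := by positivity
  have h2 := MHLM.theta_low' w
  have h3 : (1 / ((w : ℝ) + 1)) ^ H.card ≤ Path.theta w ^ H.card :=
    pow_le_pow_left₀ (by positivity) h2 _
  calc s0 / ((w : ℝ) + 1) ^ H.card = s0 * (1 / ((w : ℝ) + 1)) ^ H.card := by
        rw [one_div, inv_pow, div_eq_mul_inv]
    _ ≤ sing w H * Path.theta w ^ H.card :=
        mul_le_mul (h0 w) h3 (by positivity) (hp w).le

end Pool.Agent.Lib.MP_3efbeb_nt.GU
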