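import Pool.Agent.Lib.MP_3efbeb_nt.GU.Spec
import Pool.Agent.Lib.MP_926cc3_nt.TH.All

set_option autoImplicit false

open Filter Topology Asymptotics

namespace Pool.Agent.Lib.MP_3efbeb_nt.GU

open Pool.Agent.Lib.MP_926cc3_nt.RS Pool.Agent.Lib.MP_3efbeb_nt.RST
  Pool.Agent.Lib.MP_3efbeb_nt.GL

namespace PLCM

/-- the product bound -/
theorem prod_bd (W : ℕ → ℕ) (E : ℕ → ℝ) (hE : EBase E) (hS : EStep W E) {v : ℕ} (hv : 1 ≤ v) :
    ∀ n : ℕ, v ≤ n → E n ≤ E v * Real.exp (∑ i ∈ Finset.Ico v n, rho W (i + 1) / i) := by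
  intro n hn
  induction n, hn using Nat.le_induction with
  | base => simp
  | succ n hn ih =>
    rw [Finset.sum_Ico_succ_top hn, Real.exp_add]
    have h1 := hS n (by omega)
    have h2 : 1 + rho W (n + 1) / n ≤ Real.exp (rho W (n + 1) / n) := by
      have := Real.add_one_le_exp (rho W (n + 1) / n); linarith
    have h3 : 0 ≤ 1 + rho W (n + 1) / n := by
      have : 0 ≤ rho W (n + 1) / n := div_nonneg (rho_nonneg W _) (Nat.cast_nonneg _)
      linarith
    have h4 : 0 < E n := lt_of_lt_of_le zero_lt_one (hE.one_le _)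
    calc E (n + 1) ≤ E n * (1 + rho W (n + 1) / n) := h1
      _ ≤ (E v * Real.exp (∑ i ∈ Finset.Ico v n, rho W (i + 1) / i)) * Real.exp (rho W (n + 1) / n) :=
          mul_le_mul ih h2 h3 (le_trans h4.le ih)
      _ = _ := by ring

theorem rho_le_r {W : ℕ → ℕ} {z m : ℕ} (h1 : z ≤ W m) (h2 : W m < m) : rho W m ≤ Gra.r z m := by
  unfold rho
  split_ifs with h
  · unfold Gra.r
    rw [if_pos]
    intro p hp hd
    by_contra hlt
    push Not at hlt
    exact h.2 p hp (by omega) (by omega) hd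
  · unfold Gra.r
    split_ifs <;> norm_num

theorem r_nonneg (z m : ℕ) : 0 ≤ Gra.r z m := by
  unfold Gra.r
  split_ifs <;> norm_num

end PLCM

open PLCM in
theorem specPLC : SpecPLC := by
  intro t ht
  obtain ⟨z0, hz0, hG⟩ := Pool.Agent.Lib.MP_926cc3_nt.TH.All.hBDG
  set T : ℝ := 2 / t ^ 2 with hT
  have hT0 : 0 < T := by positivity
  refine ⟨Real.exp (-(2 * Real.exp (4 * T))), Real.exp_pos _, ?_⟩
  intro W E hE hS hW
  obtain ⟨n0, hn0⟩ := eventually_atTop.1 hW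
  -- growth of the powers
  have hcast : Tendsto (fun n : ℕ => (n : ℝ)) atTop atTop := tendsto_natCast_atTop_atTop
  have e1 : Tendsto (fun n : ℕ => (n : ℝ) ^ t) atTop atTop := (tendsto_rpow_atTop ht).comp hcast
  have e2 : Tendsto (fun n : ℕ => (n : ℝ) ^ (t ^ 2 / 2)) atTop atTop :=
    (tendsto_rpow_atTop (by positivity)).comp hcast
  have e3 : Tendsto (fun n : ℕ => (n : ℝ) ^ (t ^ 2)) atTop atTop :=
    (tendsto_rpow_atTop (by positivity)).comp hcast
  filter_upwards [eventually_ge_atTop (n0 + 2), e1.eventually_ge_atTop ((n0 : ℝ) + 1),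
    e2.eventually_ge_atTop 2, e3.eventually_ge_atTop ((z0 : ℝ) + 1)] with n h1 h2 h3 h4
  have hn1 : (1 : ℝ) ≤ n := by exact_mod_cast (by omega : 1 ≤ n)
  have hnpos : (0 : ℝ) < n := by linarith
  obtain ⟨hWn, hWlt⟩ := hn0 n (by omega)
  have hWn1 : (n0 : ℝ) + 1 ≤ W n := le_trans h2 hWn
  have hWn2 : n0 + 1 ≤ W n := by exact_mod_cast hWn1
  set z : ℕ := ⌊(n : ℝ) ^ (t ^ 2)⌋₊ with hz
  have hzle : (z : ℝ) ≤ (n : ℝ) ^ (t ^ 2) := Nat.floor_le (by positivity)
  have hzlt : (n : ℝ) ^ (t ^ 2) < z + 1 := Nat.lt_floor_add_one _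
  have hzz0 : z0 ≤ z := by
    rw [hz]
    refine Nat.le_floor ?_
    linarith
  -- `z ≥ n^(t^2/2)`
  have hsq : (n : ℝ) ^ (t ^ 2) = (n : ℝ) ^ (t ^ 2 / 2) * (n : ℝ) ^ (t ^ 2 / 2) := by
    rw [← Real.rpow_add hnpos]; congr 1; ring
  have hzge : (n : ℝ) ^ (t ^ 2 / 2) ≤ z := by nlinarith
  have hzpos : (0 : ℝ) < z := by linarith
  have hlogz : t ^ 2 / 2 * Real.log n ≤ Real.log z := by
    rw [← Real.log_rpow hnpos]
    exact Real.log_le_log (by positivity) hzge
  have hTz : Real.log n ≤ T * Real.log z := by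
    have : T * (t ^ 2 / 2 * Real.log n) = Real.log n := by
      rw [hT]; field_simp
    calc Real.log n = T * (t ^ 2 / 2 * Real.log n) := this.symm
      _ ≤ _ := mul_le_mul_of_nonneg_left hlogz hT0.le
  have hnle : n ≤ ⌊Real.exp (T * Real.log z)⌋₊ := by
    refine Nat.le_floor ?_
    calc (n : ℝ) = Real.exp (Real.log n) := (Real.exp_log hnpos).symm
      _ ≤ _ := Real.exp_le_exp.2 hTz
  -- the sum
  have hsum : ∑ i ∈ Finset.Ico (W n) n, rho W (i + 1) / i ≤
      2 * Pool.Agent.Lib.MP_926cc3_nt.TH.G z T := by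
    have a1 : ∑ i ∈ Finset.Ico (W n) n, rho W (i + 1) / i ≤
        ∑ i ∈ Finset.Ico (W n) n, 2 * (Gra.r z (i + 1) / ((i + 1 : ℕ) : ℝ)) := by
      refine Finset.sum_le_sum (fun i hi => ?_)
      rw [Finset.mem_Ico] at hi
      have hi1 : 1 ≤ i := by omega
      have hi1' : (1 : ℝ) ≤ i := by exact_mod_cast hi1
      obtain ⟨b1, b2⟩ := hn0 (i + 1) (by omega)
      have b3 : z ≤ W (i + 1) := by
        have c1 : (n : ℝ) ^ (t ^ 2) ≤ ((i + 1 : ℕ) : ℝ) ^ t := by
          have c2 : (n : ℝ) ^ t ≤ ((i + 1 : ℕ) : ℝ) := by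
            refine le_trans hWn ?_
            exact_mod_cast (by omega : W n ≤ i + 1)
          have c3 : (n : ℝ) ^ (t ^ 2) = ((n : ℝ) ^ t) ^ t := by
            rw [← Real.rpow_mul hnpos.le]; congr 1; ring
          rw [c3]
          exact Real.rpow_le_rpow (by positivity) c2 ht.le
        have c4 : (z : ℝ) ≤ W (i + 1) := le_trans hzle (le_trans c1 b1)
        exact_mod_cast c4
      have b4 := rho_le_r b3 b2
      have b5 := r_nonneg z (i + 1)
      have b6 : (1 : ℝ) / i ≤ 2 * (1 / ((i + 1 : ℕ) : ℝ)) := by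
        push_cast
        rw [mul_one_div, div_le_div_iff₀ (by linarith) (by linarith)]
        linarith
      have b7 : (0 : ℝ) ≤ 1 / i := by positivity
      calc rho W (i + 1) / i = rho W (i + 1) * (1 / i) := by ring
        _ ≤ Gra.r z (i + 1) * (2 * (1 / ((i + 1 : ℕ) : ℝ))) :=
            mul_le_mul b4 b6 b7 b5
        _ = _ := by ring
    refine a1.trans ?_
    rw [← Finset.mul_sum]
    refine mul_le_mul_of_nonneg_left ?_ (by norm_num)
    have a2 : ∑ i ∈ Finset.Ico (W n) n, Gra.r z (i + 1) / ((i + 1 : ℕ) : ℝ) =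
        ∑ m ∈ Finset.Ico (W n + 1) (n + 1), Gra.r z m / (m : ℝ) :=
      Finset.sum_Ico_add' (fun m : ℕ => Gra.r z m / (m : ℝ)) (W n) n 1
    rw [a2]
    unfold Pool.Agent.Lib.MP_926cc3_nt.TH.G
    refine Finset.sum_le_sum_of_subset_of_nonneg ?_ (fun m _ _ => div_nonneg (r_nonneg z m) (Nat.cast_nonneg _))
    intro m hm
    rw [Finset.mem_Ico] at hm
    rw [Finset.mem_Ioc]
    exact ⟨by omega, by omega⟩
  have hGT := hG z hzz0 T hT0.le
  have hprod := prod_bd W E hE hS (v := W n) (by omega) n hWlt.le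
  have hEW : 0 < E (W n) := lt_of_lt_of_le zero_lt_one (hE.one_le _)
  have hEn : E (n - 1) ≤ E (W n) * Real.exp (2 * Real.exp (4 * T)) := by
    refine le_trans (hE.mono (Nat.sub_le _ _)) (hprod.trans ?_)
    refine mul_le_mul_of_nonneg_left (Real.exp_le_exp.2 ?_) hEW.le
    linarith
  have hEn1 : 0 < E (n - 1) := lt_of_lt_of_le zero_lt_one (hE.one_le _)
  rw [le_div_iff₀ hEn1]
  calc Real.exp (-(2 * Real.exp (4 * T))) * E (n - 1)
      ≤ Real.exp (-(2 * Real.exp (4 * T))) * (E (W n) * Real.exp (2 * Real.exp (4 * T))) :=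
        mul_le_mul_of_nonneg_left hEn (Real.exp_pos _).le
    _ = E (W n) * (Real.exp (-(2 * Real.exp (4 * T))) * Real.exp (2 * Real.exp (4 * T))) := by ring
    _ = E (W n) := by rw [← Real.exp_add]; simp

end Pool.Agent.Lib.MP_3efbeb_nt.GU
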