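import Pool.Agent.Lib.MP_3efbeb_nt.GU.Spec

set_option autoImplicit false

open Filter Topology Asymptotics

namespace Pool.Agent.Lib.MP_3efbeb_nt.GU

open Pool.Agent.Lib.MP_926cc3_nt.RS Pool.Agent.Lib.MP_3efbeb_nt.RST
  Pool.Agent.Lib.MP_3efbeb_nt.GL

namespace PLDM

theorem harm (n : ℕ) : ∑ i ∈ Finset.range n, (1 : ℝ) / i ≤ 1 + Real.log (n : ℝ) := by
  rcases Nat.eq_zero_or_pos n with h0 | h0
  · subst h0; simp
  · obtain ⟨m, rfl⟩ : ∃ m, n = m + 1 := ⟨n - 1, by omega⟩
    rw [Finset.sum_range_succ']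
    simp only [Nat.cast_zero, div_zero, add_zero]
    have h1 := harmonic_le_one_add_log (m + 1)
    have h2 : ((harmonic (m + 1) : ℚ) : ℝ) = ∑ i ∈ Finset.range (m + 1), (1 : ℝ) / ((i + 1 : ℕ) : ℝ) := by
      unfold harmonic
      push_cast
      simp
    rw [h2, Finset.sum_range_succ] at h1
    have h3 : (0 : ℝ) ≤ 1 / ((m + 1 : ℕ) : ℝ) := by positivity
    linarith

theorem PP_le (W : ℕ → ℕ) (E : ℕ → ℝ) (hW : Monotone W) (hE : EBase E) (n : ℕ) :
    PP W E n ≤ E (W n) * (1 + Real.log (n : ℝ)) := by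
  have h1 : PP W E n ≤ E (W n) * ∑ i ∈ Finset.range n, (1 : ℝ) / i := by
    unfold PP
    rw [Finset.mul_sum]
    refine Finset.sum_le_sum (fun i hi => ?_)
    rw [Finset.mem_range] at hi
    rw [mul_div_assoc, mul_one_div]
    have h2 : E (min (W (i + 1)) i) ≤ E (W n) :=
      hE.mono (le_trans (min_le_left _ _) (hW (by omega)))
    have h3 : 0 ≤ E (min (W (i + 1)) i) / i :=
      div_nonneg (le_trans zero_le_one (hE.one_le _)) (Nat.cast_nonneg _)
    calc rho W (i + 1) * (E (min (W (i + 1)) i) / i) ≤ 1 * (E (min (W (i + 1)) i) / i) :=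
          mul_le_mul_of_nonneg_right (rho_le_one W _) h3
      _ = E (min (W (i + 1)) i) / i := one_mul _
      _ ≤ E (W n) / i := div_le_div_of_nonneg_right h2 (Nat.cast_nonneg _)
  exact h1.trans (mul_le_mul_of_nonneg_left (harm n) (le_trans zero_le_one (hE.one_le _)))

end PLDM

open PLDM in
theorem specPLD (hPPD : SpecPPD) : SpecPLD := by
  intro W E hW hE hEP
  have hPP := hPPD W E hE
  have hpos : ∀ᶠ n in atTop, 0 < PP W E n := hPP.eventually_gt_atTop 0
  have hlog : Tendsto (fun n : ℕ => Real.log (n : ℝ)) atTop atTop :=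
    Real.tendsto_log_atTop.comp tendsto_natCast_atTop_atTop
  have hr : Tendsto (fun n => E n / PP W E n) atTop (𝓝 1) := by
    have h := (isEquivalent_iff_tendsto_one (u := E) (v := PP W E)
      (hpos.mono (fun n hn => ne_of_gt hn))).1 hEP
    exact h
  filter_upwards [hpos, hlog.eventually_ge_atTop 4, hr.eventually_le_const (show (1 : ℝ) < 3 / 2 by norm_num)]
    with n h1 h2 h3
  have h4 : E n ≤ 3 / 2 * PP W E n := by
    rw [div_le_iff₀ h1] at h3
    exact h3
  have h5 := PP_le W E hW hE n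
  have h6 : E (n - 1) ≤ E n := hE.mono (Nat.sub_le _ _)
  have h7 : 0 < E (n - 1) := lt_of_lt_of_le zero_lt_one (hE.one_le _)
  have h8 : 0 < E (W n) := lt_of_lt_of_le zero_lt_one (hE.one_le _)
  rw [div_le_div_iff₀ (by linarith) h7, one_mul]
  calc E (n - 1) ≤ 3 / 2 * (E (W n) * (1 + Real.log (n : ℝ))) := by linarith
    _ ≤ E (W n) * (2 * Real.log (n : ℝ)) := by nlinarith

end Pool.Agent.Lib.MP_3efbeb_nt.GU
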