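import Pool.Agent.Lib.MP_3efbeb_nt.GU.Spec

/-!
# MP_3efbeb_nt / MP_926cc3_nt, growing level: rough constellations in `(x, 2x]` (module PLS)
-/

set_option autoImplicit false

open Filter Topology Asymptotics

namespace Pool.Agent.Lib.MP_3efbeb_nt.GU

open Pool.Agent.Lib.MP_926cc3_nt.RS Pool.Agent.Lib.MP_3efbeb_nt.RST
  Pool.Agent.Lib.MP_3efbeb_nt.GL

namespace PLSM

theorem exists_b (C : ℝ) : ∃ b : ℕ, C * Real.exp (-(b : ℝ)) ≤ 1 / 2 := by
  obtain ⟨b, hb⟩ := exists_nat_ge (2 * C)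
  refine ⟨b, ?_⟩
  have h1 : (b : ℝ) + 1 ≤ Real.exp (b : ℝ) := Real.add_one_le_exp _
  rw [Real.exp_neg, ← div_eq_mul_inv, div_le_iff₀ (Real.exp_pos _)]
  linarith

/-- the error term is small -/
theorem small (C' s0 : ℝ) (hs0 : 0 < s0) (N : ℕ) : ∃ z0 : ℕ, ∀ z x : ℕ, z0 ≤ z →
    z ^ (N + 2) ≤ x → C' * ((z : ℝ) + 2) ^ N ≤ s0 / 4 * x := by
  obtain ⟨z0, hz0⟩ := exists_nat_ge (4 * (|C'| * 2 ^ N) / s0)
  refine ⟨z0 + 2, fun z x hz hx => ?_⟩
  have hz2 : (2 : ℝ) ≤ z := by exact_mod_cast (by omega : 2 ≤ z)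
  have hzz : 4 * (|C'| * 2 ^ N) / s0 ≤ z := hz0.trans (by exact_mod_cast (by omega : z0 ≤ z))
  have h1 : ((z : ℝ) + 2) ^ N ≤ (2 * z) ^ N := by
    apply pow_le_pow_left₀ (by linarith); linarith
  have h2 : (z : ℝ) ^ (N + 2) ≤ x := by exact_mod_cast hx
  rw [div_le_iff₀ hs0] at hzz
  have hzN : (0 : ℝ) ≤ (z : ℝ) ^ N := by positivity
  calc C' * ((z : ℝ) + 2) ^ N ≤ |C'| * ((z : ℝ) + 2) ^ N := by
        apply mul_le_mul_of_nonneg_right (le_abs_self _) (by positivity)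
    _ ≤ |C'| * (2 * z) ^ N := mul_le_mul_of_nonneg_left h1 (abs_nonneg _)
    _ = (|C'| * 2 ^ N) * z ^ N := by rw [mul_pow]; ring
    _ ≤ (s0 / 4 * z) * z ^ N := by
        apply mul_le_mul_of_nonneg_right _ hzN
        linarith
    _ ≤ (s0 / 4 * z * z) * z ^ N := by
        apply mul_le_mul_of_nonneg_right _ hzN
        have : 0 ≤ s0 / 4 * z := by positivity
        nlinarith
    _ = s0 / 4 * z ^ (N + 2) := by ring
    _ ≤ s0 / 4 * x := mul_le_mul_of_nonneg_left h2 (by positivity)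

end PLSM

open PLSM in
theorem specPLS (hTFL : SpecTFL) (hMHL : SpecMHL) (hLMT : SpecLMT) : SpecPLS := by
  intro k
  obtain ⟨C, hC, hT⟩ := hTFL k
  obtain ⟨b, hb⟩ := exists_b C
  refine ⟨16 * b + 40 + k + 2, by omega, fun H hHk hH => ?_⟩
  obtain ⟨C', hC', hT'⟩ := hT H hHk hH
  obtain ⟨s0, s1, hs0, hs⟩ := hMHL H hH
  obtain ⟨c, hc, hlim⟩ := hLMT
  obtain ⟨w1, hw1⟩ := eventually_atTop.1 (hlim.eventually_const_lt (show c / 2 < c by linarith))
  obtain ⟨w2, hw2⟩ := eventually_atTop.1 (hlim.eventually_lt_const (show c < 2 * c by linarith))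
  obtain ⟨z0, hz0⟩ := small C' s0 hs0 (16 * b + 40 + k)
  have hs1 : 0 < s1 := hs0.trans_le ((hs 0).1.trans (hs 0).2.1)
  refine ⟨s0 * (c / 2) ^ H.card / 4, 2 * s1 * (2 * c) ^ H.card, by positivity, by positivity,
    w1 + w2 + z0 + 2, fun z x hz hx => ?_⟩
  have hlog : 0 < Real.log (z : ℝ) := Real.log_pos (by exact_mod_cast (by omega : 1 < z))
  have hx0 : (0 : ℝ) ≤ x := Nat.cast_nonneg x
  have h1 := hw1 z (by omega)
  have h2 := hw2 z (by omega)
  have h3 := hz0 z x (by omega) hx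
  have hth1 : c / 2 / Real.log (z : ℝ) ≤ Path.theta z := by
    rw [div_le_iff₀ hlog]; exact h1.le
  have hth2 : Path.theta z ≤ 2 * c / Real.log (z : ℝ) := by
    rw [le_div_iff₀ hlog]; exact h2.le
  have hth0 : 0 ≤ Path.theta z := le_trans (by positivity) hth1
  -- bounds of mH
  have hm1 : s0 * ((c / 2) ^ H.card / Real.log (z : ℝ) ^ H.card) ≤ mH H z := by
    unfold mH
    rw [← div_pow]
    exact mul_le_mul (hs z).1 (pow_le_pow_left₀ (by positivity) hth1 _) (by positivity)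
      (hs0.le.trans (hs z).1)
  have hm2 : mH H z ≤ s1 * ((2 * c) ^ H.card / Real.log (z : ℝ) ^ H.card) := by
    unfold mH
    rw [← div_pow]
    exact mul_le_mul (hs z).2.1 (pow_le_pow_left₀ hth0 hth2 _) (by positivity) hs1.le
  have hm0 : 0 ≤ mH H z := le_trans (by positivity) hm1
  -- the error term
  have herr : C' * ((z : ℝ) + 2) ^ (16 * b + 40) ≤ x * mH H z / 4 := by
    have hp : (0 : ℝ) < ((z : ℝ) + 2) ^ k := by positivity
    have h4 : s0 ≤ mH H z * ((z : ℝ) + 2) ^ k := by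
      have h5 := (hs z).2.2
      have hp1 : (0 : ℝ) < ((z : ℝ) + 1) ^ H.card := by positivity
      rw [div_le_iff₀ hp1] at h5
      refine h5.trans (mul_le_mul_of_nonneg_left ?_ hm0)
      calc ((z : ℝ) + 1) ^ H.card ≤ ((z : ℝ) + 2) ^ H.card :=
            pow_le_pow_left₀ (by positivity) (by linarith) _
        _ ≤ ((z : ℝ) + 2) ^ k := pow_le_pow_right₀ (by
            have : (0 : ℝ) ≤ z := Nat.cast_nonneg z
            linarith) hHk
    have h6 : C' * ((z : ℝ) + 2) ^ (16 * b + 40) * ((z : ℝ) + 2) ^ k ≤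
        x * mH H z / 4 * ((z : ℝ) + 2) ^ k := by
      calc C' * ((z : ℝ) + 2) ^ (16 * b + 40) * ((z : ℝ) + 2) ^ k
          = C' * ((z : ℝ) + 2) ^ (16 * b + 40 + k) := by rw [pow_add _ (16 * b + 40) k]; ring
        _ ≤ s0 / 4 * x := h3
        _ ≤ (mH H z * ((z : ℝ) + 2) ^ k) / 4 * x := by
            apply mul_le_mul_of_nonneg_right _ hx0
            linarith
        _ = x * mH H z / 4 * ((z : ℝ) + 2) ^ k := by ring
    exact le_of_mul_le_mul_right h6 hp
  have h7 := hT' b z x (2 * x) (by omega)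
  have h8 : (((2 * x : ℕ) : ℝ) - x) = x := by push_cast; ring
  rw [h8] at h7
  have h9 : C * Real.exp (-(b : ℝ)) * x * mH H z ≤ x * mH H z / 2 := by
    have : C * Real.exp (-(b : ℝ)) * (x * mH H z) ≤ 1 / 2 * (x * mH H z) :=
      mul_le_mul_of_nonneg_right hb (mul_nonneg hx0 hm0)
    nlinarith
  have h10 := abs_le.1 h7
  constructor
  · calc s0 * (c / 2) ^ H.card / 4 * (x / Real.log (z : ℝ) ^ H.card)
        = x * (s0 * ((c / 2) ^ H.card / Real.log (z : ℝ) ^ H.card)) / 4 := by ring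
      _ ≤ x * mH H z / 4 := by
          have := mul_le_mul_of_nonneg_left hm1 hx0
          linarith
      _ ≤ _ := by linarith [h10.1]
  · calc ∑ n ∈ Finset.Ioc x (2 * x), chi z H n ≤ 2 * (x * mH H z) := by
          have : 0 ≤ x * mH H z := mul_nonneg hx0 hm0
          linarith [h10.2]
      _ ≤ 2 * (x * (s1 * ((2 * c) ^ H.card / Real.log (z : ℝ) ^ H.card))) := by
          have := mul_le_mul_of_nonneg_left hm2 hx0
          linarith
      _ = 2 * s1 * (2 * c) ^ H.card * (x / Real.log (z : ℝ) ^ H.card) := by ring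

end Pool.Agent.Lib.MP_3efbeb_nt.GU
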