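import Pool.Agent.Lib.MP_3efbeb_nt.GU.Spec
import Mathlib.NumberTheory.SumPrimeReciprocals

set_option autoImplicit false

open Filter Topology Asymptotics

namespace Pool.Agent.Lib.MP_3efbeb_nt.GU

open Pool.Agent.Lib.MP_926cc3_nt.RS Pool.Agent.Lib.MP_3efbeb_nt.RST
  Pool.Agent.Lib.MP_3efbeb_nt.GL

namespace PPDM

/-- the reciprocals of the primes, shifted -/
noncomputable def f (i : ℕ) : ℝ := Set.indicator {p : ℕ | p.Prime} (fun n : ℕ => (1 : ℝ) / n) (i + 1)

theorem f_nonneg (i : ℕ) : 0 ≤ f i := by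
  unfold f
  exact Set.indicator_nonneg (fun n _ => by positivity) _

theorem rho_prime (W : ℕ → ℕ) {p : ℕ} (hp : p.Prime) : rho W p = 1 := by
  unfold rho
  rw [if_pos]
  refine ⟨hp.two_le, fun q hq _ hlt hd => ?_⟩
  have := (Nat.prime_dvd_prime_iff_eq hq hp).1 hd
  omega

theorem f_le (W : ℕ → ℕ) (E : ℕ → ℝ) (hE : EBase E) (i : ℕ) :
    f i ≤ rho W (i + 1) * E (min (W (i + 1)) i) / i := by
  have h0 : 0 ≤ rho W (i + 1) * E (min (W (i + 1)) i) / i :=
    div_nonneg (mul_nonneg (rho_nonneg W _) (le_trans zero_le_one (hE.one_le _))) (Nat.cast_nonneg _)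
  by_cases hp : (i + 1).Prime
  · have hi : 1 ≤ i := by have := hp.two_le; omega
    have hi' : (0 : ℝ) < i := by exact_mod_cast hi
    unfold f
    rw [Set.indicator_of_mem (by exact hp), rho_prime W hp, one_mul]
    rw [div_le_div_iff₀ (by positivity) hi']
    push_cast
    have := hE.one_le (min (W (i + 1)) i)
    nlinarith
  · unfold f
    rw [Set.indicator_of_notMem (by exact hp)]
    exact h0

end PPDM

open PPDM in
theorem specPPD : SpecPPD := by
  intro W E hE
  have h1 : ¬ Summable f := by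
    intro h
    exact not_summable_one_div_on_primes ((summable_nat_add_iff 1).1 h)
  have h2 := (not_summable_iff_tendsto_nat_atTop_of_nonneg f_nonneg).1 h1
  refine tendsto_atTop_mono (fun n => ?_) h2
  unfold PP
  exact Finset.sum_le_sum (fun i _ => f_le W E hE i)

end Pool.Agent.Lib.MP_3efbeb_nt.GU
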