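import Pool.Agent.Lib.MP_3efbeb_nt.GU.Pit

/-!
# GU: the theorem on levels up to a power
-/

set_option autoImplicit false
set_option linter.unusedSectionVars false
set_option linter.unusedVariables false

open Filter Topology MeasureTheory ProbabilityTheory Asymptotics

namespace Pool.Agent.Lib.MP_3efbeb_nt.GU

open Pool.Agent.Lib.MP_926cc3_nt.RS Pool.Agent.Lib.MP_3efbeb_nt.RST
  Pool.Agent.Lib.MP_3efbeb_nt.GL

namespace POWM

open PITM

variable {Ω : Type*} [m0 : MeasurableSpace Ω] {μ : Measure Ω} [IsProbabilityMeasure μ]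
  {W : ℕ → ℕ} {A : ℕ → ℕ → Set Ω}

theorem half_log_nonneg (n : ℕ) : 0 ≤ 1 / (2 * Real.log (n : ℝ)) := by
  have := Real.log_natCast_nonneg n
  positivity

theorem half_log_le_one (n : ℕ) : 1 / (2 * Real.log (n : ℝ)) ≤ 1 := by
  rcases Nat.lt_or_ge n 2 with h | h
  · interval_cases n <;> simp
  · have h1 : Real.log 2 ≤ Real.log (n : ℝ) :=
      Real.log_le_log (by norm_num) (by exact_mod_cast h)
    have h2 := Real.log_two_gt_d9
    rw [div_le_one (by linarith)]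
    linarith

/-- from the lower bound of the expected number to the number itself -/
theorem count_of_low (hA : ∀ m n, MeasurableSet (A m n))
    (hI : iIndepSet (fun q : ℕ × ℕ => A q.1 q.2) μ)
    (hP : ∀ m n, W n < m → m < n → μ.real (A m n) = 1 / m) (φ : ℕ → ℝ) (B : ℝ)
    (hφ : ∀ n, 0 ≤ φ n) (hφB : ∀ n, φ n ≤ B)
    (hd : ∀ᵐ ω ∂μ, ∀ᶠ n : ℕ in atTop, rho W n * φ n ≤ dW W A n ω) (H : Finset ℕ)
    (L : ℕ → ℝ) (hL : Tendsto L atTop atTop)
    (hlow : ∀ᶠ X : ℕ in atTop, L X ≤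
      ∑ n ∈ Finset.range X, ∏ h ∈ H, rho W (n + 1 + h) * φ (n + 1 + h)) :
    ∀ᵐ ω ∂μ, (∀ᶠ x : ℕ in atTop, 1 / 2 * L x ≤ (constCount (growSet W A ω) H x : ℝ)) ∧
      {n | ∀ h ∈ H, n + h ∈ growSet W A ω}.Infinite := by
  have hB : 0 ≤ B := (hφ 0).trans (hφB 0)
  have hdiv : Tendsto (fun X => ∑ n ∈ Finset.range X,
      ∏ h ∈ H, rho W (n + 1 + h) * φ (n + 1 + h)) atTop atTop :=
    tendsto_atTop_mono' _ hlow hL
  have h1 := iter_low (Sv.dens (μ := μ) hA hI hP) (fun n => rho W n * φ n) B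
    (fun n => mul_nonneg (rho_nonneg W n) (hφ n)) (fun n => by
      calc rho W n * φ n ≤ 1 * B := mul_le_mul (rho_le_one W n) (hφB n) (hφ n) zero_le_one
        _ = B := one_mul B) hd (fun i n => n + 1 + i)
    (fun i => fun a b hab => by simp only; omega) (fun i => by omega) H
    (fun i _ j _ hij n => by omega) (fun _ => 1) 1 (fun _ => zero_le_one) (fun _ => le_rfl)
    (by simpa using hdiv)
  filter_upwards [h1] with ω hω
  have h2 : ∀ᶠ x : ℕ in atTop, 1 / 2 * L x ≤ (constCount (growSet W A ω) H x : ℝ) := by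
    filter_upwards [hω (1 / 2) (by norm_num), hlow] with x h3 h4
    rw [constCount_eq]
    simp only [one_mul] at h3
    refine le_trans ?_ h3
    linarith
  refine ⟨h2, infinite_of_top ?_⟩
  exact tendsto_atTop_mono' _ h2 (hL.const_mul_atTop (by norm_num))

/-- the level is at most `x ^ 2 - 2` at `2 x` -/
theorem log_level {A' : ℕ} (hA' : 1 ≤ A') (hW : ∀ᶠ n : ℕ in atTop, W n ^ (2 * A') ≤ n) :
    ∀ᶠ X : ℕ in atTop, Real.log ((W (2 * X) : ℝ) + 2) ≤ 2 * Real.log (X : ℝ) := by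
  have h2 : Tendsto (fun X : ℕ => 2 * X) atTop atTop := tendsto_id.const_mul_atTop' (by omega)
  filter_upwards [h2.eventually (lt_of_pow hA' hW), eventually_ge_atTop 3] with X h3 h4
  have h5 : W (2 * X) + 2 ≤ X ^ 2 := by nlinarith
  have h6 : (W (2 * X) : ℝ) + 2 ≤ (X : ℝ) ^ 2 := by exact_mod_cast h5
  have h7 := Real.log_le_log (by positivity) h6
  rw [Real.log_pow] at h7
  exact_mod_cast h7

theorem low_one (hPPD : SpecPPD) (hPLD : SpecPLD) {A' z0 : ℕ} (hA' : 1 ≤ A')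
    (hmono : Monotone W) (hW : ∀ᶠ n : ℕ in atTop, W n ^ (2 * A') ≤ n)
    (hA : ∀ m n, MeasurableSet (A m n))
    (hI : iIndepSet (fun q : ℕ × ℕ => A q.1 q.2) μ)
    (hP : ∀ m n, W n < m → m < n → μ.real (A m n) = 1 / m) (H : Finset ℕ) {c1 : ℝ}
    (hc1 : 0 < c1)
    (hS : ∀ z x : ℕ, z0 ≤ z → z ^ A' ≤ x →
      c1 * (x / Real.log (z : ℝ) ^ H.card) ≤ ∑ n ∈ Finset.Ioc x (2 * x), chi z H n) :
    ∀ᵐ ω ∂μ, (∃ c : ℝ, 0 < c ∧ ∀ᶠ x : ℕ in atTop,
      c * (x / (Real.log (x : ℝ) * Real.log ((W (2 * x) : ℝ) + 2)) ^ H.card) ≤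
        (constCount (growSet W A ω) H x : ℝ)) ∧
      {n | ∀ h ∈ H, n + h ∈ growSet W A ω}.Infinite := by
  obtain ⟨c, hc, hcl⟩ := low_count hA' hmono hW H hc1 hS
    (fun n => 1 / (2 * Real.log (n : ℝ))) (fun x => 1 / (2 * Real.log ((4 * x : ℕ) : ℝ)))
    half_log_nonneg (fun x => half_log_nonneg _) (by
      filter_upwards [eventually_ge_atTop 2] with x hx m h1 h2
      apply one_div_le_one_div_of_le
      · have : 0 < Real.log (m : ℝ) := log_pos_nat (by omega)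
        positivity
      · apply mul_le_mul_of_nonneg_left _ (by norm_num)
        apply Real.log_le_log
        · exact_mod_cast (by omega : 0 < m)
        · exact_mod_cast h2)
  set L : ℕ → ℝ := fun x => c / 4 ^ H.card *
    (x / (Real.log (x : ℝ) * Real.log ((W (2 * x) : ℝ) + 2)) ^ H.card) with hLd
  have hlw : ∀ x, 0 < Real.log ((W (2 * x) : ℝ) + 2) := fun x =>
    Real.log_pos (by
      have : (0 : ℝ) ≤ W (2 * x) := Nat.cast_nonneg _
      linarith)
  have hLlow : ∀ᶠ X : ℕ in atTop, L X ≤ ∑ n ∈ Finset.range X,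
      ∏ h ∈ H, rho W (n + 1 + h) * (1 / (2 * Real.log ((n + 1 + h : ℕ) : ℝ))) := by
    filter_upwards [hcl, eventually_ge_atTop 4] with X h1 h2
    refine le_trans ?_ h1
    have hX : (4 : ℝ) ≤ X := by exact_mod_cast h2
    have hlX : 0 < Real.log (X : ℝ) := Real.log_pos (by linarith)
    have h3 : 1 / (4 * Real.log (X : ℝ)) ≤ 1 / (2 * Real.log ((4 * (X / 2) : ℕ) : ℝ)) := by
      apply one_div_le_one_div_of_le
      · have : 0 < Real.log ((4 * (X / 2) : ℕ) : ℝ) := log_pos_nat (by omega)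
        positivity
      · have h4 : ((4 * (X / 2) : ℕ) : ℝ) ≤ (X : ℝ) ^ 2 := by
          have : 4 * (X / 2) ≤ X ^ 2 := by
            have : 4 * (X / 2) ≤ 2 * X := by omega
            nlinarith
          exact_mod_cast this
        have h5 : (0 : ℝ) < ((4 * (X / 2) : ℕ) : ℝ) := by
          exact_mod_cast (by omega : 0 < 4 * (X / 2))
        have h6 := Real.log_le_log h5 h4
        rw [Real.log_pow] at h6
        push_cast at h6 ⊢
        linarith
    have h4 := hlw X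
    rw [hLd]
    simp only
    have h5 : c / 4 ^ H.card *
        (X / (Real.log (X : ℝ) * Real.log ((W (2 * X) : ℝ) + 2)) ^ H.card) =
        c * (X * ((1 / (4 * Real.log (X : ℝ))) / Real.log ((W (2 * X) : ℝ) + 2)) ^ H.card) := by
      rw [div_div, div_pow, one_pow, mul_assoc 4, mul_pow 4]
      field_simp
    rw [h5]
    apply mul_le_mul_of_nonneg_left _ hc.le
    apply mul_le_mul_of_nonneg_left _ (by linarith)
    apply pow_le_pow_left₀ (by positivity)
    exact div_le_div_of_nonneg_right h3 h4.le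
  have hLtop : Tendsto L atTop atTop := by
    have h1 : Tendsto (fun x : ℕ => c / 4 ^ H.card * (1 / 2 ^ H.card) *
        ((x : ℝ) / Real.log (x : ℝ) ^ (2 * H.card))) atTop atTop :=
      (div_log_atTop (2 * H.card)).const_mul_atTop (by positivity)
    refine tendsto_atTop_mono' _ ?_ h1
    filter_upwards [log_level hA' hW, eventually_ge_atTop 3] with X h2 h3
    have hX : (3 : ℝ) ≤ X := by exact_mod_cast h3
    have hlX : 0 < Real.log (X : ℝ) := Real.log_pos (by linarith)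
    have h4 := hlw X
    rw [hLd]
    simp only
    rw [mul_assoc]
    apply mul_le_mul_of_nonneg_left _ (by positivity)
    have h5 : 1 / 2 ^ H.card * ((X : ℝ) / Real.log (X : ℝ) ^ (2 * H.card)) =
        X / (Real.log (X : ℝ) * (2 * Real.log (X : ℝ))) ^ H.card := by
      rw [pow_mul, mul_pow, mul_pow, sq, mul_pow]
      field_simp
    rw [h5]
    apply div_le_div_of_nonneg_left (by linarith)
    · positivity
    · apply pow_le_pow_left₀ (by positivity)
      exact mul_le_mul_of_nonneg_left h2 hlX.le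
  have h1 := count_of_low hA hI hP (fun n => 1 / (2 * Real.log (n : ℝ))) 1 half_log_nonneg
    half_log_le_one (dens_low hPPD hPLD hmono (lt_of_pow hA' hW) hA hI hP) H L hLtop hLlow
  filter_upwards [h1] with ω hω
  refine ⟨⟨1 / 2 * (c / 4 ^ H.card), by positivity, ?_⟩, hω.2⟩
  filter_upwards [hω.1] with x hx
  rw [mul_assoc]
  exact hx

theorem low_two (hPLC : SpecPLC) {A' z0 : ℕ} (hA' : 1 ≤ A')
    (hmono : Monotone W) (hW : ∀ᶠ n : ℕ in atTop, W n ^ (2 * A') ≤ n) {t : ℝ} (ht : 0 < t)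
    (hWt : ∀ᶠ n : ℕ in atTop, (n : ℝ) ^ t ≤ W n)
    (hA : ∀ m n, MeasurableSet (A m n))
    (hI : iIndepSet (fun q : ℕ × ℕ => A q.1 q.2) μ)
    (hP : ∀ m n, W n < m → m < n → μ.real (A m n) = 1 / m) (H : Finset ℕ) {c1 : ℝ}
    (hc1 : 0 < c1)
    (hS : ∀ z x : ℕ, z0 ≤ z → z ^ A' ≤ x →
      c1 * (x / Real.log (z : ℝ) ^ H.card) ≤ ∑ n ∈ Finset.Ioc x (2 * x), chi z H n) :
    ∀ᵐ ω ∂μ, ∃ c : ℝ, 0 < c ∧ ∀ᶠ x : ℕ in atTop,
      c * (x / Real.log (x : ℝ) ^ H.card) ≤ (constCount (growSet W A ω) H x : ℝ) := by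
  obtain ⟨c0, hc0, hc0'⟩ := hPLC t ht
  have hlt := lt_of_pow hA' hW
  obtain ⟨c, hc, hcl⟩ := low_count hA' hmono hW H hc1 hS
    (fun _ => c0) (fun _ => c0) (fun _ => hc0.le) (fun _ => hc0.le)
    (Eventually.of_forall (fun x m _ _ => le_rfl))
  set L : ℕ → ℝ := fun x => c * (c0 / 2) ^ H.card * (x / Real.log (x : ℝ) ^ H.card) with hLd
  have hlw : ∀ x, 0 < Real.log ((W (2 * x) : ℝ) + 2) := fun x =>
    Real.log_pos (by
      have : (0 : ℝ) ≤ W (2 * x) := Nat.cast_nonneg _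
      linarith)
  have hLlow : ∀ᶠ X : ℕ in atTop, L X ≤ ∑ n ∈ Finset.range X,
      ∏ h ∈ H, rho W (n + 1 + h) * c0 := by
    filter_upwards [hcl, log_level hA' hW, eventually_ge_atTop 4] with X h1 h2 h3
    refine le_trans ?_ h1
    have hX : (4 : ℝ) ≤ X := by exact_mod_cast h3
    have hlX : 0 < Real.log (X : ℝ) := Real.log_pos (by linarith)
    have h4 := hlw X
    rw [hLd]
    simp only
    have h5 : c * (c0 / 2) ^ H.card * (X / Real.log (X : ℝ) ^ H.card) =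
        c * (X * (c0 / (2 * Real.log (X : ℝ))) ^ H.card) := by
      rw [div_pow, div_pow, mul_pow]
      field_simp
    rw [h5]
    apply mul_le_mul_of_nonneg_left _ hc.le
    apply mul_le_mul_of_nonneg_left _ (by linarith)
    apply pow_le_pow_left₀ (by positivity)
    exact div_le_div_of_nonneg_left hc0.le h4 h2
  have hLtop : Tendsto L atTop atTop :=
    (div_log_atTop H.card).const_mul_atTop (by positivity)
  have hd : ∀ᵐ ω ∂μ, ∀ᶠ n : ℕ in atTop, rho W n * c0 ≤ dW W A n ω := by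
    refine ae_of_all _ (fun ω => dens_low2 ?_ hlt)
    apply hc0' W _ (ebase W A ω) (estep W A ω)
    filter_upwards [hWt, hlt] with n h1 h2
    exact ⟨h1, by omega⟩
  have h1 := count_of_low hA hI hP (fun _ => c0) c0 (fun _ => hc0.le) (fun _ => le_rfl) hd H L
    hLtop hLlow
  filter_upwards [h1] with ω hω
  refine ⟨1 / 2 * (c * (c0 / 2) ^ H.card), by positivity, ?_⟩
  filter_upwards [hω.1] with x hx
  rw [mul_assoc]
  exact hx

/-- kept numbers are rough -/
theorem count_le (H : Finset ℕ) (ω : Ω) (x : ℕ) :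
    (constCount (growSet W A ω) H x : ℝ) ≤
      ∑ n ∈ Finset.range x, ∏ h ∈ H, rho W (n + 1 + h) := by
  rw [constCount_eq]
  apply Finset.sum_le_sum
  intro n _
  apply Finset.prod_le_prod
  · intro h _
    exact Dens.ind_nonneg _ ω
  · intro h _
    exact ind_le_rho _ ω

/-- **Theorem.** Levels up to a power. -/
theorem main (hPLS : SpecPLS) (hPPD : SpecPPD) (hPLD : SpecPLD) (hPLC : SpecPLC) (k : ℕ) :
    ∃ θ : ℝ, 0 < θ ∧ ∀ W : ℕ → ℕ, Monotone W → (∀ᶠ n : ℕ in atTop, (W n : ℝ) ≤ (n : ℝ) ^ θ) →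
      ∀ (Ω : Type*) [MeasurableSpace Ω] (μ : Measure Ω) [IsProbabilityMeasure μ]
      (A : ℕ → ℕ → Set Ω), (∀ m n, MeasurableSet (A m n)) →
      iIndepSet (fun q : ℕ × ℕ => A q.1 q.2) μ →
      (∀ m n, W n < m → m < n → μ.real (A m n) = 1 / m) →
      (∀ᵐ ω ∂μ, ∀ H : Finset ℕ, H.card ≤ k → (∀ p, p.Prime → nu H p < p) →
        (∃ c : ℝ, 0 < c ∧ ∀ᶠ x : ℕ in atTop,
          c * (x / (Real.log (x : ℝ) * Real.log ((W (2 * x) : ℝ) + 2)) ^ H.card) ≤
            (constCount (growSet W A ω) H x : ℝ)) ∧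
        {n | ∀ h ∈ H, n + h ∈ growSet W A ω}.Infinite) ∧
      (∀ t : ℝ, 0 < t → (∀ᶠ n : ℕ in atTop, (n : ℝ) ^ t ≤ W n) →
        ∀ᵐ ω ∂μ, ∀ H : Finset ℕ, H.card ≤ k → (∀ p, p.Prime → nu H p < p) →
        ∃ c C : ℝ, 0 < c ∧ ∀ᶠ x : ℕ in atTop,
          c * (x / Real.log (x : ℝ) ^ H.card) ≤ (constCount (growSet W A ω) H x : ℝ) ∧
          (constCount (growSet W A ω) H x : ℝ) ≤ C * (x / Real.log (x : ℝ) ^ H.card)) := by
  obtain ⟨A', hA', hS⟩ := hPLS k
  refine ⟨((2 * A' : ℕ) : ℝ)⁻¹, ?_, ?_⟩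
  · have : (0 : ℝ) < ((2 * A' : ℕ) : ℝ) := by exact_mod_cast (by omega : 0 < 2 * A')
    positivity
  intro W hmono hW0 Ω m0 μ hμ A hA hI hP
  have hW := pow_of_rpow hA' hW0
  constructor
  · rw [ae_all_iff]
    intro H
    by_cases h : H.card ≤ k ∧ ∀ p, p.Prime → nu H p < p
    · obtain ⟨c1, c2, hc1, hc2, z0, hz0⟩ := hS H h.1 h.2
      filter_upwards [low_one hPPD hPLD hA' hmono hW hA hI hP H hc1
        (fun z x h1 h2 => (hz0 z x h1 h2).1)] with ω hω _ _
      exact hω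
    · exact ae_of_all _ (fun ω h1 h2 => absurd ⟨h1, h2⟩ h)
  · intro t ht hWt
    rw [ae_all_iff]
    intro H
    by_cases h : H.card ≤ k ∧ ∀ p, p.Prime → nu H p < p
    · obtain ⟨c1, c2, hc1, hc2, z0, hz0⟩ := hS H h.1 h.2
      obtain ⟨C, hC, hup⟩ := up_count hA' hmono hW ht hWt H hc2
        (fun z x h1 h2 => (hz0 z x h1 h2).2)
      filter_upwards [low_two hPLC hA' hmono hW ht hWt hA hI hP H hc1
        (fun z x h1 h2 => (hz0 z x h1 h2).1)] with ω hω _ _
      obtain ⟨c, hc, hlow⟩ := hω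
      refine ⟨c, C, hc, ?_⟩
      filter_upwards [hlow, hup] with x h1 h2
      exact ⟨h1, (count_le H ω x).trans h2⟩
    · exact ae_of_all _ (fun ω h1 h2 => absurd ⟨h1, h2⟩ h)

end POWM

end Pool.Agent.Lib.MP_3efbeb_nt.GU
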