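import Pool.Agent.Lib.MP_3efbeb_nt.GU.PSE

/-! # MP_3efbeb_nt, GU, module QDE (helper67): the data of the recursion -/

set_option autoImplicit false

open Filter Topology Asymptotics

namespace Pool.Agent.Lib.MP_3efbeb_nt.GU

open Pool.Agent.Lib.MP_926cc3_nt.RS Pool.Agent.Lib.MP_3efbeb_nt.RST
  Pool.Agent.Lib.MP_3efbeb_nt.GL

theorem specQDE (hTAM : SpecTAM) (hLMT : SpecLMT) (hUAT : SpecUAT) (hEMU : SpecEMU)
    (hPSE : SpecPSE) : SpecQDE := by
  intro W b C hR E h hS hE
  have hW := hTAM W b C hR
  obtain ⟨hSS, -, hPS⟩ := hPSE W hW E h hS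
  have hES : E ~[atTop] SS W E := hE.trans hPS
  have hSpos : ∀ᶠ n in atTop, 0 < SS W E n := hSS.eventually_gt_atTop 0
  have hratio : Tendsto (fun n => E n / SS W E n) atTop (𝓝 1) :=
    (isEquivalent_iff_tendsto_one (hSpos.mono (fun n hn => hn.ne'))).1 hES
  refine ⟨hES, ?_⟩
  refine
    { reg := hR
      lt := PSEM.lt_self hW
      kpos := fun n => h.kap_pos n
      Sdef := fun n => rfl
      lim := ?_
      kle := ?_
      mul := ?_
      klog := ?_ }
  · obtain ⟨c, hc, hlim⟩ := hLMT
    refine ⟨c, hc, ?_⟩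
    have h1 := (hlim.comp hW.top).mul (hratio.comp hW.top)
    rw [mul_one] at h1
    refine h1.congr (fun n => ?_)
    simp only [Function.comp_apply]
    unfold kap
    ring
  · filter_upwards [hratio.eventually_le_const (show (1 : ℝ) < 2 by norm_num), hSpos,
      PSEM.lt_self hW] with n h1 h2 h3
    rw [div_le_iff₀ h2] at h1
    refine le_trans ?_ h1
    unfold kap
    have h4 := Path.theta_le_one (W n)
    have h5 := h.mono h3.le
    have h6 := h.pos (W n)
    nlinarith
  · intro c hc
    have hctop : Tendsto (fun v : ℕ => c * v) atTop atTop :=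
      tendsto_id.const_mul_atTop' (by omega)
    have h1 := hEMU W hW E h hS c hc
    have h2 := ((hratio.comp hctop).inv₀ one_ne_zero).mul (h1.mul hratio)
    rw [inv_one, one_mul, one_mul] at h2
    refine h2.congr' ?_
    filter_upwards [hSpos, hctop.eventually hSpos] with v h3 h4
    simp only [Function.comp_apply]
    have h5 := (h.pos (c * v)).ne'
    have h6 := (h.pos v).ne'
    field_simp
  · refine tendsto_atTop_mono (fun n => ?_) (hUAT W hW)
    unfold kap
    have h4 : 0 ≤ Path.theta (W n) * Real.log n :=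
      mul_nonneg (Path.theta_pos _).le (Real.log_natCast_nonneg n)
    have h5 := h.one_le (W n)
    nlinarith

end Pool.Agent.Lib.MP_3efbeb_nt.GU
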