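import Pool.Agent.Lib.MP_3efbeb_nt.GU.Spec
import Pool.Agent.Lib.MP_926cc3_nt.RS.Gra

/-!
# MP_3efbeb_nt, MP_926cc3_nt: module RAV (averages over the rough numbers)
-/

set_option autoImplicit false

open Filter Topology Asymptotics

namespace Pool.Agent.Lib.MP_3efbeb_nt.GU

open Pool.Agent.Lib.MP_926cc3_nt.RS Pool.Agent.Lib.MP_3efbeb_nt.RST
  Pool.Agent.Lib.MP_3efbeb_nt.GL

namespace RAVM

/-- the level -/
def lw (W : ℕ → ℕ) (n : ℕ) : ℕ := max 2 (W n + 1)

variable {W : ℕ → ℕ}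

theorem two_le_lw (n : ℕ) : 2 ≤ lw W n := le_max_left _ _

theorem lw_mono (hW : Monotone W) : Monotone (lw W) := by
  intro a b hab
  unfold lw
  exact max_le_max le_rfl (Nat.add_le_add_right (hW hab) 1)

theorem V_lw (W : ℕ → ℕ) (n : ℕ) : V (lw W n) = Path.theta (W n) := by
  unfold lw
  rcases Nat.eq_zero_or_pos (W n) with h | h
  · rw [h, theta_zero]
    unfold V
    apply Finset.prod_eq_one
    intro p hp
    rw [Finset.mem_filter, Finset.mem_range] at hp
    have := hp.2.two_le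
    have h2 := hp.1
    simp at h2
    omega
  · rw [max_eq_right (by omega), theta_eq]
    rfl

theorem noSmall_iff {n : ℕ} : NoSmall (lw W n) n ↔ (primorial (W n)).Coprime n := by
  unfold NoSmall lw
  rw [primorial, Nat.coprime_prod_left_iff]
  constructor
  · intro h p hp
    rw [Finset.mem_filter, Finset.mem_range] at hp
    rw [hp.2.coprime_iff_not_dvd]
    intro hd
    have := h p hp.2 hd
    have h3 := (le_max_right _ _).trans this
    omega
  · intro h p hp hd
    by_contra hlt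
    push Not at hlt
    have h2 := hp.two_le
    have h3 : p ≤ W n := by
      rcases lt_max_iff.1 hlt with h4 | h4
      · omega
      · omega
    have h4 := h p (by rw [Finset.mem_filter, Finset.mem_range]; exact ⟨by omega, hp⟩)
    rw [hp.coprime_iff_not_dvd] at h4
    exact h4 hd

theorem rho_r {n : ℕ} (h2 : 2 ≤ n) (hn : W n < n) : rho W n = Gra.r (lw W n) n := by
  rw [rho_eq h2 hn]
  unfold cop Gra.r
  simp only [noSmall_iff]

theorem lt_self (hW : Tame W) : ∀ᶠ n : ℕ in atTop, W n < n := by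
  have h1 := hW.pow 1 1 one_pos
  filter_upwards [h1, eventually_ge_atTop 2] with n hn h2
  rw [pow_one, one_mul] at hn
  have h3 : W n ≤ W (2 * n) := hW.mono (by omega)
  have h4 : (W n : ℝ) ≤ W (2 * n) := by exact_mod_cast h3
  have h5 : Real.sqrt n < n := by
    rw [Real.sqrt_lt' (by positivity)]
    have : (1 : ℝ) < n := by exact_mod_cast h2
    nlinarith
  have h6 : (W n : ℝ) < n := by linarith
  exact_mod_cast h6

theorem choose_b {C η : ℝ} (_hC : 0 < C) (hη : 0 < η) :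
    ∃ b : ℕ, C * Real.exp (-(b : ℝ)) ≤ η := by
  have h1 : Tendsto (fun b : ℕ => C * Real.exp (-(b : ℝ))) atTop (𝓝 (C * 0)) := by
    apply Tendsto.const_mul
    exact Real.tendsto_exp_neg_atTop_nhds_zero.comp tendsto_natCast_atTop_atTop
  rw [mul_zero] at h1
  obtain ⟨b, hb⟩ := (h1.eventually_lt_const hη).exists
  exact ⟨b, hb.le⟩

theorem shift (f : ℕ → ℝ) (a n : ℕ) :
    ∑ i ∈ Finset.Ico a n, f (i + 1) = ∑ j ∈ Finset.Ioc a n, f j := by
  rw [Finset.sum_Ico_add' f a n 1]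
  apply Finset.sum_congr _ (fun _ _ => rfl)
  ext j
  rw [Finset.mem_Ico, Finset.mem_Ioc]
  omega

theorem div_lower {n M : ℕ} (hM : 2 ≤ M) (hn : 2 * M ≤ n) :
    (n : ℝ) / (2 * M) ≤ ((n / M : ℕ) : ℝ) := by
  have hM' : (0 : ℝ) < M := by exact_mod_cast (by omega : 0 < M)
  rw [div_le_iff₀ (by positivity)]
  have h1 : n < n / M * M + M := Nat.lt_div_mul_add (by omega)
  have h2 : M ≤ n / M * M := by
    have h3 : 1 ≤ n / M := (Nat.one_le_div_iff (by omega)).2 (by omega)
    calc M = 1 * M := (one_mul M).symm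
      _ ≤ n / M * M := Nat.mul_le_mul_right M h3
  have h3 : n ≤ n / M * (2 * M) := by
    have : n / M * (2 * M) = n / M * M + n / M * M := by ring
    omega
  exact_mod_cast h3

/-- the error term of the fundamental lemma is negligible -/
theorem small_error (hW : Tame W) {M : ℕ} (hM : 2 ≤ M) (K η : ℝ) (hK : 0 < K) (hη : 0 < η)
    (A : ℕ) : ∀ᶠ n : ℕ in atTop, K * ((W n : ℝ) + 2) ^ A ≤ η * ((n / M : ℕ) : ℝ) := by
  have hM' : (0 : ℝ) < M := by exact_mod_cast (by omega : 0 < M)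
  have hε : 0 < η / (K * 3 ^ A * (2 * M)) := by positivity
  filter_upwards [hW.pow A _ hε, hW.top.eventually_ge_atTop 1, eventually_ge_atTop (2 * M)]
    with n h1 h2 h3
  have h4 := div_lower hM h3
  have hn1 : (1 : ℝ) ≤ n := by exact_mod_cast (by omega : 1 ≤ n)
  have h5 : (W n : ℝ) ≤ W (2 * n) := by exact_mod_cast hW.mono (by omega : n ≤ 2 * n)
  have h6 : (1 : ℝ) ≤ W n := by exact_mod_cast h2
  have h7 : ((W n : ℝ) + 2) ^ A ≤ 3 ^ A * (W (2 * n) : ℝ) ^ A := by
    rw [← mul_pow]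
    apply pow_le_pow_left₀ (by linarith)
    linarith
  have h8 : Real.sqrt n ≤ n := by
    rw [Real.sqrt_le_left (by linarith)]
    nlinarith
  calc K * ((W n : ℝ) + 2) ^ A ≤ K * (3 ^ A * (W (2 * n) : ℝ) ^ A) := by gcongr
    _ ≤ K * (3 ^ A * (η / (K * 3 ^ A * (2 * M)) * Real.sqrt n)) := by gcongr
    _ ≤ K * (3 ^ A * (η / (K * 3 ^ A * (2 * M)) * n)) := by gcongr
    _ = η * ((n : ℝ) / (2 * M)) := by field_simp
    _ ≤ η * ((n / M : ℕ) : ℝ) := by gcongr

end RAVM

open RAVM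

theorem specRAV : SpecRAV := by
  intro W hW M hM η hη
  obtain ⟨C, hC, hint⟩ := Gra.interval
  obtain ⟨b, hb⟩ := choose_b hC (half_pos hη)
  obtain ⟨J, hJ⟩ := eventually_atTop.1 (lt_self hW)
  have herr := small_error hW hM (2 * C) (η / 2) (by positivity) (by positivity) (8 * b + 19)
  filter_upwards [herr, eventually_ge_atTop (2 * J + 4)] with n h1 h2
  have ha : n / M ≤ n / 2 := Nat.div_le_div_left hM (by norm_num)
  rw [shift (fun j => rho W j / Path.theta (W j) - 1)]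
  have e1 : ∑ j ∈ Finset.Ioc (n - n / M) n, (rho W j / Path.theta (W j) - 1) =
      ∑ j ∈ Finset.Ioc (n - n / M) n, (Gra.r (lw W j) j / V (lw W j) - 1) := by
    apply Finset.sum_congr rfl
    intro j hj
    rw [Finset.mem_Ioc] at hj
    have hj2 : 2 ≤ j := by omega
    have hjJ : J ≤ j := by omega
    rw [rho_r hj2 (hJ j hjJ), V_lw]
  rw [e1]
  have h3 := Gra.window hC hint (lw W) (lw_mono hW.mono) two_le_lw b (n - n / M) n (Nat.sub_le _ _)
  refine h3.trans ?_
  have h4 : (n : ℝ) - ((n - n / M : ℕ) : ℝ) = ((n / M : ℕ) : ℝ) := by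
    rw [Nat.cast_sub (by omega)]
    ring
  rw [h4]
  have h5 : (lw W n : ℝ) ≤ (W n : ℝ) + 2 := by
    have : lw W n ≤ W n + 2 := by
      unfold lw
      omega
    exact_mod_cast this
  have h6 : 2 * C * (lw W n : ℝ) ^ (8 * b + 19) ≤ 2 * C * ((W n : ℝ) + 2) ^ (8 * b + 19) := by
    gcongr
  have h7 : C * Real.exp (-(b : ℝ)) * ((n / M : ℕ) : ℝ) ≤ η / 2 * ((n / M : ℕ) : ℝ) := by
    gcongr
  linarith

end Pool.Agent.Lib.MP_3efbeb_nt.GU
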