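import Pool.Agent.Lib.MP_3efbeb_nt.GU.Spec

/-!
# MP_3efbeb_nt / MP_926cc3_nt (GU): module SMA, telescoping lower bound
-/

set_option autoImplicit false

open Filter Topology Asymptotics

namespace Pool.Agent.Lib.MP_3efbeb_nt.GU

namespace SMAM

/-- the tangent inequality for `t ^ (1 + s)` -/
theorem tangent (s : ℝ) (hs : 0 ≤ s) (x y : ℝ) (hx : 0 ≤ x) (hy : 0 < y) :
    y ^ (1 + s) - x ^ (1 + s) ≤ (1 + s) * y ^ s * (y - x) := by
  have h1 : 1 + (1 + s) * (x / y - 1) ≤ (1 + (x / y - 1)) ^ (1 + s) := by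
    apply one_add_mul_self_le_rpow_one_add
    · have : 0 ≤ x / y := div_nonneg hx hy.le
      linarith
    · linarith
  have h2 : (1 + (x / y - 1)) = x / y := by ring
  rw [h2, Real.div_rpow hx hy.le] at h1
  have hyp : 0 < y ^ (1 + s) := Real.rpow_pos_of_pos hy _
  rw [le_div_iff₀ hyp] at h1
  have h3 : y ^ (1 + s) = y * y ^ s := by
    rw [Real.rpow_add hy, Real.rpow_one]
  have h4 : (1 + (1 + s) * (x / y - 1)) * y ^ (1 + s)
      = y ^ (1 + s) + (1 + s) * y ^ s * (x - y) := by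
    rw [h3]
    field_simp
  rw [h4] at h1
  nlinarith [h1]

/-- `log (i + 1) - log i ≤ 1 / i` -/
theorem log_step (i : ℕ) (hi : 1 ≤ i) :
    Real.log ((i + 1 : ℕ) : ℝ) - Real.log (i : ℝ) ≤ 1 / i := by
  have hi0 : (0 : ℝ) < i := by exact_mod_cast hi
  have h1 : Real.log ((i + 1 : ℕ) : ℝ) - Real.log (i : ℝ) = Real.log (((i + 1 : ℕ) : ℝ) / i) := by
    rw [Real.log_div (by positivity) hi0.ne']
  rw [h1]
  have h2 : Real.log (((i + 1 : ℕ) : ℝ) / i) ≤ ((i + 1 : ℕ) : ℝ) / i - 1 :=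
    Real.log_le_sub_one_of_pos (by positivity)
  have h3 : ((i + 1 : ℕ) : ℝ) / i - 1 = 1 / i := by
    push_cast
    field_simp
    ring
  linarith

end SMAM

theorem specSMA : SpecSMA := by
  intro s hs M n hM hMn
  induction n, hMn using Nat.le_induction with
  | base => simp
  | succ n hn ih =>
    rw [Finset.sum_Ico_succ_top hn]
    have hn1 : 1 ≤ n := hM.trans hn
    have hx : 0 ≤ Real.log (n : ℝ) := Real.log_nonneg (by exact_mod_cast hn1)
    have hy : 0 < Real.log ((n + 1 : ℕ) : ℝ) := Real.log_pos (by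
      have : (1 : ℝ) ≤ n := by exact_mod_cast hn1
      push_cast
      linarith)
    have h1 := SMAM.tangent s hs _ _ hx hy
    have h2 := SMAM.log_step n hn1
    have h3 : (1 + s) * Real.log ((n + 1 : ℕ) : ℝ) ^ s *
        (Real.log ((n + 1 : ℕ) : ℝ) - Real.log (n : ℝ)) ≤
        (1 + s) * Real.log ((n + 1 : ℕ) : ℝ) ^ s * (1 / n) := by
      apply mul_le_mul_of_nonneg_left h2
      have := Real.rpow_nonneg hy.le s
      positivity
    have hs1 : (0 : ℝ) < 1 + s := by linarith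
    have h4 : (Real.log ((n + 1 : ℕ) : ℝ) ^ (1 + s) - Real.log (M : ℝ) ^ (1 + s)) / (1 + s)
        = (Real.log (n : ℝ) ^ (1 + s) - Real.log (M : ℝ) ^ (1 + s)) / (1 + s)
        + (Real.log ((n + 1 : ℕ) : ℝ) ^ (1 + s) - Real.log (n : ℝ) ^ (1 + s)) / (1 + s) := by
      ring
    rw [h4]
    have h5 : (Real.log ((n + 1 : ℕ) : ℝ) ^ (1 + s) - Real.log (n : ℝ) ^ (1 + s)) / (1 + s) ≤
        Real.log ((n + 1 : ℕ) : ℝ) ^ s / n := by
      rw [div_le_iff₀ hs1]
      calc _ ≤ _ := h1.trans h3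
        _ = _ := by ring
    linarith

end Pool.Agent.Lib.MP_3efbeb_nt.GU
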