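import Pool.Agent.Lib.MP_3efbeb_nt.GU.Spec

/-!
# GU: SMB, an upper bound for sums of negative powers of the logarithm
-/

set_option autoImplicit false

open Filter Topology Asymptotics

namespace Pool.Agent.Lib.MP_3efbeb_nt.GU

namespace SMBM

/-- `(1-s) y^(-s) (y-x) ≤ y^(1-s) - x^(1-s)` -/
theorem pow_diff {s x y : ℝ} (hs : 0 ≤ s) (hs1 : s < 1) (hx : 0 ≤ x) (hy : 0 < y) :
    (1 - s) * y ^ (-s) * (y - x) ≤ y ^ (1 - s) - x ^ (1 - s) := by
  have h1 : (1 + (x / y - 1)) ^ (1 - s) ≤ 1 + (1 - s) * (x / y - 1) := by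
    apply rpow_one_add_le_one_add_mul_self
    · have : 0 ≤ x / y := by positivity
      linarith
    · linarith
    · linarith
  have h2 : 1 + (x / y - 1) = x / y := by ring
  rw [h2, Real.div_rpow hx hy.le] at h1
  have h3 : 0 < y ^ (1 - s) := Real.rpow_pos_of_pos hy _
  have h4 : y ^ (1 - s) = y * y ^ (-s) := by
    rw [sub_eq_add_neg, Real.rpow_add hy, Real.rpow_one]
  rw [div_le_iff₀ h3] at h1
  have h5 : (1 + (1 - s) * (x / y - 1)) * y ^ (1 - s) =
      y ^ (1 - s) - (1 - s) * y ^ (-s) * (y - x) := by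
    rw [h4]; field_simp; ring
  rw [h5] at h1
  linarith

theorem log_step {i : ℕ} (hi : 1 ≤ i) :
    1 / ((i : ℝ) + 1) ≤ Real.log ((i + 1 : ℕ) : ℝ) - Real.log (i : ℝ) := by
  have hi0 : (0 : ℝ) < i := by exact_mod_cast (by omega : 0 < i)
  push_cast
  rw [← Real.log_div (by linarith) (by linarith)]
  have := Real.one_sub_inv_le_log_of_pos (show 0 < ((i : ℝ) + 1) / i by positivity)
  refine le_trans (le_of_eq ?_) this
  field_simp
  ring

end SMBM

open SMBM in
theorem specSMB : SpecSMB := by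
  intro s hs hs1 M n hM hn
  have h1s : 0 < 1 - s := by linarith
  have hM0 : (0 : ℝ) < M := by exact_mod_cast (by omega : 0 < M)
  rw [le_div_iff₀ h1s]
  induction n, hn using Nat.le_induction with
  | base =>
    rw [Finset.Ico_self, Finset.sum_empty, zero_mul]
    have : 0 ≤ Real.log (M : ℝ) := Real.log_natCast_nonneg M
    positivity
  | succ n hn ih =>
    rw [Finset.sum_Ico_succ_top hn, add_mul]
    have hn0 : (0 : ℝ) < n := by exact_mod_cast (by omega : 0 < n)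
    have hMn : (M : ℝ) ≤ n := by exact_mod_cast hn
    have hl0 : 0 ≤ Real.log (n : ℝ) := Real.log_natCast_nonneg n
    have hl1 : 0 < Real.log ((n + 1 : ℕ) : ℝ) :=
      Real.log_pos (by exact_mod_cast (by omega : 1 < n + 1))
    have h1 := pow_diff hs hs1 hl0 hl1
    have h2 := log_step (i := n) (by omega)
    set Y := Real.log ((n + 1 : ℕ) : ℝ) with hY
    have hYs : 0 < Y ^ (-s) := Real.rpow_pos_of_pos hl1 _
    have h3 : 0 ≤ (1 - s) * Y ^ (-s) := by positivity
    have h4 := mul_le_mul_of_nonneg_left h2 h3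
    have h5 : (1 - s) * Y ^ (-s) * (1 / ((n : ℝ) + 1)) ≤ Y ^ (1 - s) - Real.log (n : ℝ) ^ (1 - s) :=
      h4.trans h1
    have h6 : (0 : ℝ) ≤ (1 - s) * Y ^ (-s) * (1 / ((n : ℝ) + 1)) := by positivity
    have h7 : 1 + 1 / (n : ℝ) ≤ 1 + 1 / (M : ℝ) := by
      have := one_div_le_one_div_of_le hM0 hMn
      linarith
    have h8 : Y ^ (-s) / (n : ℝ) * (1 - s) =
        (1 + 1 / (n : ℝ)) * ((1 - s) * Y ^ (-s) * (1 / ((n : ℝ) + 1))) := by
      field_simp
    have h9 : (1 + 1 / (n : ℝ)) * ((1 - s) * Y ^ (-s) * (1 / ((n : ℝ) + 1))) ≤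
        (1 + 1 / (M : ℝ)) * (Y ^ (1 - s) - Real.log (n : ℝ) ^ (1 - s)) :=
      mul_le_mul h7 h5 h6 (by positivity)
    rw [h8]
    linarith

end Pool.Agent.Lib.MP_3efbeb_nt.GU
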