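import Pool.Agent.Lib.MP_3efbeb_nt.GU.Spec

/-!
# GU: STL, one step of the recursion, lower bound
-/

set_option autoImplicit false

open Filter Topology Asymptotics

namespace Pool.Agent.Lib.MP_3efbeb_nt.GU

open Pool.Agent.Lib.MP_926cc3_nt.RS Pool.Agent.Lib.MP_3efbeb_nt.RST
  Pool.Agent.Lib.MP_3efbeb_nt.GL

namespace STLM

variable {W : ℕ → ℕ} {k S : ℕ → ℝ} {b C : ℝ}

theorem S_pos (h : QD W k S b C) {n : ℕ} (hn : 2 ≤ n) : 0 < S n := by
  rw [h.Sdef]
  have h1 : k (1 + 1) / ((1 : ℕ) : ℝ) ≤ ∑ i ∈ Finset.range n, k (i + 1) / i :=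
    Finset.single_le_sum (f := fun i : ℕ => k (i + 1) / (i : ℝ))
      (fun i _ => div_nonneg (h.kpos _).le (Nat.cast_nonneg _)) (Finset.mem_range.2 (by omega))
  have h2 := h.kpos (1 + 1)
  have h3 : 0 < k (1 + 1) / ((1 : ℕ) : ℝ) := by simpa using h2
  linarith

theorem log_pos' {n : ℕ} (h : 2 ≤ n) : 0 < Real.log (n : ℝ) :=
  Real.log_pos (by exact_mod_cast (by omega : 1 < n))

/-- comparison of the slopes at `m ≤ n` -/
theorem cmp (h : QD W k S b C) {δ c e lam : ℝ} {m n : ℕ} (hδ : 0 < δ) (hc : 0 < c) (he0 : 0 ≤ e)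
    (he : e ≤ 1) (hmn : m ≤ n) (hWm : 3 ≤ W m) (hlam : 1 ≤ lam)
    (hgrow : (W n : ℝ) ≤ C * (W m : ℝ) ^ lam)
    (hC : Real.log C ≤ (Real.exp δ - 1) * Real.log (W m : ℝ))
    (hm : k m * Real.log (W m : ℝ) / S (W m) ≤ Real.exp δ * c)
    (hn : Real.exp (-δ) * c ≤ k n * Real.log (W n : ℝ) / S (W n))
    (hgr : S (W m) * (Real.log (W n : ℝ) / Real.log (W m : ℝ)) ^ e ≤ S (W n)) :
    k m ≤ Real.exp (3 * δ) * k n * lam ^ (1 - e) := by
  have hWmn : W m ≤ W n := h.reg.mono hmn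
  have hw3 : (3 : ℝ) ≤ W m := by exact_mod_cast hWm
  have hw0 : (0 : ℝ) < W m := by linarith
  have hlm : 0 < Real.log (W m : ℝ) := log_pos' (by omega)
  have hln : 0 < Real.log (W n : ℝ) := log_pos' (by omega)
  have hSn := S_pos h (show 2 ≤ W n by omega)
  have hSm := S_pos h (show 2 ≤ W m by omega)
  have hkn := h.kpos n
  have hC1 := h.reg.C1
  set ρ := Real.log (W n : ℝ) / Real.log (W m : ℝ) with hρ
  have hρ0 : 0 < ρ := div_pos hln hlm
  have e1 : 1 < Real.exp δ := Real.one_lt_exp_iff.2 hδ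
  have hρl : ρ ≤ Real.exp δ * lam := by
    rw [hρ, div_le_iff₀ hlm]
    have h1 : Real.log (W n : ℝ) ≤ Real.log (C * (W m : ℝ) ^ lam) :=
      Real.log_le_log (by exact_mod_cast (by omega : 0 < W n)) hgrow
    rw [Real.log_mul (by linarith) (Real.rpow_pos_of_pos hw0 _).ne', Real.log_rpow hw0] at h1
    have h2 : (Real.exp δ - 1) * Real.log (W m : ℝ) ≤
        (Real.exp δ - 1) * lam * Real.log (W m : ℝ) := by
      apply mul_le_mul_of_nonneg_right _ hlm.le
      nlinarith
    calc Real.log (W n : ℝ) ≤ Real.log C + lam * Real.log (W m : ℝ) := h1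
      _ ≤ (Real.exp δ - 1) * lam * Real.log (W m : ℝ) + lam * Real.log (W m : ℝ) := by
          linarith
      _ = Real.exp δ * lam * Real.log (W m : ℝ) := by ring
  -- bounds of the slopes
  have h1 : k m ≤ Real.exp δ * c * S (W m) / Real.log (W m : ℝ) := by
    rw [div_le_iff₀ hSm] at hm
    rw [le_div_iff₀ hlm]
    exact hm
  have h2 : c * S (W n) ≤ Real.exp δ * k n * Real.log (W n : ℝ) := by
    rw [le_div_iff₀ hSn] at hn
    have h3 : Real.exp δ * (Real.exp (-δ) * c * S (W n)) ≤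
        Real.exp δ * (k n * Real.log (W n : ℝ)) := mul_le_mul_of_nonneg_left hn (Real.exp_pos _).le
    have h4 : Real.exp δ * Real.exp (-δ) = 1 := by rw [← Real.exp_add]; simp
    have h5 : Real.exp δ * (Real.exp (-δ) * c * S (W n)) =
        (Real.exp δ * Real.exp (-δ)) * (c * S (W n)) := by ring
    rw [h5, h4, one_mul] at h3
    linarith
  have hρe : 0 < ρ ^ e := Real.rpow_pos_of_pos hρ0 _
  have h3 : S (W m) ≤ S (W n) / ρ ^ e := by
    rw [le_div_iff₀ hρe]
    exact hgr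
  have h4 : ρ ^ (1 - e) = ρ / ρ ^ e := by rw [Real.rpow_sub hρ0, Real.rpow_one]
  have h6 : ρ ^ (1 - e) ≤ Real.exp δ * lam ^ (1 - e) := by
    calc ρ ^ (1 - e) ≤ (Real.exp δ * lam) ^ (1 - e) :=
          Real.rpow_le_rpow hρ0.le hρl (by linarith)
      _ = Real.exp δ ^ (1 - e) * lam ^ (1 - e) :=
          Real.mul_rpow (Real.exp_pos _).le (by linarith)
      _ ≤ Real.exp δ ^ (1 : ℝ) * lam ^ (1 - e) := by
          apply mul_le_mul_of_nonneg_right _ (Real.rpow_nonneg (by linarith) _)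
          exact Real.rpow_le_rpow_of_exponent_le e1.le (by linarith)
      _ = Real.exp δ * lam ^ (1 - e) := by rw [Real.rpow_one]
  calc k m ≤ Real.exp δ * c * S (W m) / Real.log (W m : ℝ) := h1
    _ ≤ Real.exp δ * c * (S (W n) / ρ ^ e) / Real.log (W m : ℝ) := by
        apply div_le_div_of_nonneg_right _ hlm.le
        exact mul_le_mul_of_nonneg_left h3 (by positivity)
    _ = Real.exp δ * (c * S (W n)) / ρ ^ e / Real.log (W m : ℝ) := by ring
    _ ≤ Real.exp δ * (Real.exp δ * k n * Real.log (W n : ℝ)) / ρ ^ e / Real.log (W m : ℝ) := by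
        apply div_le_div_of_nonneg_right _ hlm.le
        apply div_le_div_of_nonneg_right _ hρe.le
        exact mul_le_mul_of_nonneg_left h2 (Real.exp_pos _).le
    _ = Real.exp δ * Real.exp δ * k n * ρ ^ (1 - e) := by
        rw [h4, hρ]
        field_simp
    _ ≤ Real.exp δ * Real.exp δ * k n * (Real.exp δ * lam ^ (1 - e)) :=
        mul_le_mul_of_nonneg_left h6 (by positivity)
    _ = Real.exp (3 * δ) * k n * lam ^ (1 - e) := by
        have h5 : Real.exp (3 * δ) = Real.exp δ * Real.exp δ * Real.exp δ := by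
          rw [← Real.exp_add, ← Real.exp_add]; congr 1; ring
        rw [h5]
        ring

end STLM

open STLM in
theorem specSTL (hSMB : SpecSMB) (hGRL : SpecGRL) : SpecSTL := by
  intro W k S b C h ε hε hε1 N1
  set δ := ε / 4 with hδe
  have hδ : 0 < δ := by linarith
  obtain ⟨Ng, hNg3, hNg⟩ := hGRL W k S b C h ε hε hε1
  obtain ⟨c, hc, hlim⟩ := h.lim
  have hC := h.reg.C1
  have e1 : 1 < Real.exp δ := Real.one_lt_exp_iff.2 hδ
  have e2 : Real.exp (-δ) < 1 := by rw [Real.exp_lt_one_iff]; linarith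
  have hup := hlim.eventually (gt_mem_nhds (show c < Real.exp δ * c by nlinarith))
  have hlo := hlim.eventually (lt_mem_nhds (show Real.exp (-δ) * c < c by nlinarith))
  have hWlog : ∀ᶠ n : ℕ in atTop, Real.log C ≤ (Real.exp δ - 1) * Real.log (W n : ℝ) := by
    have h1 : Tendsto (fun n : ℕ => Real.log (W n : ℝ)) atTop atTop :=
      Real.tendsto_log_atTop.comp (tendsto_natCast_atTop_atTop.comp h.reg.top)
    filter_upwards [h1.eventually_ge_atTop (Real.log C / (Real.exp δ - 1))] with n hn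
    rw [div_le_iff₀ (by linarith)] at hn
    linarith
  obtain ⟨N0, hN0⟩ := eventually_atTop.1 (((hup.and hlo).and (hWlog.and h.reg.grow)).and
    ((h.reg.top.eventually_ge_atTop 3).and (h.lt.and (eventually_ge_atTop (max N1 (max 3 Ng))))))
  have hinv : ∀ᶠ n : ℕ in atTop, 1 + 1 / (n : ℝ) ≤ Real.exp δ := by
    have h1 : Tendsto (fun n : ℕ => 1 + 1 / (n : ℝ)) atTop (𝓝 (1 + 0)) :=
      tendsto_const_nhds.add tendsto_one_div_atTop_nhds_zero_nat
    rw [add_zero] at h1
    filter_upwards [h1.eventually (gt_mem_nhds e1)] with n hn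
    exact hn.le
  obtain ⟨M, hM⟩ := eventually_atTop.1 (((h.reg.top.eventually_ge_atTop N0).and
    (eventually_ge_atTop N0)).and hinv)
  have hN0' := (hN0 N0 le_rfl).2.2.2
  have hM1 := (hM M le_rfl).1.2
  have hMi := (hM M le_rfl).2
  have hN03 : 3 ≤ N0 := (le_max_left 3 Ng).trans ((le_max_right N1 _).trans hN0')
  have hN0g : Ng ≤ N0 := (le_max_right 3 Ng).trans ((le_max_right N1 _).trans hN0')
  have hN01 : N1 ≤ N0 := (le_max_left N1 _).trans hN0'
  -- the choice of N2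
  obtain ⟨N2, hN2⟩ := eventually_atTop.1 ((h.klog.eventually_ge_atTop (S M / ε)).and
    (eventually_ge_atTop (M + 1)))
  refine ⟨N2, fun a ha ha1 n hn hq => ?_⟩
  obtain ⟨hn1, hn2⟩ := hN2 n hn
  have hb0 := h.reg.b0
  have hb1 := h.reg.b1
  set e := (1 - ε) * a with hee
  have he0 : 0 ≤ e := mul_nonneg (by linarith) ha
  have he1 : e < 1 := by rw [hee]; nlinarith
  set s := b * (1 - e) with hs
  have hs0 : 0 ≤ s := mul_nonneg hb0.le (by linarith)
  have hs1 : s < 1 := by
    rw [hs]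
    have : b * (1 - e) ≤ b * 1 := mul_le_mul_of_nonneg_left (by linarith) hb0.le
    linarith
  have hln : 0 < Real.log (n : ℝ) := log_pos' (by omega)
  -- comparison
  have hcmp : ∀ m, M < m → m ≤ n → k m ≤ Real.exp (3 * δ) * k n *
      (Real.log (n : ℝ) / Real.log (m : ℝ)) ^ s := by
    intro m hMm hmn
    have hmN0 : N0 ≤ m := hM1.trans hMm.le
    obtain ⟨⟨⟨a1, -⟩, ⟨a3, a4⟩⟩, a5, -, -⟩ := hN0 m hmN0
    obtain ⟨⟨⟨-, b2⟩, -⟩, -, b6, -⟩ := hN0 n (hmN0.trans hmn)
    have hlm : 0 < Real.log (m : ℝ) := log_pos' (by omega)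
    have hrat : 1 ≤ Real.log (n : ℝ) / Real.log (m : ℝ) := by
      rw [one_le_div hlm]
      exact Real.log_le_log (by exact_mod_cast (by omega : 0 < m)) (by exact_mod_cast hmn)
    have hWmN : N0 ≤ W m := (hM m (by omega)).1.1
    have hc1 := cmp h (m := m) (n := n) (e := e) hδ hc he0 he1.le hmn a5
      (Real.one_le_rpow hrat hb0.le) (a4 n hmn) a3 a1.le b2.le
      (by
        apply hNg a ha (W m) (W n) (by omega) (h.reg.mono hmn)
        intro l hl1 hl2
        exact hq l (by omega) (by omega))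
    have hr0 : 0 < Real.log (n : ℝ) / Real.log (m : ℝ) := div_pos hln hlm
    have h3 : ((Real.log (n : ℝ) / Real.log (m : ℝ)) ^ b) ^ (1 - e) =
        (Real.log (n : ℝ) / Real.log (m : ℝ)) ^ s := by
      rw [← Real.rpow_mul hr0.le, hs]
    rw [h3] at hc1
    exact hc1
  -- the sum
  have hSn := S_pos h (show 2 ≤ n by omega)
  have hkn := h.kpos n
  have hls : 0 < Real.log (n : ℝ) ^ s := Real.rpow_pos_of_pos hln _
  have hsum : S n ≤ S M + Real.exp (3 * δ) * k n * Real.log (n : ℝ) ^ s *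
      ∑ i ∈ Finset.Ico M n, Real.log ((i + 1 : ℕ) : ℝ) ^ (-s) / i := by
    rw [h.Sdef n, h.Sdef M, ← Finset.sum_range_add_sum_Ico _ (show M ≤ n by omega)]
    apply add_le_add_right
    rw [Finset.mul_sum]
    apply Finset.sum_le_sum
    intro i hi
    rw [Finset.mem_Ico] at hi
    have h3 := hcmp (i + 1) (by omega) (by omega)
    have hi0 : (0 : ℝ) < i := by exact_mod_cast (by omega : 0 < i)
    have hli : 0 < Real.log ((i + 1 : ℕ) : ℝ) := log_pos' (by omega)
    rw [Real.div_rpow hln.le hli.le] at h3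
    rw [← mul_div_assoc]
    apply div_le_div_of_nonneg_right _ hi0.le
    refine le_trans h3 (le_of_eq ?_)
    rw [Real.rpow_neg hli.le]
    ring
  have hB := hSMB s hs0 hs1 M n (by omega) (by omega)
  have hs1' : 0 < 1 - s := by linarith
  have hl1s : Real.log (n : ℝ) ^ s * Real.log (n : ℝ) ^ (1 - s) = Real.log (n : ℝ) := by
    rw [← Real.rpow_add hln]
    have : s + (1 - s) = 1 := by ring
    rw [this, Real.rpow_one]
  have hL0 : 0 < k n * Real.log (n : ℝ) := mul_pos hkn hln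
  have hmain : Real.exp (3 * δ) * k n * Real.log (n : ℝ) ^ s *
      ∑ i ∈ Finset.Ico M n, Real.log ((i + 1 : ℕ) : ℝ) ^ (-s) / i ≤
      Real.exp ε / (1 - s) * (k n * Real.log (n : ℝ)) := by
    calc Real.exp (3 * δ) * k n * Real.log (n : ℝ) ^ s *
        ∑ i ∈ Finset.Ico M n, Real.log ((i + 1 : ℕ) : ℝ) ^ (-s) / i
        ≤ Real.exp (3 * δ) * k n * Real.log (n : ℝ) ^ s *
          ((1 + 1 / (M : ℝ)) * Real.log (n : ℝ) ^ (1 - s) / (1 - s)) :=
          mul_le_mul_of_nonneg_left hB (by positivity)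
      _ ≤ Real.exp (3 * δ) * k n * Real.log (n : ℝ) ^ s *
          (Real.exp δ * Real.log (n : ℝ) ^ (1 - s) / (1 - s)) := by
          apply mul_le_mul_of_nonneg_left _ (by positivity)
          apply div_le_div_of_nonneg_right _ hs1'.le
          exact mul_le_mul_of_nonneg_right hMi (Real.rpow_nonneg hln.le _)
      _ = Real.exp (3 * δ) * Real.exp δ / (1 - s) *
          (k n * (Real.log (n : ℝ) ^ s * Real.log (n : ℝ) ^ (1 - s))) := by ring
      _ = Real.exp ε / (1 - s) * (k n * Real.log (n : ℝ)) := by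
          rw [hl1s, ← Real.exp_add]
          have : 3 * δ + δ = ε := by rw [hδe]; ring
          rw [this]
  have hSM : S M ≤ ε * (k n * Real.log (n : ℝ)) := by
    rw [div_le_iff₀ hε] at hn1
    linarith
  rw [div_le_iff₀ hL0, add_mul]
  linarith

end Pool.Agent.Lib.MP_3efbeb_nt.GU
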