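import Pool.Agent.Lib.MP_3efbeb_nt.GU.Spec

/-!
# GU: STU, one step of the recursion, upper bound
-/

set_option autoImplicit false

open Filter Topology Asymptotics

namespace Pool.Agent.Lib.MP_3efbeb_nt.GU

open Pool.Agent.Lib.MP_926cc3_nt.RS Pool.Agent.Lib.MP_3efbeb_nt.RST
  Pool.Agent.Lib.MP_3efbeb_nt.GL

namespace STUM

variable {W : ℕ → ℕ} {k S : ℕ → ℝ} {b C : ℝ}

theorem S_mono (h : QD W k S b C) : Monotone S := by
  intro m n hmn
  rw [h.Sdef, h.Sdef]
  apply Finset.sum_le_sum_of_subset_of_nonneg (Finset.range_mono hmn)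
  intro i _ _
  exact div_nonneg (h.kpos _).le (Nat.cast_nonneg _)

theorem S_pos (h : QD W k S b C) {n : ℕ} (hn : 2 ≤ n) : 0 < S n := by
  rw [h.Sdef]
  have h1 : k (1 + 1) / ((1 : ℕ) : ℝ) ≤ ∑ i ∈ Finset.range n, k (i + 1) / i :=
    Finset.single_le_sum (f := fun i : ℕ => k (i + 1) / (i : ℝ))
      (fun i _ => div_nonneg (h.kpos _).le (Nat.cast_nonneg _)) (Finset.mem_range.2 (by omega))
  have h2 := h.kpos (1 + 1)
  have h3 : 0 < k (1 + 1) / ((1 : ℕ) : ℝ) := by simpa using h2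
  linarith

theorem log_pos' {n : ℕ} (h : 2 ≤ n) : 0 < Real.log (n : ℝ) :=
  Real.log_pos (by exact_mod_cast (by omega : 1 < n))

/-- comparison of the slopes at `m ≤ n` -/
theorem cmp (h : QD W k S b C) {δ c e : ℝ} {c' N0 m n : ℕ} (hδ : 0 < δ) (hc : 0 < c) (he : 1 ≤ e)
    (hmn : m ≤ n) (hWm : 3 ≤ W m) (hN0 : N0 ≤ W m)
    (hlam : 1 ≤ (Real.log (n : ℝ) / Real.log (m : ℝ)) ^ b)
    (hgrow : (W n : ℝ) ≤ C * (W m : ℝ) ^ ((Real.log (n : ℝ) / Real.log (m : ℝ)) ^ b))
    (hn : k n * Real.log (W n : ℝ) / S (W n) ≤ Real.exp δ * c)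
    (hm : Real.exp (-δ) * c ≤ k m * Real.log (W m : ℝ) / S (W m))
    (hc' : 2 * C ≤ c') (hmul : ∀ v : ℕ, N0 ≤ v → S (c' * v) ≤ Real.exp δ * S v)
    (hgr : ∀ v : ℕ, W m ≤ v → v ≤ W n → S v ≤ S (W m) * (Real.log (v : ℝ) /
      Real.log (W m : ℝ)) ^ e) :
    k n ≤ Real.exp (3 * δ) * k m * ((Real.log (n : ℝ) / Real.log (m : ℝ)) ^ b) ^ (e - 1) := by
  set lam := (Real.log (n : ℝ) / Real.log (m : ℝ)) ^ b with hl
  have hWmn : W m ≤ W n := h.reg.mono hmn
  have hw3 : (3 : ℝ) ≤ W m := by exact_mod_cast hWm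
  have hw0 : (0 : ℝ) < W m := by linarith
  set X : ℝ := (W m : ℝ) ^ lam with hX
  have hX0 : 0 < X := Real.rpow_pos_of_pos hw0 _
  have hwX : (W m : ℝ) ≤ X := Real.self_le_rpow_of_one_le (by linarith) hlam
  have hfl : W m ≤ ⌊X⌋₊ := Nat.le_floor hwX
  obtain ⟨v, hv⟩ : ∃ v, v = min (W n) ⌊X⌋₊ := ⟨_, rfl⟩
  have hv1 : W m ≤ v := by rw [hv]; exact le_min hWmn hfl
  have hv2 : v ≤ W n := by rw [hv]; exact min_le_left _ _
  have hv3 : (v : ℝ) ≤ X := by
    rw [hv]
    exact (Nat.cast_le.2 (min_le_right _ _)).trans (Nat.floor_le hX0.le)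
  have hvS : S (W n) ≤ Real.exp δ * S v := by
    have hmono := S_mono h
    rcases le_total (W n) ⌊X⌋₊ with h1 | h1
    · have h2 : v = W n := by rw [hv]; exact min_eq_left h1
      rw [h2]
      have h3 := S_pos h (show 2 ≤ W n by omega)
      have h4 : 1 ≤ Real.exp δ := Real.one_le_exp hδ.le
      nlinarith
    · have h2 : v = ⌊X⌋₊ := by rw [hv]; exact min_eq_right h1
      have h3 : X < (v : ℝ) + 1 := by rw [h2]; exact Nat.lt_floor_add_one X
      have hC := h.reg.C1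
      have hv0 : (1 : ℝ) ≤ v := by exact_mod_cast (by omega : 1 ≤ v)
      have h4 : W n ≤ c' * v := by
        have h5 : (W n : ℝ) ≤ c' * v := by
          calc (W n : ℝ) ≤ C * X := hgrow
            _ ≤ C * (2 * v) := by
                apply mul_le_mul_of_nonneg_left _ (by linarith)
                linarith
            _ = 2 * C * v := by ring
            _ ≤ c' * v := mul_le_mul_of_nonneg_right hc' (by linarith)
        exact_mod_cast h5
      exact (hmono h4).trans (hmul v (hN0.trans hv1))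
  have hlm : 0 < Real.log (W m : ℝ) := log_pos' (by omega)
  have hlv : 0 < Real.log (v : ℝ) := log_pos' (by omega)
  have hln : 0 < Real.log (W n : ℝ) := log_pos' (by omega)
  have hlvX : Real.log (v : ℝ) ≤ lam * Real.log (W m : ℝ) := by
    have h1 : Real.log (v : ℝ) ≤ Real.log X :=
      Real.log_le_log (by exact_mod_cast (by omega : 0 < v)) hv3
    rwa [hX, Real.log_rpow hw0] at h1
  have hlvn : Real.log (v : ℝ) ≤ Real.log (W n : ℝ) :=
    Real.log_le_log (by exact_mod_cast (by omega : 0 < v)) (by exact_mod_cast hv2)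
  have hSn := S_pos h (show 2 ≤ W n by omega)
  have hSm := S_pos h (show 2 ≤ W m by omega)
  have hSv := S_pos h (show 2 ≤ v by omega)
  have hkm := h.kpos m
  set ρ := Real.log (v : ℝ) / Real.log (W m : ℝ) with hρ
  have hρ0 : 0 < ρ := div_pos hlv hlm
  have hρl : ρ ≤ lam := by rw [hρ, div_le_iff₀ hlm]; exact hlvX
  -- k n
  have h1 : k n ≤ Real.exp δ * c * S (W n) / Real.log (W n : ℝ) := by
    rw [div_le_iff₀ hSn] at hn
    rw [le_div_iff₀ hln]
    exact hn
  have h2 : c * S (W m) ≤ Real.exp δ * k m * Real.log (W m : ℝ) := by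
    rw [le_div_iff₀ hSm] at hm
    have h3 : Real.exp δ * (Real.exp (-δ) * c * S (W m)) ≤
        Real.exp δ * (k m * Real.log (W m : ℝ)) := mul_le_mul_of_nonneg_left hm (Real.exp_pos _).le
    have h4 : Real.exp δ * Real.exp (-δ) = 1 := by rw [← Real.exp_add]; simp
    have h5 : Real.exp δ * (Real.exp (-δ) * c * S (W m)) =
        (Real.exp δ * Real.exp (-δ)) * (c * S (W m)) := by ring
    rw [h5, h4, one_mul] at h3
    linarith
  have h3 : S (W n) / Real.log (W n : ℝ) ≤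
      Real.exp δ * (S (W m) * ρ ^ e) / Real.log (v : ℝ) := by
    apply div_le_div₀ (by positivity) _ hlv hlvn
    exact hvS.trans (mul_le_mul_of_nonneg_left (hgr v hv1 hv2) (Real.exp_pos _).le)
  have h4 : ρ ^ e / Real.log (v : ℝ) = ρ ^ (e - 1) / Real.log (W m : ℝ) := by
    have h5 : ρ ^ e = ρ ^ (e - 1) * ρ := by
      have h6 : ρ ^ (e - 1 + 1) = ρ ^ (e - 1) * ρ := Real.rpow_add_one hρ0.ne' _
      rw [← h6]; congr 1; ring
    rw [h5, hρ]
    field_simp
  calc k n ≤ Real.exp δ * c * S (W n) / Real.log (W n : ℝ) := h1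
    _ = Real.exp δ * c * (S (W n) / Real.log (W n : ℝ)) := by ring
    _ ≤ Real.exp δ * c * (Real.exp δ * (S (W m) * ρ ^ e) / Real.log (v : ℝ)) :=
        mul_le_mul_of_nonneg_left h3 (by positivity)
    _ = Real.exp δ * Real.exp δ * (c * S (W m)) * (ρ ^ e / Real.log (v : ℝ)) := by ring
    _ = Real.exp δ * Real.exp δ * (c * S (W m)) * (ρ ^ (e - 1) / Real.log (W m : ℝ)) := by rw [h4]
    _ ≤ Real.exp δ * Real.exp δ * (Real.exp δ * k m * Real.log (W m : ℝ)) *
          (ρ ^ (e - 1) / Real.log (W m : ℝ)) := by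
        apply mul_le_mul_of_nonneg_right _ (by positivity)
        exact mul_le_mul_of_nonneg_left h2 (by positivity)
    _ = Real.exp (3 * δ) * k m * ρ ^ (e - 1) := by
        have h5 : Real.exp (3 * δ) = Real.exp δ * Real.exp δ * Real.exp δ := by
          rw [← Real.exp_add, ← Real.exp_add]; congr 1; ring
        rw [h5]
        field_simp
    _ ≤ Real.exp (3 * δ) * k m * lam ^ (e - 1) := by
        apply mul_le_mul_of_nonneg_left _ (by positivity)
        exact Real.rpow_le_rpow hρ0.le hρl (by linarith)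

end STUM

open STUM in
theorem specSTU (hSMA : SpecSMA) (hGRU : SpecGRU) : SpecSTU := by
  intro W k S b C h ε hε
  set δ := ε / 4 with hδe
  have hδ : 0 < δ := by linarith
  obtain ⟨Ng, hNg3, hNg⟩ := hGRU W k S b C h ε hε
  obtain ⟨c, hc, hlim⟩ := h.lim
  obtain ⟨c', hc'⟩ := exists_nat_ge (2 * C)
  have hC := h.reg.C1
  have hc'1 : 1 ≤ c' := by
    have : (1 : ℝ) ≤ c' := by linarith
    exact_mod_cast this
  have e1 : 1 < Real.exp δ := Real.one_lt_exp_iff.2 hδ
  have e2 : Real.exp (-δ) < 1 := by rw [Real.exp_lt_one_iff]; linarith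
  have hup := hlim.eventually (gt_mem_nhds (show c < Real.exp δ * c by nlinarith))
  have hlo := hlim.eventually (lt_mem_nhds (show Real.exp (-δ) * c < c by nlinarith))
  have hmul := (h.mul c' hc'1).eventually (gt_mem_nhds e1)
  obtain ⟨N0, hN0⟩ := eventually_atTop.1 (((hup.and hlo).and (hmul.and h.reg.grow)).and
    ((h.reg.top.eventually_ge_atTop 3).and (h.lt.and (eventually_ge_atTop (max 3 Ng)))))
  refine ⟨N0, fun N1 hN1 => ?_⟩
  obtain ⟨M, hM⟩ := eventually_atTop.1 ((h.reg.top.eventually_ge_atTop N1).and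
    (eventually_ge_atTop N1))
  have hN0' := (hN0 N0 le_rfl).2.2.2
  have hM1 := (hM M le_rfl).2
  have hM3 : 3 ≤ M := (le_max_left 3 Ng).trans (hN0'.trans (hN1.trans hM1))
  have hlM : 0 < Real.log (M : ℝ) := log_pos' (by omega)
  -- the choice of N2
  have hlog : Tendsto (fun n : ℕ => Real.log (M : ℝ) / Real.log (n : ℝ)) atTop (𝓝 0) :=
    tendsto_const_nhds.div_atTop tlog
  obtain ⟨N2, hN2⟩ := eventually_atTop.1 ((hlog.eventually
    (gt_mem_nhds (show (0 : ℝ) < 1 - Real.exp (-δ) by linarith))).and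
    (eventually_ge_atTop (M + 1)))
  refine ⟨N2, fun B hB n hn hq => ?_⟩
  obtain ⟨hn1, hn2⟩ := hN2 n hn
  have hb0 := h.reg.b0
  set e := (1 + ε) * B with hee
  have he1 : 1 ≤ e := by rw [hee]; nlinarith
  set s := b * (e - 1) with hs
  have hs0 : 0 ≤ s := mul_nonneg hb0.le (by linarith)
  have hln : 0 < Real.log (n : ℝ) := log_pos' (by omega)
  -- comparison
  have hcmp : ∀ m, M < m → m ≤ n → Real.exp (-(3 * δ)) * k n *
      (Real.log (m : ℝ) / Real.log (n : ℝ)) ^ s ≤ k m := by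
    intro m hMm hmn
    have hmN0 : N0 ≤ m := hN1.trans (hM1.trans hMm.le)
    obtain ⟨⟨⟨-, a2⟩, ⟨-, a4⟩⟩, a5, -, a7⟩ := hN0 m hmN0
    obtain ⟨⟨⟨b1, -⟩, -⟩, -, b6, -⟩ := hN0 n (hmN0.trans hmn)
    have hlm : 0 < Real.log (m : ℝ) := log_pos' (by omega)
    have hrat : 1 ≤ Real.log (n : ℝ) / Real.log (m : ℝ) := by
      rw [one_le_div hlm]
      exact Real.log_le_log (by exact_mod_cast (by omega : 0 < m)) (by exact_mod_cast hmn)
    have hWmN : N1 ≤ W m := (hM m (by omega)).1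
    have hc1 := cmp h (c' := c') (N0 := N0) (m := m) (n := n) (e := e) hδ hc he1 hmn a5
      (hN1.trans hWmN) (Real.one_le_rpow hrat hb0.le) (a4 n hmn) b1.le a2.le hc'
      (fun v hv => by
        obtain ⟨⟨-, ⟨c3, -⟩⟩, -, -, c7⟩ := hN0 v hv
        have h2 := S_pos h (show 2 ≤ v by have := le_max_left 3 Ng; omega)
        rw [div_lt_iff₀ h2] at c3
        exact c3.le)
      (fun v hv1 hv2 => by
        apply hNg B (by linarith) (W m) v
        · have := le_max_right 3 Ng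
          omega
        · exact hv1
        · intro l hl1 hl2
          exact hq l (by omega) (by omega))
    have hr0 : 0 < Real.log (n : ℝ) / Real.log (m : ℝ) := div_pos hln hlm
    have h3 : ((Real.log (n : ℝ) / Real.log (m : ℝ)) ^ b) ^ (e - 1) =
        (Real.log (n : ℝ) / Real.log (m : ℝ)) ^ s := by
      rw [← Real.rpow_mul hr0.le, hs]
    rw [h3] at hc1
    have h4 : (Real.log (m : ℝ) / Real.log (n : ℝ)) ^ s =
        ((Real.log (n : ℝ) / Real.log (m : ℝ)) ^ s)⁻¹ := by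
      rw [← Real.inv_rpow hr0.le, inv_div]
    have h5 : 0 < (Real.log (n : ℝ) / Real.log (m : ℝ)) ^ s := Real.rpow_pos_of_pos hr0 _
    rw [h4, Real.exp_neg]
    rw [← div_eq_mul_inv, div_le_iff₀ h5, inv_mul_le_iff₀ (Real.exp_pos _)]
    calc k n ≤ Real.exp (3 * δ) * k m * (Real.log (n : ℝ) / Real.log (m : ℝ)) ^ s := hc1
      _ = _ := by ring
  -- the sum
  have hSn := S_pos h (show 2 ≤ n by omega)
  have hkn := h.kpos n
  have hsum : Real.exp (-(3 * δ)) * k n * (Real.log (n : ℝ) ^ s)⁻¹ *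
      ∑ i ∈ Finset.Ico M n, Real.log ((i + 1 : ℕ) : ℝ) ^ s / i ≤ S n := by
    rw [h.Sdef n, ← Finset.sum_range_add_sum_Ico _ (show M ≤ n by omega)]
    have h1 : 0 ≤ ∑ i ∈ Finset.range M, k (i + 1) / (i : ℝ) :=
      Finset.sum_nonneg (fun i _ => div_nonneg (h.kpos _).le (Nat.cast_nonneg _))
    have h2 : Real.exp (-(3 * δ)) * k n * (Real.log (n : ℝ) ^ s)⁻¹ *
        ∑ i ∈ Finset.Ico M n, Real.log ((i + 1 : ℕ) : ℝ) ^ s / i ≤
        ∑ i ∈ Finset.Ico M n, k (i + 1) / (i : ℝ) := by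
      rw [Finset.mul_sum]
      apply Finset.sum_le_sum
      intro i hi
      rw [Finset.mem_Ico] at hi
      have h3 := hcmp (i + 1) (by omega) (by omega)
      have hi0 : (0 : ℝ) < i := by exact_mod_cast (by omega : 0 < i)
      have hli : 0 < Real.log ((i + 1 : ℕ) : ℝ) := log_pos' (by omega)
      rw [Real.div_rpow hli.le hln.le] at h3
      rw [← mul_div_assoc]
      apply div_le_div_of_nonneg_right _ hi0.le
      refine le_trans (le_of_eq ?_) h3
      ring
    linarith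
  have hA := hSMA s hs0 M n (by omega) (by omega)
  -- conclusion
  have hr1 : Real.log (M : ℝ) / Real.log (n : ℝ) ≤ 1 - Real.exp (-δ) := hn1.le
  have hr0 : 0 < Real.log (M : ℝ) / Real.log (n : ℝ) := div_pos hlM hln
  have hr2 : (Real.log (M : ℝ) / Real.log (n : ℝ)) ^ (1 + s) ≤ 1 - Real.exp (-δ) := by
    refine le_trans ?_ hr1
    have h1 : (Real.log (M : ℝ) / Real.log (n : ℝ)) ^ (1 + s) ≤
        (Real.log (M : ℝ) / Real.log (n : ℝ)) ^ (1 : ℝ) := by
      apply Real.rpow_le_rpow_of_exponent_ge hr0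
      · have := Real.exp_pos (-δ)
        linarith
      · linarith
    rwa [Real.rpow_one] at h1
  have hln1 : Real.log (n : ℝ) ^ (1 + s) = Real.log (n : ℝ) * Real.log (n : ℝ) ^ s := by
    rw [Real.rpow_add hln, Real.rpow_one]
  have hls : 0 < Real.log (n : ℝ) ^ s := Real.rpow_pos_of_pos hln _
  have hMs : Real.log (M : ℝ) ^ (1 + s) ≤ (1 - Real.exp (-δ)) * Real.log (n : ℝ) ^ (1 + s) := by
    rw [Real.div_rpow hlM.le hln.le, div_le_iff₀ (Real.rpow_pos_of_pos hln _)] at hr2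
    exact hr2
  have hlow : Real.exp (-δ) * (Real.log (n : ℝ) * Real.log (n : ℝ) ^ s) / (1 + s) ≤
      ∑ i ∈ Finset.Ico M n, Real.log ((i + 1 : ℕ) : ℝ) ^ s / i := by
    refine le_trans ?_ hA
    apply div_le_div_of_nonneg_right _ (by linarith)
    rw [hln1] at hMs ⊢
    linarith
  have hfin : Real.exp (-(3 * δ)) * Real.exp (-δ) * (k n * Real.log (n : ℝ)) / (1 + s) ≤ S n := by
    refine le_trans ?_ hsum
    have h1 := mul_le_mul_of_nonneg_left hlow
      (show 0 ≤ Real.exp (-(3 * δ)) * k n * (Real.log (n : ℝ) ^ s)⁻¹ by positivity)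
    refine le_trans (le_of_eq ?_) h1
    field_simp
  have hexp : Real.exp (-(3 * δ)) * Real.exp (-δ) = Real.exp (-ε) := by
    rw [← Real.exp_add]; congr 1; rw [hδe]; ring
  rw [hexp] at hfin
  unfold qq
  rw [div_le_iff₀ hSn]
  have h1s : 0 < 1 + s := by linarith
  rw [div_le_iff₀ h1s, Real.exp_neg, inv_mul_le_iff₀ (Real.exp_pos _)] at hfin
  refine hfin.trans (le_of_eq ?_)
  ring

end Pool.Agent.Lib.MP_3efbeb_nt.GU
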