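import Pool.Agent.Lib.MP_3efbeb_nt.GU.Spec

/-!
# MP_3efbeb_nt, higher levels: module TAM
-/

set_option autoImplicit false

open Filter Topology Asymptotics

namespace Pool.Agent.Lib.MP_3efbeb_nt.GU

open Pool.Agent.Lib.MP_926cc3_nt.RS Pool.Agent.Lib.MP_3efbeb_nt.RST
  Pool.Agent.Lib.MP_3efbeb_nt.GL

namespace TAMM

theorem tlogn : Tendsto (fun n : ℕ => Real.log (n : ℝ)) atTop atTop :=
  Real.tendsto_log_atTop.comp tendsto_natCast_atTop_atTop

/-- `K x^b + D ≤ x/2` for large `x` -/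
theorem ev_rpow {b : ℝ} (b0 : 0 < b) (b1 : b < 1) (K D : ℝ) :
    ∀ᶠ x : ℝ in atTop, D + K * x ^ b ≤ x / 2 := by
  have h1 := (tendsto_rpow_atTop (show 0 < 1 - b by linarith)).eventually_ge_atTop (2 * K + 2)
  have h2 := (tendsto_rpow_atTop b0).eventually_ge_atTop D
  filter_upwards [h1, h2, eventually_gt_atTop 0] with x hx1 hx2 hx
  have h3 : x = x ^ b * x ^ (1 - b) := by
    rw [← Real.rpow_add hx]; simp
  have h4 : 0 < x ^ b := Real.rpow_pos_of_pos hx b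
  have h5 : x ^ b * (2 * K + 2) ≤ x ^ b * x ^ (1 - b) := mul_le_mul_of_nonneg_left hx1 h4.le
  rw [← h3] at h5
  linarith

theorem pow_bound {W : ℕ → ℕ} {b C : ℝ} (h : Reg W b C) (A : ℕ) (ε : ℝ) (hε : 0 < ε) :
    ∀ᶠ n : ℕ in atTop, (W (2 * n) : ℝ) ^ A ≤ ε * Real.sqrt n := by
  obtain ⟨n0, hg, hn3, hw⟩ :=
    (h.grow.and ((eventually_ge_atTop 3).and (h.top.eventually_ge_atTop 1))).exists
  have hw' : (1 : ℝ) ≤ (W n0 : ℝ) := by exact_mod_cast hw
  have hL0 : 0 ≤ Real.log (W n0 : ℝ) := Real.log_nonneg hw'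
  have hn0' : (3 : ℝ) ≤ (n0 : ℝ) := by exact_mod_cast hn3
  have hl0 : 0 < Real.log (n0 : ℝ) := Real.log_pos (by linarith)
  have hC : 0 < C := by linarith [h.C1]
  have hA0 : (0 : ℝ) ≤ A := Nat.cast_nonneg A
  set K : ℝ := A * (Real.log (W n0 : ℝ) * (2 / Real.log (n0 : ℝ)) ^ b) with hK
  have hev := (tlogn).eventually (ev_rpow h.b0 h.b1 K (A * Real.log C - Real.log ε))
  filter_upwards [hev, eventually_ge_atTop n0, eventually_ge_atTop 2] with n hn hnn0 hn2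
  have hn2' : (2 : ℝ) ≤ (n : ℝ) := by exact_mod_cast hn2
  have hnpos : (0 : ℝ) < (n : ℝ) := by linarith
  have hlogn : 0 < Real.log (n : ℝ) := Real.log_pos (by linarith)
  have h1 := hg (2 * n) (by omega)
  have hlog2 : Real.log ((2 * n : ℕ) : ℝ) ≤ 2 * Real.log (n : ℝ) := by
    push_cast
    rw [Real.log_mul (by norm_num) hnpos.ne']
    have := Real.log_le_log (by norm_num) hn2'
    linarith
  have hlog2' : 0 ≤ Real.log ((2 * n : ℕ) : ℝ) :=
    Real.log_nonneg (by push_cast; linarith)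
  have hwn : (1 : ℝ) ≤ (W (2 * n) : ℝ) := by
    exact_mod_cast hw.trans (h.mono (by omega))
  have hwpos : (0 : ℝ) < (W (2 * n) : ℝ) := by linarith
  have hWpos : (0 : ℝ) < (W n0 : ℝ) := by linarith
  have h2 : Real.log (W (2 * n) : ℝ) ≤
      Real.log C + (Real.log ((2 * n : ℕ) : ℝ) / Real.log (n0 : ℝ)) ^ b * Real.log (W n0 : ℝ) := by
    have h3 := Real.log_le_log hwpos h1
    rwa [Real.log_mul hC.ne' (Real.rpow_pos_of_pos hWpos _).ne', Real.log_rpow hWpos] at h3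
  have h4 : (Real.log ((2 * n : ℕ) : ℝ) / Real.log (n0 : ℝ)) ^ b ≤
      (2 / Real.log (n0 : ℝ)) ^ b * Real.log (n : ℝ) ^ b := by
    rw [← Real.mul_rpow (by positivity) hlogn.le]
    refine Real.rpow_le_rpow (by positivity) ?_ h.b0.le
    rw [div_mul_eq_mul_div]
    exact div_le_div_of_nonneg_right hlog2 hl0.le
  have h5 : (A : ℝ) * Real.log (W (2 * n) : ℝ) ≤ A * Real.log C + K * Real.log (n : ℝ) ^ b := by
    have h6 : (Real.log ((2 * n : ℕ) : ℝ) / Real.log (n0 : ℝ)) ^ b * Real.log (W n0 : ℝ) ≤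
        (2 / Real.log (n0 : ℝ)) ^ b * Real.log (n : ℝ) ^ b * Real.log (W n0 : ℝ) :=
      mul_le_mul_of_nonneg_right h4 hL0
    have h7 := mul_le_mul_of_nonneg_left (h2.trans (add_le_add_right h6 _)) hA0
    refine h7.trans (le_of_eq ?_)
    rw [hK]; ring
  have h8 : Real.log ((W (2 * n) : ℝ) ^ A) ≤ Real.log (ε * Real.sqrt n) := by
    rw [Real.log_pow, Real.log_mul hε.ne' (Real.sqrt_pos.2 hnpos).ne', Real.log_sqrt hnpos.le]
    linarith
  exact (Real.log_le_log_iff (pow_pos hwpos A) (mul_pos hε (Real.sqrt_pos.2 hnpos))).1 h8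

theorem dbl_bound {W : ℕ → ℕ} {b C : ℝ} (h : Reg W b C) :
    ∃ c : ℕ, 1 ≤ c ∧ ∀ᶠ n : ℕ in atTop, W (2 * n) ≤ c * W n := by
  have hC : 0 < C := by linarith [h.C1]
  refine ⟨⌈2 * C⌉₊, Nat.one_le_iff_ne_zero.2 (Nat.ceil_pos.2 (by linarith)).ne', ?_⟩
  filter_upwards [h.grow, pow_bound h 1 1 one_pos, h.top.eventually_ge_atTop 1,
    eventually_ge_atTop 3] with n hg hp hw hn
  have hn' : (3 : ℝ) ≤ (n : ℝ) := by exact_mod_cast hn
  have hnpos : (0 : ℝ) < (n : ℝ) := by linarith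
  have hl : 0 < Real.log (n : ℝ) := Real.log_pos (by linarith)
  have hw' : (1 : ℝ) ≤ (W n : ℝ) := by exact_mod_cast hw
  have hwpos : (0 : ℝ) < (W n : ℝ) := by linarith
  have hWn : (W n : ℝ) ≤ n := by
    have h1 : (W n : ℝ) ≤ (W (2 * n) : ℝ) := by exact_mod_cast h.mono (by omega)
    rw [pow_one, one_mul] at hp
    have h2 : Real.sqrt (n : ℝ) ≤ n := by
      rw [Real.sqrt_le_left hnpos.le]
      nlinarith
    linarith
  have h1 := hg (2 * n) (by omega)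
  have hlog2 : 0 < Real.log (2 : ℝ) := Real.log_pos (by norm_num)
  have hx : Real.log ((2 * n : ℕ) : ℝ) / Real.log (n : ℝ) = 1 + Real.log 2 / Real.log (n : ℝ) := by
    push_cast
    rw [Real.log_mul (by norm_num) hnpos.ne']
    field_simp
    ring
  have he : (Real.log ((2 * n : ℕ) : ℝ) / Real.log (n : ℝ)) ^ b ≤
      1 + Real.log 2 / Real.log (n : ℝ) := by
    rw [hx]
    have hb : (1 : ℝ) ≤ 1 + Real.log 2 / Real.log (n : ℝ) := by
      have := div_pos hlog2 hl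
      linarith
    calc (1 + Real.log 2 / Real.log (n : ℝ)) ^ b ≤ (1 + Real.log 2 / Real.log (n : ℝ)) ^ (1 : ℝ) :=
          Real.rpow_le_rpow_of_exponent_le hb h.b1.le
      _ = _ := Real.rpow_one _
  have h2 : (W n : ℝ) ^ ((Real.log ((2 * n : ℕ) : ℝ) / Real.log (n : ℝ)) ^ b) ≤ 2 * (W n : ℝ) := by
    calc (W n : ℝ) ^ ((Real.log ((2 * n : ℕ) : ℝ) / Real.log (n : ℝ)) ^ b)
        ≤ (W n : ℝ) ^ (1 + Real.log 2 / Real.log (n : ℝ)) :=
          Real.rpow_le_rpow_of_exponent_le hw' he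
      _ = (W n : ℝ) * (W n : ℝ) ^ (Real.log 2 / Real.log (n : ℝ)) := by
          rw [Real.rpow_add hwpos, Real.rpow_one]
      _ ≤ (W n : ℝ) * (n : ℝ) ^ (Real.log 2 / Real.log (n : ℝ)) := by
          refine mul_le_mul_of_nonneg_left ?_ hwpos.le
          exact Real.rpow_le_rpow hwpos.le hWn (div_pos hlog2 hl).le
      _ = 2 * (W n : ℝ) := by
          rw [Real.rpow_def_of_pos hnpos, mul_div_cancel₀ _ hl.ne', Real.exp_log (by norm_num)]
          ring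
  have h3 : (W (2 * n) : ℝ) ≤ 2 * C * (W n : ℝ) := by
    calc (W (2 * n) : ℝ) ≤ C * (W n : ℝ) ^ ((Real.log ((2 * n : ℕ) : ℝ) / Real.log (n : ℝ)) ^ b) := h1
      _ ≤ C * (2 * (W n : ℝ)) := mul_le_mul_of_nonneg_left h2 hC.le
      _ = 2 * C * (W n : ℝ) := by ring
  have h4 : (W (2 * n) : ℝ) ≤ (⌈2 * C⌉₊ : ℝ) * (W n : ℝ) :=
    h3.trans (mul_le_mul_of_nonneg_right (Nat.le_ceil _) hwpos.le)
  exact_mod_cast h4

end TAMM

theorem specTAM : SpecTAM := by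
  intro W b C h
  exact ⟨h.mono, h.top, fun A ε hε => TAMM.pow_bound h A ε hε, TAMM.dbl_bound h⟩

end Pool.Agent.Lib.MP_3efbeb_nt.GU
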