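import Pool.Agent.Lib.MP_3efbeb_nt.GU.Spec

/-! # MP_3efbeb_nt, GU, module TFC (helper67): Chinese remainder theorem for constellations -/

set_option autoImplicit false

open Filter Topology Asymptotics

namespace Pool.Agent.Lib.MP_3efbeb_nt.GU

open Pool.Agent.Lib.MP_926cc3_nt.RS Pool.Agent.Lib.MP_3efbeb_nt.RST
  Pool.Agent.Lib.MP_3efbeb_nt.GL

namespace TFCM

open Finset in
theorem crt_count {a b : ℕ} (ha : 0 < a) (hb : 0 < b) (hab : Nat.Coprime a b) (P R : ℕ → Prop)
    [DecidablePred P] [DecidablePred R] (hP : ∀ n, P (n % a) ↔ P n) (hR : ∀ n, R (n % b) ↔ R n) :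
    ((range (a * b)).filter (fun n => P n ∧ R n)).card =
      ((range a).filter P).card * ((range b).filter R).card := by
  rw [← card_product]
  refine card_nbij' (fun n => (n % a, n % b)) (fun q => (Nat.chineseRemainder hab q.1 q.2 : ℕ))
    ?_ ?_ ?_ ?_
  · intro n hn
    simp only [coe_filter, mem_range, Set.mem_ofPred_eq] at hn
    simp only [coe_product, coe_filter, mem_range, Set.mem_prod, Set.mem_ofPred_eq]
    exact ⟨⟨Nat.mod_lt _ ha, (hP n).2 hn.2.1⟩, Nat.mod_lt _ hb, (hR n).2 hn.2.2⟩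
  · rintro ⟨x, y⟩ hxy
    simp only [coe_product, coe_filter, mem_range, Set.mem_prod, Set.mem_ofPred_eq] at hxy
    simp only [coe_filter, mem_range, Set.mem_ofPred_eq]
    have h1 := (Nat.chineseRemainder hab x y).2
    refine ⟨Nat.chineseRemainder_lt_mul hab x y ha.ne' hb.ne', ?_, ?_⟩
    · rw [← hP, show (Nat.chineseRemainder hab x y : ℕ) % a = x % a from h1.1, hP]
      exact hxy.1.2
    · rw [← hR, show (Nat.chineseRemainder hab x y : ℕ) % b = y % b from h1.2, hR]
      exact hxy.2.2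
  · intro n hn
    simp only [coe_filter, mem_range, Set.mem_ofPred_eq] at hn
    have h1 := Nat.chineseRemainder_modEq_unique hab (z := n) (Nat.mod_modEq n a).symm
      (Nat.mod_modEq n b).symm
    have h2 := Nat.chineseRemainder_lt_mul hab (n % a) (n % b) ha.ne' hb.ne'
    exact (Nat.ModEq.eq_of_lt_of_lt h1 hn.1 h2).symm
  · rintro ⟨x, y⟩ hxy
    simp only [coe_product, coe_filter, mem_range, Set.mem_prod, Set.mem_ofPred_eq] at hxy
    have h1 := (Nat.chineseRemainder hab x y).2
    ext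
    · change (Nat.chineseRemainder hab x y : ℕ) % a = x
      rw [show (Nat.chineseRemainder hab x y : ℕ) % a = x % a from h1.1]
      exact Nat.mod_eq_of_lt hxy.1.1
    · change (Nat.chineseRemainder hab x y : ℕ) % b = y
      rw [show (Nat.chineseRemainder hab x y : ℕ) % b = y % b from h1.2]
      exact Nat.mod_eq_of_lt hxy.2.1

theorem dvd_iff (H : Finset ℕ) {d t t' : ℕ} (h : t ≡ t' [MOD d]) :
    d ∣ ∏ i ∈ H, (t + i) ↔ d ∣ ∏ i ∈ H, (t' + i) := by
  have h1 : (t : ZMod d) = t' := (ZMod.natCast_eq_natCast_iff _ _ _).2 h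
  rw [← ZMod.natCast_eq_zero_iff, ← ZMod.natCast_eq_zero_iff]
  push_cast
  rw [h1]

/-- the number of roots -/
def rt (H : Finset ℕ) (d : ℕ) : ℕ :=
  ((Finset.range d).filter (fun n => d ∣ ∏ i ∈ H, (n + i))).card

theorem rt_mul (H : Finset ℕ) {a b : ℕ} (ha : 0 < a) (hb : 0 < b) (hab : Nat.Coprime a b) :
    rt H (a * b) = rt H a * rt H b := by
  unfold rt
  rw [← crt_count ha hb hab (fun n => a ∣ ∏ i ∈ H, (n + i)) (fun n => b ∣ ∏ i ∈ H, (n + i))
    (fun n => dvd_iff H (Nat.mod_modEq n a)) (fun n => dvd_iff H (Nat.mod_modEq n b))]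
  congr 1
  refine Finset.filter_congr (fun n _ => ?_)
  constructor
  · intro h
    exact ⟨(Dvd.intro _ rfl).trans h, (Dvd.intro_left _ rfl).trans h⟩
  · rintro ⟨h1, h2⟩
    exact hab.mul_dvd_of_dvd_of_dvd h1 h2

theorem rt_prime (H : Finset ℕ) {p : ℕ} (hp : p.Prime) : rt H p = nu H p := by
  have h1 := lc_prime H hp
  have h2 : lc H p + rt H p = p := by
    unfold lc rt
    have h3 : (Finset.range p).filter (fun n => p ∣ ∏ i ∈ H, (n + i)) =
        (Finset.range p).filter (fun n => ¬ ∀ h ∈ H, Nat.Coprime p (n + h)) := by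
      refine Finset.filter_congr (fun n _ => ?_)
      rw [hp.prime.dvd_finsetProd_iff]
      simp only [not_forall]
      constructor
      · rintro ⟨i, hi, h4⟩
        exact ⟨i, hi, by rw [hp.coprime_iff_not_dvd, not_not]; exact h4⟩
      · rintro ⟨i, hi, h4⟩
        exact ⟨i, hi, by rw [hp.coprime_iff_not_dvd, not_not] at h4; exact h4⟩
    rw [h3, Finset.card_filter_add_card_filter_not, Finset.card_range]
  omega

theorem rt_prod (H : Finset ℕ) (s : Finset ℕ) (hs : ∀ p ∈ s, p.Prime) :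
    rt H (∏ p ∈ s, p) = ∏ p ∈ s, nu H p := by
  induction s using Finset.induction_on with
  | empty => simp [rt]
  | insert a s ha ih =>
    have hs' : ∀ p ∈ s, p.Prime := fun p hp => hs p (Finset.mem_insert_of_mem hp)
    have hap : a.Prime := hs a (Finset.mem_insert_self _ _)
    rw [Finset.prod_insert ha, Finset.prod_insert ha, rt_mul, ih hs', rt_prime H hap]
    · exact hap.pos
    · exact Finset.prod_pos fun p hp => (hs' p hp).pos
    · refine Nat.Coprime.prod_right fun p hp => ?_
      rw [Nat.coprime_primes hap (hs' p hp)]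
      rintro rfl
      exact ha hp

/-- the weighted indicator of the roots -/
noncomputable def psi (H : Finset ℕ) (N0 d : ℕ) (n : ℕ) : ℝ :=
  if d ∣ ∏ h ∈ H, (n + h) then chi N0 H n else 0

theorem chi_per_mul (N : ℕ) (H : Finset ℕ) (n k : ℕ) :
    chi N H (n + primorial N * k) = chi N H n := by
  induction k with
  | zero => simp
  | succ k ih =>
    rw [show n + primorial N * (k + 1) = (n + primorial N * k) + primorial N by ring, chi_per, ih]

theorem psi_per (H : Finset ℕ) (N0 d n : ℕ) :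
    psi H N0 d (n + primorial N0 * d) = psi H N0 d n := by
  unfold psi
  rw [chi_per_mul]
  have h1 : n + primorial N0 * d ≡ n [MOD d] := by
    have := (Nat.modEq_zero_iff_dvd (n := d)).2 (Dvd.intro_left (primorial N0) rfl)
    exact (Nat.ModEq.refl n).add this
  simp only [dvd_iff H h1]

theorem psi_mean (H : Finset ℕ) (N0 d : ℕ) (hd : Squarefree d)
    (hp : ∀ p : ℕ, p.Prime → p ∣ d → N0 < p) :
    ∑ n ∈ Finset.range (primorial N0 * d), psi H N0 d n =
      (mH H N0 * ∏ p ∈ d.primeFactors, ((nu H p : ℝ) / p)) * ((primorial N0 * d : ℕ) : ℝ) := by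
  have hd0 : 0 < d := Nat.pos_of_ne_zero hd.ne_zero
  have hQ : 0 < primorial N0 := primorial_pos N0
  have hcop : Nat.Coprime (primorial N0) d := by
    rw [primorial]
    refine Nat.Coprime.prod_left (fun p hp' => ?_)
    rw [Finset.mem_filter, Finset.mem_range] at hp'
    rw [hp'.2.coprime_iff_not_dvd]
    intro h
    have := hp p hp'.2 h
    omega
  have e1 : ∑ n ∈ Finset.range (primorial N0 * d), psi H N0 d n =
      (((Finset.range (primorial N0 * d)).filter (fun n =>
        (∀ h ∈ H, Nat.Coprime (primorial N0) (n + h)) ∧ d ∣ ∏ h ∈ H, (n + h))).card : ℝ) := by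
    rw [Finset.card_filter]
    push_cast
    refine Finset.sum_congr rfl (fun n _ => ?_)
    unfold psi
    rw [chi_eq]
    by_cases h1 : d ∣ ∏ h ∈ H, (n + h)
    · simp [h1]
    · simp [h1]
  rw [e1, crt_count hQ hd0 hcop (fun n => ∀ h ∈ H, Nat.Coprime (primorial N0) (n + h))
    (fun n => d ∣ ∏ h ∈ H, (n + h))
    (fun n => forall₂_congr (fun h _ => coprime_mod_add (primorial N0) n h))
    (fun n => dvd_iff H (Nat.mod_modEq n d))]
  have hprod : ∏ p ∈ d.primeFactors, p = d := Nat.prod_primeFactors_of_squarefree hd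
  have e2 : ((Finset.range d).filter (fun n => d ∣ ∏ h ∈ H, (n + h))).card =
      ∏ p ∈ d.primeFactors, nu H p := by
    have h1 := rt_prod H d.primeFactors (fun p hp => Nat.prime_of_mem_primeFactors hp)
    rw [hprod] at h1
    exact h1
  have e3 : ((Finset.range (primorial N0)).filter (fun n =>
      ∀ h ∈ H, Nat.Coprime (primorial N0) (n + h))).card = lc H (primorial N0) := rfl
  rw [e2, e3]
  push_cast
  rw [← sing_eq, mH, Finset.prod_div_distrib]
  have e4 : (∏ p ∈ d.primeFactors, (p : ℝ)) = d := by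
    rw [← Nat.cast_prod, hprod]
  rw [e4]
  have hd' : (d : ℝ) ≠ 0 := by exact_mod_cast hd0.ne'
  field_simp

end TFCM

open TFCM in
theorem specTFC : SpecTFC := by
  intro H N0 d a e hd hp hae
  have hd0 : 0 < d := Nat.pos_of_ne_zero hd.ne_zero
  have hQ : 0 < primorial N0 := primorial_pos N0
  have h1 := per_count (psi H N0 d) (primorial N0 * d) (Nat.mul_pos hQ hd0) (psi_per H N0 d)
    (fun n => by unfold psi; split_ifs; exacts [chi_nonneg _ _ _, le_refl _])
    (fun n => by unfold psi; split_ifs; exacts [chi_le_one _ _ _, zero_le_one])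
    _ (psi_mean H N0 d hd hp) (a + 1) (e - a)
  have e1 : Finset.Ico (a + 1) (a + 1 + (e - a)) = Finset.Ioc a e := by
    ext n
    rw [Finset.mem_Ico, Finset.mem_Ioc]
    omega
  rw [e1] at h1
  have e2 : ∑ n ∈ Finset.Ioc a e, psi H N0 d n =
      ∑ n ∈ (Finset.Ioc a e).filter (fun n => d ∣ ∏ h ∈ H, (n + h)), chi N0 H n := by
    rw [Finset.sum_filter]
    rfl
  rw [e2, Nat.cast_sub hae, Nat.cast_mul] at h1
  have e3 : ((e : ℝ) - a) * mH H N0 * ∏ p ∈ d.primeFactors, ((nu H p : ℝ) / p) =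
      mH H N0 * (∏ p ∈ d.primeFactors, ((nu H p : ℝ) / p)) * ((e : ℝ) - a) := by ring
  rw [e3]
  exact h1

end Pool.Agent.Lib.MP_3efbeb_nt.GU
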