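import Pool.Agent.Lib.MP_3efbeb_nt.GU.Spec
import Pool.Agent.Lib.MP_3efbeb_nt.Odd.FLK

/-!
# GU: TFL, the fundamental lemma for constellations
-/

set_option autoImplicit false

open Filter Topology Asymptotics

namespace Pool.Agent.Lib.MP_3efbeb_nt.GU

open Pool.Agent.Lib.MP_926cc3_nt.RS Pool.Agent.Lib.MP_3efbeb_nt.RST
  Pool.Agent.Lib.MP_3efbeb_nt.GL

namespace TFLM

open Pool.Agent.Lib.MP391708.QPA (PB rInd)

theorem mH_eq (H : Finset ℕ) (w : ℕ) :
    mH H w = ∏ p ∈ (Finset.range (w + 1)).filter Nat.Prime, (1 - (nu H p : ℝ) / p) := by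
  have h1 := sing_eq w H
  rw [lc_eq] at h1
  have h2 : (primorial w : ℝ) ≠ 0 := by exact_mod_cast (primorial_pos w).ne'
  exact mul_right_cancel₀ h2 h1

theorem primorial_mono' {a b : ℕ} (h : a ≤ b) : primorial a ≤ primorial b := by
  unfold primorial
  refine Finset.prod_le_prod_of_subset_of_one_le' ?_ ?_
  · intro p hp
    rw [Finset.mem_filter, Finset.mem_range] at hp ⊢
    exact ⟨by omega, hp.2⟩
  · intro p hp _
    exact (Finset.mem_filter.1 hp).2.one_le

theorem nu_le (H : Finset ℕ) (p : ℕ) : nu H p ≤ H.card := Finset.card_image_le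

theorem nu_le_self (H : Finset ℕ) {p : ℕ} (hp : p.Prime) : nu H p ≤ p := by
  have := lc_prime H hp
  omega

theorem mH_nonneg (H : Finset ℕ) (w : ℕ) : 0 ≤ mH H w := by
  rw [mH_eq]
  refine Finset.prod_nonneg fun p hp => ?_
  have hp1 := (Finset.mem_filter.1 hp).2
  have h1 : (nu H p : ℝ) ≤ p := by exact_mod_cast nu_le_self H hp1
  have h2 : (0 : ℝ) < p := by exact_mod_cast hp1.pos
  have h3 : (nu H p : ℝ) / p ≤ 1 := by rw [div_le_one h2]; exact h1
  linarith

/-- the constellation is coprime to the primes up to `w` -/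
theorem cop_iff (w : ℕ) (H : Finset ℕ) (n : ℕ) :
    (∀ h ∈ H, (primorial w).Coprime (n + h)) ↔
      ∀ p : ℕ, p.Prime → p ∣ ∏ h ∈ H, (n + h) → w < p := by
  constructor
  · intro h p hp hd
    by_contra hcon
    obtain ⟨i, hi, hdi⟩ := (hp.prime.dvd_finsetProd_iff _).1 hd
    have h1 : p ∣ primorial w := by
      unfold primorial
      exact Finset.dvd_prod_of_mem _ (Finset.mem_filter.2 ⟨Finset.mem_range.2 (by omega), hp⟩)
    exact Nat.Prime.one_lt hp |>.ne' (Nat.dvd_one.1 ((h i hi) ▸ Nat.dvd_gcd h1 hdi))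
  · intro h i hi
    unfold primorial
    refine Nat.Coprime.prod_left (fun p hp' => ?_)
    rw [Finset.mem_filter, Finset.mem_range] at hp'
    rw [hp'.2.coprime_iff_not_dvd]
    intro hd
    have := h p hp'.2 (hd.trans (Finset.dvd_prod_of_mem _ hi))
    omega

theorem chi_one_iff (w : ℕ) (H : Finset ℕ) (n : ℕ) :
    chi w H n = 1 ↔ ∀ p : ℕ, p.Prime → p ∣ ∏ h ∈ H, (n + h) → w < p := by
  classical
  rw [chi_eq, ← cop_iff]
  constructor
  · intro h
    by_contra hcon
    rw [if_neg hcon] at h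
    norm_num at h
  · intro h
    rw [if_pos h]

theorem chi_zero_or (w : ℕ) (H : Finset ℕ) (n : ℕ) : chi w H n = 1 ∨ chi w H n = 0 := by
  classical
  rw [chi_eq]
  split_ifs
  · exact Or.inl rfl
  · exact Or.inr rfl

theorem chi_rInd {w N : ℕ} (hN : N ≤ w) (H : Finset ℕ) (n : ℕ) :
    chi N H n * rInd ((w : ℝ) + 1) (∏ h ∈ H, (n + h)) = chi w H n := by
  have hiff : MP391708.QPA.Rough ((w : ℝ) + 1) (∏ h ∈ H, (n + h)) ↔ chi w H n = 1 := by
    rw [chi_one_iff]
    unfold MP391708.QPA.Rough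
    refine forall_congr' fun p => forall_congr' fun hp => forall_congr' fun hd => ?_
    constructor
    · intro h
      have : ((w + 1 : ℕ) : ℝ) ≤ p := by push_cast; exact h
      have := Nat.cast_le.1 this
      omega
    · intro h
      have : ((w + 1 : ℕ) : ℝ) ≤ p := by exact_mod_cast h
      push_cast at this
      exact this
  unfold rInd
  split_ifs with h
  · have h1 := hiff.1 h
    have h2 : chi N H n = 1 := by
      rw [chi_one_iff]
      intro p hp hd
      exact lt_of_le_of_lt hN ((chi_one_iff w H n).1 h1 p hp hd)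
    rw [h1, h2, one_mul]
  · rcases chi_zero_or w H n with h1 | h1
    · exact absurd (hiff.2 h1) h
    · rw [h1, mul_zero]

theorem PB_eq (w : ℕ) : PB ((w : ℝ) + 1) = (Finset.range (w + 1)).filter Nat.Prime := by
  unfold PB
  have : ⌈(w : ℝ) + 1⌉₊ = w + 1 := by
    have h1 : ((w : ℝ) + 1) = ((w + 1 : ℕ) : ℝ) := by push_cast; rfl
    rw [h1, Nat.ceil_natCast]
  rw [this]

/-- the local densities -/
noncomputable def gg (H : Finset ℕ) (N p : ℕ) : ℝ := if N < p then (nu H p : ℝ) / p else 0

theorem prod_gg (H : Finset ℕ) {N w : ℕ} (hN : N ≤ w) :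
    mH H N * ∏ p ∈ PB ((w : ℝ) + 1), (1 - gg H N p) = mH H w := by
  rw [PB_eq, mH_eq, mH_eq]
  have hsub : (Finset.range (N + 1)).filter Nat.Prime ⊆
      (Finset.range (w + 1)).filter Nat.Prime := by
    intro p hp
    rw [Finset.mem_filter, Finset.mem_range] at hp ⊢
    exact ⟨by omega, hp.2⟩
  rw [← Finset.prod_sdiff hsub, ← Finset.prod_sdiff hsub (f := fun p => 1 - (nu H p : ℝ) / p)]
  have h1 : ∏ p ∈ (Finset.range (N + 1)).filter Nat.Prime, (1 - gg H N p) = 1 := by
    refine Finset.prod_eq_one fun p hp => ?_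
    rw [Finset.mem_filter, Finset.mem_range] at hp
    unfold gg
    rw [if_neg (by omega)]
    ring
  have h2 : ∏ p ∈ (Finset.range (w + 1)).filter Nat.Prime \ (Finset.range (N + 1)).filter Nat.Prime,
      (1 - gg H N p) =
      ∏ p ∈ (Finset.range (w + 1)).filter Nat.Prime \ (Finset.range (N + 1)).filter Nat.Prime,
      (1 - (nu H p : ℝ) / p) := by
    refine Finset.prod_congr rfl fun p hp => ?_
    rw [Finset.mem_sdiff, Finset.mem_filter, Finset.mem_range, Finset.mem_filter,
      Finset.mem_range] at hp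
    unfold gg
    rw [if_pos]
    by_contra hcon
    exact hp.2 ⟨by omega, hp.1.2⟩
  rw [h1, h2, mul_one, mul_comm]

/-- the remainders -/
theorem rem (hTFC : SpecTFC) (H : Finset ℕ) (N d a e : ℕ) (hd : Squarefree d) (hae : a ≤ e) :
    |∑ n ∈ (Finset.Ioc a e).filter (fun n => d ∣ ∏ h ∈ H, (n + h)), chi N H n -
      ((e : ℝ) - a) * mH H N * ∏ p ∈ d.primeFactors, gg H N p| ≤ (primorial N : ℝ) * d := by
  by_cases hp : ∀ p : ℕ, p.Prime → p ∣ d → N < p
  · have h1 := hTFC H N d a e hd hp hae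
    have h2 : ∏ p ∈ d.primeFactors, gg H N p = ∏ p ∈ d.primeFactors, ((nu H p : ℝ) / p) := by
      refine Finset.prod_congr rfl fun p hp' => ?_
      unfold gg
      rw [if_pos (hp p (Nat.prime_of_mem_primeFactors hp') (Nat.dvd_of_mem_primeFactors hp'))]
    rw [h2]
    exact h1
  · push Not at hp
    obtain ⟨p, hp, hpd, hpN⟩ := hp
    have h2 : ∏ p ∈ d.primeFactors, gg H N p = 0 := by
      refine Finset.prod_eq_zero (Nat.mem_primeFactors.2 ⟨hp, hpd, hd.ne_zero⟩) ?_
      unfold gg
      rw [if_neg (by omega)]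
    have h3 : ∑ n ∈ (Finset.Ioc a e).filter (fun n => d ∣ ∏ h ∈ H, (n + h)), chi N H n = 0 := by
      refine Finset.sum_eq_zero fun n hn => ?_
      rw [Finset.mem_filter] at hn
      rcases chi_zero_or N H n with h4 | h4
      · have := (chi_one_iff N H n).1 h4 p hp (hpd.trans hn.2)
        omega
      · exact h4
    rw [h2, h3, mul_zero, sub_zero, abs_zero]
    positivity

end TFLM

open TFLM in
open Pool.Agent.Lib.MP391708.QPA (PB rInd) in
open scoped Classical in
theorem specTFL (hTFC : SpecTFC) : SpecTFL := by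
  intro k
  obtain ⟨C, hC, hF⟩ := Pool.Agent.Lib.MP3efbeb.Odd.specFLK k
  refine ⟨C, hC, fun H hHk _ => ?_⟩
  have hQ0 : (0 : ℝ) < primorial (2 * k) := by exact_mod_cast primorial_pos _
  refine ⟨(C + 1) * primorial (2 * k), by positivity, fun b w a e hae => ?_⟩
  have hX0 : (0 : ℝ) ≤ (e : ℝ) - a := by
    have : (a : ℝ) ≤ e := by exact_mod_cast hae
    linarith
  have hw2 : (1 : ℝ) ≤ (w : ℝ) + 2 := by
    have : (0 : ℝ) ≤ w := Nat.cast_nonneg _
    linarith
  have hmain0 : 0 ≤ C * Real.exp (-(b : ℝ)) * ((e : ℝ) - a) * mH H w :=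
    mul_nonneg (mul_nonneg (by positivity) hX0) (mH_nonneg H w)
  rcases le_or_gt w (2 * k) with hw | hw
  · -- small levels
    have h1 := per_count (chi w H) (primorial w) (primorial_pos w) (chi_per w H)
      (chi_nonneg w H) (chi_le_one w H) _ (chi_mean w H) (a + 1) (e - a)
    have e1 : Finset.Ico (a + 1) (a + 1 + (e - a)) = Finset.Ioc a e := by
      ext n
      rw [Finset.mem_Ico, Finset.mem_Ioc]
      omega
    rw [e1, Nat.cast_sub hae] at h1
    have h2 : (primorial w : ℝ) ≤ primorial (2 * k) := by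
      exact_mod_cast primorial_mono' hw
    have h3 : ((e : ℝ) - a) * mH H w = sing w H * Path.theta w ^ H.card * ((e : ℝ) - a) := by
      unfold mH
      ring
    rw [h3]
    have h4 : (1 : ℝ) ≤ ((w : ℝ) + 2) ^ (16 * b + 40) := one_le_pow₀ hw2
    have h5 : (primorial (2 * k) : ℝ) ≤
        (C + 1) * primorial (2 * k) * ((w : ℝ) + 2) ^ (16 * b + 40) := by
      have h6 : (primorial (2 * k) : ℝ) ≤ (C + 1) * primorial (2 * k) := by nlinarith
      exact h6.trans (le_mul_of_one_le_right (by positivity) h4)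
    linarith
  · -- the fundamental lemma
    set N := 2 * k with hN
    have hz : (2 : ℝ) ≤ (w : ℝ) + 1 := by
      have : (1 : ℝ) ≤ w := by exact_mod_cast (by omega : 1 ≤ w)
      linarith
    have hg : ∀ p : ℕ, p.Prime → 0 ≤ gg H N p ∧ gg H N p ≤ k / (p : ℝ) ∧ gg H N p ≤ 1 / 2 := by
      intro p hp
      have hp0 : (0 : ℝ) < p := by exact_mod_cast hp.pos
      have h1 : (nu H p : ℝ) ≤ k := by exact_mod_cast (nu_le H p).trans hHk
      unfold gg
      split_ifs with h
      · have h2 : (nu H p : ℝ) / p ≤ k / p := div_le_div_of_nonneg_right h1 hp0.le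
        refine ⟨by positivity, h2, h2.trans ?_⟩
        rw [div_le_div_iff₀ hp0 (by norm_num)]
        have : ((2 * k : ℕ) : ℝ) ≤ p := by exact_mod_cast h.le
        push_cast at this
        linarith
      · exact ⟨le_refl _, by positivity, by norm_num⟩
    have h1 := hF b ((w : ℝ) + 1) hz (Finset.Ioc a e) (fun n => ∏ h ∈ H, (n + h))
      (fun n => chi N H n) (((e : ℝ) - a) * mH H N) (gg H N)
      (mul_nonneg hX0 (mH_nonneg H N)) (fun n _ => chi_nonneg N H n) hg
    have e1 : ∑ i ∈ Finset.Ioc a e, chi N H i * rInd ((w : ℝ) + 1) (∏ h ∈ H, (i + h)) =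
        ∑ n ∈ Finset.Ioc a e, chi w H n :=
      Finset.sum_congr rfl fun n _ => chi_rInd hw.le H n
    have e2 : ((e : ℝ) - a) * mH H N * ∏ p ∈ PB ((w : ℝ) + 1), (1 - gg H N p) =
        ((e : ℝ) - a) * mH H w := by
      rw [mul_assoc, prod_gg H hw.le]
    have e3 : C * Real.exp (-(b : ℝ)) * (((e : ℝ) - a) * mH H N) *
        (∏ p ∈ PB ((w : ℝ) + 1), (1 - gg H N p)) =
        C * Real.exp (-(b : ℝ)) * ((e : ℝ) - a) * mH H w := by
      rw [mul_assoc (C * Real.exp (-(b : ℝ))), e2]
      ring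
    rw [e1, e2, e3] at h1
    refine h1.trans ?_
    apply add_le_add_right
    -- the remainder
    set z : ℝ := (w : ℝ) + 1 with hzd
    set D := ⌊z ^ (8 * b + 16)⌋₊ with hD
    have hz1 : (1 : ℝ) ≤ z := by linarith
    have hDz : (D : ℝ) ≤ z ^ (8 * b + 16) := Nat.floor_le (by positivity)
    have hlog : 1 + Real.log z ≤ z := by
      have := Real.log_le_sub_one_of_pos (show 0 < z by linarith)
      linarith
    have hlog0 : 0 ≤ 1 + Real.log z := by
      have := Real.log_nonneg hz1
      linarith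
    have hrem : ∀ (T : Finset ℕ), T ⊆ Finset.Icc 1 D → (∀ d ∈ T, Squarefree d) →
        ∑ d ∈ T, |(∑ i ∈ (Finset.Ioc a e).filter (fun i => d ∣ ∏ h ∈ H, (i + h)), chi N H i) -
          ((e : ℝ) - a) * mH H N * ∏ p ∈ d.primeFactors, gg H N p| ≤
        (primorial N : ℝ) * z ^ (16 * b + 32) := by
      intro T hT hsq
      calc _ ≤ ∑ d ∈ T, (primorial N : ℝ) * d :=
            Finset.sum_le_sum fun d hd => rem hTFC H N d a e (hsq d hd) hae
        _ ≤ ∑ d ∈ Finset.Icc 1 D, (primorial N : ℝ) * d :=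
            Finset.sum_le_sum_of_subset_of_nonneg hT fun d _ _ => by positivity
        _ ≤ ∑ d ∈ Finset.Icc 1 D, (primorial N : ℝ) * D := by
            refine Finset.sum_le_sum fun d hd => ?_
            have : (d : ℝ) ≤ D := by exact_mod_cast (Finset.mem_Icc.1 hd).2
            exact mul_le_mul_of_nonneg_left this (by positivity)
        _ = (primorial N : ℝ) * (D * D) := by
            rw [Finset.sum_const, Nat.card_Icc, nsmul_eq_mul, Nat.add_sub_cancel]
            ring
        _ ≤ (primorial N : ℝ) * (z ^ (8 * b + 16) * z ^ (8 * b + 16)) := by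
            apply mul_le_mul_of_nonneg_left _ (by positivity)
            exact mul_le_mul hDz hDz (by positivity) (by positivity)
        _ = (primorial N : ℝ) * z ^ (16 * b + 32) := by
            rw [← pow_add]
            congr 2
            ring
    have hR := hrem ((Finset.Icc 1 D).filter
      (fun δ => Squarefree δ ∧ ∀ p : ℕ, p.Prime → p ∣ δ → (p : ℝ) < z))
      (Finset.filter_subset _ _) (fun d hd => (Finset.mem_filter.1 hd).2.1)
    have hfin : C * (1 + Real.log z) * ((primorial N : ℝ) * z ^ (16 * b + 32)) ≤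
        (C + 1) * primorial N * ((w : ℝ) + 2) ^ (16 * b + 40) := by
      calc C * (1 + Real.log z) * ((primorial N : ℝ) * z ^ (16 * b + 32))
          ≤ C * z * ((primorial N : ℝ) * z ^ (16 * b + 32)) := by
            apply mul_le_mul_of_nonneg_right _ (by positivity)
            exact mul_le_mul_of_nonneg_left hlog hC.le
        _ = C * primorial N * z ^ (16 * b + 33) := by ring
        _ ≤ C * primorial N * ((w : ℝ) + 2) ^ (16 * b + 40) := by
            apply mul_le_mul_of_nonneg_left _ (by positivity)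
            calc z ^ (16 * b + 33) ≤ z ^ (16 * b + 40) := pow_le_pow_right₀ hz1 (by omega)
              _ ≤ ((w : ℝ) + 2) ^ (16 * b + 40) :=
                  pow_le_pow_left₀ (by linarith) (by rw [hzd]; linarith) _
        _ ≤ (C + 1) * primorial N * ((w : ℝ) + 2) ^ (16 * b + 40) := by
            apply mul_le_mul_of_nonneg_right _ (by positivity)
            apply mul_le_mul_of_nonneg_right _ (by positivity)
            linarith
    refine le_trans ?_ hfin
    apply mul_le_mul_of_nonneg_left _ (mul_nonneg hC.le hlog0)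
    convert hR using 2

end Pool.Agent.Lib.MP_3efbeb_nt.GU
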