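import Pool.Agent.Lib.MP_3efbeb_nt.GU.Spec

/-!
# MP_3efbeb_nt, higher levels: module THW
-/

set_option autoImplicit false

open Filter Topology Asymptotics

namespace Pool.Agent.Lib.MP_3efbeb_nt.GU

open Pool.Agent.Lib.MP_926cc3_nt.RS Pool.Agent.Lib.MP_3efbeb_nt.RST
  Pool.Agent.Lib.MP_3efbeb_nt.GL

theorem specTHW : SpecTHW := by
  intro W hW
  obtain ⟨c, hc1, hc⟩ := hW.dbl
  have ht := hW.top
  have h1 : Tendsto (fun n : ℕ => 1 - (c : ℝ) * Real.log 4 / Real.log ((W n : ℕ) : ℝ))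
      atTop (𝓝 1) := by
    have h2 : Tendsto (fun n : ℕ => Real.log ((W n : ℕ) : ℝ)) atTop atTop :=
      Real.tendsto_log_atTop.comp (tendsto_natCast_atTop_atTop.comp ht)
    have h3 := (tendsto_const_nhds (x := (c : ℝ) * Real.log 4) (f := atTop)).div_atTop h2
    simpa using h3.const_sub 1
  refine tendsto_of_tendsto_of_tendsto_of_le_of_le' h1 tendsto_const_nhds ?_ ?_
  · filter_upwards [hc, ht.eventually_ge_atTop 2] with n hn h2
    have h3 := theta_ratio h2 (hW.mono (show n ≤ 2 * n by omega))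
      (show ((W (2 * n) : ℕ) : ℝ) ≤ (c : ℝ) * (W n : ℕ) by exact_mod_cast hn)
    rw [le_div_iff₀ (Path.theta_pos _), mul_comm]
    exact h3
  · refine Eventually.of_forall (fun n => ?_)
    rw [div_le_one (Path.theta_pos _)]
    exact theta_anti (hW.mono (show n ≤ 2 * n by omega))

end Pool.Agent.Lib.MP_3efbeb_nt.GU
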