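import Pool.Agent.Lib.MP_3efbeb_nt.GU.RAV

/-!
# MP_3efbeb_nt, MP_926cc3_nt: module TWN (averages over the rough constellations)
-/

set_option autoImplicit false

open Filter Topology Asymptotics

namespace Pool.Agent.Lib.MP_3efbeb_nt.GU

open Pool.Agent.Lib.MP_926cc3_nt.RS Pool.Agent.Lib.MP_3efbeb_nt.RST
  Pool.Agent.Lib.MP_3efbeb_nt.GL

namespace TWNM

open RAVM

/-- one piece -/
theorem piece {H : Finset ℕ} {C C' s0 : ℝ} (hC' : 0 < C') (hs0 : 0 < s0)
    {A b w a e : ℕ} (hae : a ≤ e) (hm : s0 / ((w : ℝ) + 1) ^ H.card ≤ mH H w)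
    (h : |∑ n ∈ Finset.Ioc a e, chi w H n - ((e : ℝ) - a) * mH H w| ≤
      C * Real.exp (-(b : ℝ)) * ((e : ℝ) - a) * mH H w + C' * ((w : ℝ) + 2) ^ A) :
    |∑ n ∈ Finset.Ioc a e, (chi w H n / mH H w - 1)| ≤
      C * Real.exp (-(b : ℝ)) * ((e : ℝ) - a) + C' / s0 * ((w : ℝ) + 2) ^ (A + H.card) := by
  have hw0 : (0 : ℝ) ≤ w := Nat.cast_nonneg _
  have hpos : 0 < s0 / ((w : ℝ) + 1) ^ H.card := by positivity
  have hV : 0 < mH H w := lt_of_lt_of_le hpos hm
  have hinv : (mH H w)⁻¹ ≤ ((w : ℝ) + 2) ^ H.card / s0 := by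
    have h1 : (mH H w)⁻¹ ≤ (s0 / ((w : ℝ) + 1) ^ H.card)⁻¹ := inv_anti₀ hpos hm
    rw [inv_div] at h1
    refine h1.trans ?_
    gcongr
    linarith
  have e1 : ∑ n ∈ Finset.Ioc a e, (chi w H n / mH H w - 1) =
      (∑ n ∈ Finset.Ioc a e, chi w H n - ((e : ℝ) - a) * mH H w) * (mH H w)⁻¹ := by
    rw [Finset.sum_sub_distrib, ← Finset.sum_div, Finset.sum_const, Nat.card_Ioc, nsmul_eq_mul,
      mul_one, Nat.cast_sub hae]
    field_simp
  rw [e1, abs_mul, abs_of_pos (inv_pos.2 hV)]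
  calc |∑ n ∈ Finset.Ioc a e, chi w H n - ((e : ℝ) - a) * mH H w| * (mH H w)⁻¹
      ≤ (C * Real.exp (-(b : ℝ)) * ((e : ℝ) - a) * mH H w + C' * ((w : ℝ) + 2) ^ A) *
        (mH H w)⁻¹ := by
        apply mul_le_mul_of_nonneg_right h (inv_pos.2 hV).le
    _ = C * Real.exp (-(b : ℝ)) * ((e : ℝ) - a) + C' * ((w : ℝ) + 2) ^ A * (mH H w)⁻¹ := by
        field_simp
    _ ≤ C * Real.exp (-(b : ℝ)) * ((e : ℝ) - a) +
        C' * ((w : ℝ) + 2) ^ A * (((w : ℝ) + 2) ^ H.card / s0) := by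
        gcongr
    _ = _ := by
        rw [pow_add]
        ring

/-- the window sum for a monotone level -/
theorem window {W : ℕ → ℕ} (hW : Monotone W) {H : Finset ℕ} {C C' s0 : ℝ} (hC' : 0 < C')
    (hs0 : 0 < s0) {A b : ℕ} (hm : ∀ w : ℕ, s0 / ((w : ℝ) + 1) ^ H.card ≤ mH H w)
    (h : ∀ w a e : ℕ, a ≤ e → |∑ n ∈ Finset.Ioc a e, chi w H n - ((e : ℝ) - a) * mH H w| ≤
      C * Real.exp (-(b : ℝ)) * ((e : ℝ) - a) * mH H w + C' * ((w : ℝ) + 2) ^ A)
    (a e : ℕ) (hae : a ≤ e) :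
    |∑ n ∈ Finset.Ioc a e, (chi (W n) H n / mH H (W n) - 1)| ≤
      C * Real.exp (-(b : ℝ)) * ((e : ℝ) - a) +
        C' / s0 * ((W e : ℝ) + 2) ^ (A + H.card + 1) := by
  classical
  have hmaps : ∀ n ∈ Finset.Ioc a e, W n ∈ Finset.range (W e + 1) := by
    intro n hn
    rw [Finset.mem_Ioc] at hn
    rw [Finset.mem_range]
    have := hW hn.2
    omega
  rw [← Finset.sum_fiberwise_of_maps_to hmaps]
  have hfib : ∀ v ∈ Finset.range (W e + 1),
      |∑ n ∈ (Finset.Ioc a e).filter (fun n => W n = v), (chi (W n) H n / mH H (W n) - 1)| ≤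
      C * Real.exp (-(b : ℝ)) * (((Finset.Ioc a e).filter (fun n => W n = v)).card : ℝ) +
        C' / s0 * ((W e : ℝ) + 2) ^ (A + H.card) := by
    intro v hv
    rw [Finset.mem_range] at hv
    obtain ⟨a', e', hae', hf⟩ := Gra.fiber W hW a e v
    have e1 : ∑ n ∈ (Finset.Ioc a e).filter (fun n => W n = v),
        (chi (W n) H n / mH H (W n) - 1) =
        ∑ n ∈ Finset.Ioc a' e', (chi v H n / mH H v - 1) := by
      rw [← hf]
      apply Finset.sum_congr rfl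
      intro n hn
      rw [Finset.mem_filter] at hn
      rw [hn.2]
    rw [e1, hf]
    have h3 := piece hC' hs0 hae' (hm v) (h v a' e' hae')
    have h4 : ((Finset.Ioc a' e').card : ℝ) = (e' : ℝ) - a' := by
      rw [Nat.card_Ioc, Nat.cast_sub hae']
    rw [h4]
    refine h3.trans ?_
    have h5 : (v : ℝ) ≤ W e := by exact_mod_cast (by omega : v ≤ W e)
    gcongr
  calc |∑ v ∈ Finset.range (W e + 1), ∑ n ∈ (Finset.Ioc a e).filter (fun n => W n = v),
        (chi (W n) H n / mH H (W n) - 1)|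
      ≤ ∑ v ∈ Finset.range (W e + 1), |∑ n ∈ (Finset.Ioc a e).filter (fun n => W n = v),
        (chi (W n) H n / mH H (W n) - 1)| := Finset.abs_sum_le_sum_abs _ _
    _ ≤ ∑ v ∈ Finset.range (W e + 1), (C * Real.exp (-(b : ℝ)) *
        (((Finset.Ioc a e).filter (fun n => W n = v)).card : ℝ) +
        C' / s0 * ((W e : ℝ) + 2) ^ (A + H.card)) := Finset.sum_le_sum hfib
    _ = C * Real.exp (-(b : ℝ)) * ((e : ℝ) - a) +
        ((W e : ℝ) + 1) * (C' / s0 * ((W e : ℝ) + 2) ^ (A + H.card)) := by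
        rw [Finset.sum_add_distrib, ← Finset.mul_sum, Finset.sum_const, Finset.card_range,
          nsmul_eq_mul]
        have h6 := Finset.card_eq_sum_card_fiberwise (fun n hn => hmaps n hn)
        have h7 : ∑ v ∈ Finset.range (W e + 1),
            (((Finset.Ioc a e).filter (fun n => W n = v)).card : ℝ) = (e : ℝ) - a := by
          rw [← Nat.cast_sum, ← h6, Nat.card_Ioc, Nat.cast_sub hae]
        rw [h7]
        push_cast
        ring
    _ ≤ C * Real.exp (-(b : ℝ)) * ((e : ℝ) - a) +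
        ((W e : ℝ) + 2) * (C' / s0 * ((W e : ℝ) + 2) ^ (A + H.card)) := by
        gcongr
        linarith
    _ = _ := by ring

end TWNM

open RAVM TWNM

theorem specTWN (hTFL : SpecTFL) (hMHL : SpecMHL) : SpecTWN := by
  intro W hW H hH M hM η hη
  obtain ⟨C, hC, hk⟩ := hTFL H.card
  obtain ⟨C', hC', hF⟩ := hk H le_rfl hH
  obtain ⟨s0, s1, hs0, hs⟩ := hMHL H hH
  obtain ⟨b, hb⟩ := choose_b hC (half_pos hη)
  have herr := small_error hW hM (C' / s0) (η / 2) (by positivity) (by positivity)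
    (16 * b + 40 + H.card + 1)
  filter_upwards [herr] with n h1
  rw [shift (fun j => chi (W j) H j / mH H (W j) - 1)]
  have h3 := window hW.mono hC' hs0 (fun w => (hs w).2.2) (fun w a e hae => hF b w a e hae)
    (n - n / M) n (Nat.sub_le _ _)
  refine h3.trans ?_
  have h4 : (n : ℝ) - ((n - n / M : ℕ) : ℝ) = ((n / M : ℕ) : ℝ) := by
    rw [Nat.cast_sub (Nat.div_le_self _ _)]
    ring
  rw [h4]
  have h7 : C * Real.exp (-(b : ℝ)) * ((n / M : ℕ) : ℝ) ≤ η / 2 * ((n / M : ℕ) : ℝ) := by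
    gcongr
  linarith

end Pool.Agent.Lib.MP_3efbeb_nt.GU
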