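import Pool.Agent.Lib.MP_3efbeb_nt.GU.Spec

/-!
# MP_3efbeb_nt, higher levels: module UAT
-/

set_option autoImplicit false

open Filter Topology Asymptotics

namespace Pool.Agent.Lib.MP_3efbeb_nt.GU

open Pool.Agent.Lib.MP_926cc3_nt.RS Pool.Agent.Lib.MP_3efbeb_nt.RST
  Pool.Agent.Lib.MP_3efbeb_nt.GL

theorem specUAT (hLMT : SpecLMT) : SpecUAT := by
  intro W hW
  obtain ⟨c, hc, hlim⟩ := hLMT
  have h1 : ∀ᶠ w : ℕ in atTop, c / 2 < Path.theta w * Real.log (w : ℝ) :=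
    hlim.eventually (lt_mem_nhds (by linarith))
  have h2 := hW.top.eventually h1
  rw [tendsto_atTop]
  intro B
  obtain ⟨A, hA⟩ := exists_nat_ge (B / c)
  filter_upwards [h2, hW.pow A 1 one_pos, hW.top.eventually_ge_atTop 1] with n hn hp hw1
  have hθ := Path.theta_pos (W n)
  have hw : (1 : ℝ) ≤ (W n : ℝ) := by exact_mod_cast hw1
  have hm : (W n : ℝ) ≤ (W (2 * n) : ℝ) := by exact_mod_cast hW.mono (by omega)
  have h3 : (W n : ℝ) ^ A ≤ Real.sqrt n := by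
    calc (W n : ℝ) ^ A ≤ (W (2 * n) : ℝ) ^ A := pow_le_pow_left₀ (by linarith) hm A
      _ ≤ 1 * Real.sqrt n := hp
      _ = Real.sqrt n := one_mul _
  have h4 : Real.log ((W n : ℝ) ^ A) ≤ Real.log (Real.sqrt n) :=
    Real.log_le_log (pow_pos (by linarith) A) h3
  rw [Real.log_pow, Real.log_sqrt (Nat.cast_nonneg n)] at h4
  have h5 : B ≤ A * c := by
    rw [div_le_iff₀ hc] at hA
    exact hA
  have hA0 : (0 : ℝ) ≤ A := Nat.cast_nonneg A
  have h6 : Path.theta (W n) * (2 * (A * Real.log (W n : ℝ))) ≤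
      Path.theta (W n) * Real.log (n : ℝ) :=
    mul_le_mul_of_nonneg_left (by linarith) hθ.le
  have h7 : (2 * (A : ℝ)) * (c / 2) ≤
      (2 * (A : ℝ)) * (Path.theta (W n) * Real.log (W n : ℝ)) :=
    mul_le_mul_of_nonneg_left hn.le (by linarith)
  nlinarith

end Pool.Agent.Lib.MP_3efbeb_nt.GU
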