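import Pool.Agent.Lib.MP_3efbeb_nt.GU.Exm
import Pool.Agent.Lib.MP_3efbeb_nt.GU.Pow
import Pool.Agent.Lib.MP_3efbeb_nt.GU.TAM
import Pool.Agent.Lib.MP_3efbeb_nt.GU.LMT
import Pool.Agent.Lib.MP_3efbeb_nt.GU.THW
import Pool.Agent.Lib.MP_3efbeb_nt.GU.UAT
import Pool.Agent.Lib.MP_3efbeb_nt.GU.RAV
import Pool.Agent.Lib.MP_3efbeb_nt.GU.EMU
import Pool.Agent.Lib.MP_3efbeb_nt.GU.KOS
import Pool.Agent.Lib.MP_3efbeb_nt.GU.AVG
import Pool.Agent.Lib.MP_3efbeb_nt.GU.PSE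
import Pool.Agent.Lib.MP_3efbeb_nt.GU.SMA
import Pool.Agent.Lib.MP_3efbeb_nt.GU.SMB
import Pool.Agent.Lib.MP_3efbeb_nt.GU.GRU
import Pool.Agent.Lib.MP_3efbeb_nt.GU.GRL
import Pool.Agent.Lib.MP_3efbeb_nt.GU.STU
import Pool.Agent.Lib.MP_3efbeb_nt.GU.STL
import Pool.Agent.Lib.MP_3efbeb_nt.GU.BDD
import Pool.Agent.Lib.MP_3efbeb_nt.GU.LSU
import Pool.Agent.Lib.MP_3efbeb_nt.GU.LSL
import Pool.Agent.Lib.MP_3efbeb_nt.GU.QDE
import Pool.Agent.Lib.MP_3efbeb_nt.GU.GFN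
import Pool.Agent.Lib.MP_3efbeb_nt.GU.TFC
import Pool.Agent.Lib.MP_3efbeb_nt.GU.TFL
import Pool.Agent.Lib.MP_3efbeb_nt.GU.MHL
import Pool.Agent.Lib.MP_3efbeb_nt.GU.TWN
import Pool.Agent.Lib.MP_3efbeb_nt.GU.PLS
import Pool.Agent.Lib.MP_3efbeb_nt.GU.PPD
import Pool.Agent.Lib.MP_3efbeb_nt.GU.PLD
import Pool.Agent.Lib.MP_3efbeb_nt.GU.PLC

/-!
# GU: all Specs, and the theorems without hypotheses
-/

set_option autoImplicit false

open Filter Topology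

namespace Pool.Agent.Lib.MP_3efbeb_nt.GU

theorem hTAM : SpecTAM := specTAM
theorem hLMT : SpecLMT := specLMT
theorem hTHW : SpecTHW := specTHW
theorem hUAT : SpecUAT := specUAT hLMT
theorem hRAV : SpecRAV := specRAV
theorem hEMU : SpecEMU := specEMU hLMT
theorem hKOS : SpecKOS := specKOS hTHW hEMU
theorem hAVG : SpecAVG := specAVG
theorem hPSE : SpecPSE := specPSE hUAT hRAV hKOS hAVG
theorem hSMA : SpecSMA := specSMA
theorem hSMB : SpecSMB := specSMB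
theorem hGRU : SpecGRU := specGRU
theorem hGRL : SpecGRL := specGRL
theorem hSTU : SpecSTU := specSTU hSMA hGRU
theorem hSTL : SpecSTL := specSTL hSMB hGRL
theorem hBDD : SpecBDD := specBDD hSTU
theorem hLSU : SpecLSU := specLSU hSTU hBDD
theorem hLSL : SpecLSL := specLSL hSTL
theorem hQDE : SpecQDE := specQDE hTAM hLMT hUAT hEMU hPSE
theorem hGFN : SpecGFN := specGFN hLSU hLSL hQDE
theorem hTFC : SpecTFC := specTFC
theorem hTFL : SpecTFL := specTFL hTFC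
theorem hMHL : SpecMHL := specMHL
theorem hTWN : SpecTWN := specTWN hTFL hMHL
theorem hTDT : SpecTDT := specTDT hUAT hAVG hTWN
theorem hPLS : SpecPLS := specPLS hTFL hMHL hLMT
theorem hPPD : SpecPPD := specPPD
theorem hPLD : SpecPLD := specPLD hPPD
theorem hPLC : SpecPLC := specPLC

/-- all hypotheses of the main theorems -/
theorem hX : HX := ⟨hTAM, hUAT, hPSE, hGFN, hTDT⟩

end Pool.Agent.Lib.MP_3efbeb_nt.GU
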