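import Pool.Agent.Lib.MP_3efbeb_nt.GL.Main

/-!
# MP_3efbeb_nt and MP_926cc3_nt: the sieve of growing level, higher levels: definitions
-/

set_option autoImplicit false

open Filter Topology Asymptotics

namespace Pool.Agent.Lib.MP_3efbeb_nt.GU

open Pool.Agent.Lib.MP_926cc3_nt.RS Pool.Agent.Lib.MP_3efbeb_nt.RST
  Pool.Agent.Lib.MP_3efbeb_nt.GL

/-- `W` is nondecreasing, tends to infinity and grows regularly, with an exponent `b < 1` -/
structure Reg (W : ℕ → ℕ) (b C : ℝ) : Prop where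
  mono : Monotone W
  top : Tendsto W atTop atTop
  b0 : 0 < b
  b1 : b < 1
  C1 : 1 ≤ C
  grow : ∀ᶠ n : ℕ in atTop, ∀ m : ℕ, n ≤ m →
    (W m : ℝ) ≤ C * (W n : ℝ) ^ ((Real.log m / Real.log n) ^ b)

/-- what is needed of the level for the averages over the rough numbers -/
structure Tame (W : ℕ → ℕ) : Prop where
  mono : Monotone W
  top : Tendsto W atTop atTop
  pow : ∀ (A : ℕ) (ε : ℝ), 0 < ε → ∀ᶠ n : ℕ in atTop, (W (2 * n) : ℝ) ^ A ≤ ε * Real.sqrt n
  dbl : ∃ c : ℕ, 1 ≤ c ∧ ∀ᶠ n : ℕ in atTop, W (2 * n) ≤ c * W n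

/-- the reciprocal sieving product increases only at the rough numbers -/
def EStep (W : ℕ → ℕ) (E : ℕ → ℝ) : Prop :=
  ∀ n : ℕ, 1 ≤ n → E (n + 1) ≤ E n * (1 + rho W (n + 1) / n)

/-- the data of the analysis of the recursion: `k` the slope, `S` its logarithmic integral -/
structure QD (W : ℕ → ℕ) (k S : ℕ → ℝ) (b C : ℝ) : Prop where
  reg : Reg W b C
  lt : ∀ᶠ n : ℕ in atTop, W n < n
  kpos : ∀ n, 0 < k n
  Sdef : ∀ n, S n = ∑ i ∈ Finset.range n, k (i + 1) / i
  lim : ∃ c : ℝ, 0 < c ∧ Tendsto (fun n : ℕ => k n * Real.log (W n : ℝ) / S (W n)) atTop (𝓝 c)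
  kle : ∀ᶠ n in atTop, k n ≤ 2 * S n
  mul : ∀ c : ℕ, 1 ≤ c → Tendsto (fun v : ℕ => S (c * v) / S v) atTop (𝓝 1)
  klog : Tendsto (fun n : ℕ => k n * Real.log (n : ℝ)) atTop atTop

/-- the local exponent of growth of `S` with respect to `log` -/
noncomputable def qq (k S : ℕ → ℝ) (n : ℕ) : ℝ := k n * Real.log (n : ℝ) / S n

/-- the density of the `n` such that all `n + h` are coprime to the primes up to `w` -/
noncomputable def mH (H : Finset ℕ) (w : ℕ) : ℝ := sing w H * Path.theta w ^ H.card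

/-- admissible: for no prime all classes are covered -/
def Adm (H : Finset ℕ) : Prop := ∀ p : ℕ, p.Prime → nu H p < p

end Pool.Agent.Lib.MP_3efbeb_nt.GU
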