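import Pool.Agent.Lib.MP_3efbeb_nt.GU.Main

/-!
# GU: examples of levels
-/

set_option autoImplicit false
set_option linter.unusedSectionVars false
set_option linter.unusedVariables false

open Filter Topology Asymptotics

namespace Pool.Agent.Lib.MP_3efbeb_nt.GU

open Pool.Agent.Lib.MP_926cc3_nt.RS Pool.Agent.Lib.MP_3efbeb_nt.RST
  Pool.Agent.Lib.MP_3efbeb_nt.GL

namespace EXMM

variable {W : ℕ → ℕ}

theorem level_of_ev_const {w : ℕ} (hm : Monotone W) (hw : ∀ᶠ n in atTop, W n = w) :
    IsLevel W := by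
  refine ⟨hm, 0, 1, one_pos, ?_⟩
  obtain ⟨n0, hn0⟩ := eventually_atTop.1 hw
  filter_upwards [eventually_ge_atTop n0] with n hn m hm'
  rw [hn0 n hn, hn0 m (hn.trans hm'), Real.rpow_zero, Real.rpow_one, one_mul]

theorem level_const (N : ℕ) : IsLevel (fun _ => N) :=
  level_of_ev_const monotone_const (Eventually.of_forall (fun _ => rfl))

/-- the iterated doubling bound -/
theorem iter_dbl {c n0 : ℕ} (hm : Monotone W) (h1 : 1 ≤ c) (h2 : 1 ≤ n0)
    (h : ∀ n, n0 ≤ n → W (n ^ 2) ≤ c * W n) :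
    ∀ j n m : ℕ, n0 ≤ n → n ≤ m → m ≤ n ^ (2 ^ j) → W m ≤ c ^ j * W n := by
  intro j
  induction j with
  | zero =>
    intro n m _ h4 h5
    rw [pow_zero, pow_one] at h5
    rw [pow_zero, one_mul, le_antisymm h5 h4]
  | succ j ih =>
    intro n m h3 h4 h5
    have hn2 : n ≤ n ^ 2 := by nlinarith
    have hc : 1 ≤ c ^ j := Nat.one_le_pow _ _ (by omega)
    rcases Nat.le_total m (n ^ 2) with h6 | h6
    · calc W m ≤ W (n ^ 2) := hm h6
        _ ≤ c * W n := h n h3
        _ = 1 * (c * W n) := (one_mul _).symm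
        _ ≤ c ^ j * (c * W n) := Nat.mul_le_mul_right _ hc
        _ = c ^ (j + 1) * W n := by ring
    · have h7 : m ≤ (n ^ 2) ^ (2 ^ j) := by
        rw [← pow_mul, ← pow_succ']; exact h5
      calc W m ≤ c ^ j * W (n ^ 2) := ih (n ^ 2) m (by omega) h6 h7
        _ ≤ c ^ j * (c * W n) := Nat.mul_le_mul_left _ (h n h3)
        _ = c ^ (j + 1) * W n := by ring

/-- the levels of `GL` are levels -/
theorem level_of_lev (hW : Lev W) : IsLevel W := by
  by_cases ht : Tendsto W atTop atTop
  · obtain ⟨c0, hc0⟩ := hW.dbl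
    set c := max c0 1 with hc
    have hc1 : 1 ≤ c := le_max_right _ _
    obtain ⟨n1, hn1⟩ := eventually_atTop.1 hc0
    refine ⟨hW.mono, 1 / 2, c, by norm_num, ?_⟩
    set κ : ℝ := Real.log c / Real.log 2 with hκ
    have hl2 : 0 < Real.log 2 := Real.log_pos (by norm_num)
    have hc1' : (1 : ℝ) ≤ c := by exact_mod_cast hc1
    have hlc : 0 ≤ Real.log (c : ℝ) := Real.log_nonneg hc1'
    have hκ0 : 0 ≤ κ := div_nonneg hlc hl2.le
    have htr : Tendsto (fun n => (W n : ℝ)) atTop atTop := tendsto_natCast_atTop_atTop.comp ht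
    filter_upwards [eventually_ge_atTop (n1 + 2), htr.eventually_ge_atTop (Real.exp (2 * κ))]
      with n hn hw m hm
    have hWn : 0 < (W n : ℝ) := lt_of_lt_of_le (Real.exp_pos _) hw
    have hlW : 2 * κ ≤ Real.log (W n) := by
      rw [Real.le_log_iff_exp_le hWn]; exact hw
    have hn2 : (2 : ℝ) ≤ n := by exact_mod_cast (by omega : 2 ≤ n)
    have hln : 0 < Real.log (n : ℝ) := Real.log_pos (by linarith)
    set r := Real.log (m : ℝ) / Real.log n with hr
    have hr1 : 1 ≤ r := by
      rw [hr, le_div_iff₀ hln, one_mul]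
      exact Real.log_le_log (by linarith) (by exact_mod_cast hm)
    have hdb := iter_dbl (W := W) (c := c) (n0 := n1 + 2) hW.mono hc1 (by omega)
      (fun k hk => (hn1 k (by omega)).trans (Nat.mul_le_mul_right _ (le_max_left _ _)))
    -- the number of doublings
    have hex : ∃ j : ℕ, m ≤ n ^ (2 ^ j) := by
      refine ⟨m, ?_⟩
      have h1 : m < 2 ^ m := Nat.lt_two_pow_self
      have h2 : 2 ^ m < n ^ (2 ^ m) := by
        calc 2 ^ m < 2 ^ (2 ^ m) := Nat.pow_lt_pow_right (by norm_num) h1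
          _ ≤ n ^ (2 ^ m) := Nat.pow_le_pow_left (by omega) _
      omega
    classical
    set j := Nat.find hex with hj
    have hj1 : m ≤ n ^ (2 ^ j) := Nat.find_spec hex
    have hlr : 0 ≤ Real.log r := Real.log_nonneg hr1
    have hjr : ((j : ℝ) - 1) * Real.log 2 ≤ Real.log r := by
      rcases Nat.eq_zero_or_pos j with h0 | h0
      · rw [h0]; push_cast; linarith
      · obtain ⟨i, hi⟩ : ∃ i, j = i + 1 := ⟨j - 1, by omega⟩
        have h1 : ¬ m ≤ n ^ (2 ^ i) := Nat.find_min hex (by omega)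
        push Not at h1
        have h2 : ((n : ℝ)) ^ (2 ^ i) ≤ m := by exact_mod_cast h1.le
        have h3 := Real.log_le_log (by positivity) h2
        rw [Real.log_pow] at h3
        have h4 : ((2 ^ i : ℕ) : ℝ) ≤ r := by
          rw [hr, le_div_iff₀ hln]; exact h3
        have h5 := Real.log_le_log (by positivity) h4
        push_cast at h5
        rw [Real.log_pow] at h5
        rw [hi]
        push_cast
        linarith
    have h1 : (W m : ℝ) ≤ (c : ℝ) ^ j * W n := by
      exact_mod_cast hdb j n m (by omega) hm hj1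
    refine h1.trans ?_
    have h2 : 0 < (c : ℝ) ^ j * W n := by positivity
    have h3 : 0 < (c : ℝ) * (W n : ℝ) ^ (r ^ (1 / 2 : ℝ)) := by
      have := Real.rpow_pos_of_pos hWn (r ^ (1 / 2 : ℝ))
      positivity
    rw [← Real.log_le_log_iff h2 h3, Real.log_mul (by positivity) hWn.ne', Real.log_pow,
      Real.log_mul (by positivity) (Real.rpow_pos_of_pos hWn _).ne', Real.log_rpow hWn]
    have h4 : 1 + 1 / 2 * Real.log r ≤ r ^ (1 / 2 : ℝ) := by
      rw [Real.rpow_def_of_pos (by linarith)]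
      have := Real.add_one_le_exp (Real.log r * (1 / 2))
      linarith
    have h5 : ((j : ℝ) - 1) * Real.log c ≤ κ * Real.log r := by
      have h6 : ((j : ℝ) - 1) * Real.log c = κ * (((j : ℝ) - 1) * Real.log 2) := by
        rw [hκ]; field_simp
      rw [h6]
      exact mul_le_mul_of_nonneg_left hjr hκ0
    have h6 : κ * Real.log r ≤ 1 / 2 * Real.log r * Real.log (W n) := by
      have := mul_le_mul_of_nonneg_left hlW hlr
      nlinarith
    have hlW0 : 0 ≤ Real.log (W n) := by linarith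
    have h7 := mul_le_mul_of_nonneg_right h4 hlW0
    nlinarith
  · obtain ⟨w, hw⟩ := ev_const_of_not_top hW.mono ht
    exact level_of_ev_const hW.mono hw

/-- the level `max N ⌊exp ((log n) ^ a)⌋` -/
noncomputable def expLevel (N : ℕ) (a : ℝ) (n : ℕ) : ℕ :=
  max N ⌊Real.exp (Real.log (n : ℝ) ^ a)⌋₊

theorem tpow {a : ℝ} (ha : 0 < a) :
    Tendsto (fun n : ℕ => Real.log (n : ℝ) ^ a) atTop atTop :=
  (tendsto_rpow_atTop ha).comp tlog

theorem expLevel_mono (N : ℕ) {a : ℝ} (ha : 0 < a) : Monotone (expLevel N a) := by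
  intro x y hxy
  unfold expLevel
  apply max_le_max le_rfl
  apply Nat.floor_le_floor
  apply Real.exp_le_exp.2
  apply Real.rpow_le_rpow (Real.log_natCast_nonneg _) _ ha.le
  rcases Nat.eq_zero_or_pos x with h | h
  · rw [h]; simp only [CharP.cast_eq_zero, Real.log_zero]; exact Real.log_natCast_nonneg _
  · exact Real.log_le_log (by exact_mod_cast h) (by exact_mod_cast hxy)

theorem expLevel_top (N : ℕ) {a : ℝ} (ha : 0 < a) : Tendsto (expLevel N a) atTop atTop := by
  have h1 : Tendsto (fun n : ℕ => ⌊Real.exp (Real.log (n : ℝ) ^ a)⌋₊) atTop atTop :=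
    tendsto_nat_floor_atTop.comp (Real.tendsto_exp_atTop.comp (tpow ha))
  exact tendsto_atTop_mono (fun n => le_max_right _ _) h1

theorem amgm {a b r : ℝ} (ha : 0 < a) (hab : a < b) (hr : 1 ≤ r) :
    (b - a) * (r ^ b - 1) ≤ b * (r ^ b - r ^ a) := by
  have hb : 0 < b := ha.trans hab
  have h1 := Real.geom_mean_le_arith_mean2_weighted (w₁ := a / b) (w₂ := 1 - a / b)
    (p₁ := r ^ b) (p₂ := 1) (by positivity)
    (by rw [sub_nonneg, div_le_one hb]; exact hab.le)
    (Real.rpow_nonneg (by linarith) _) zero_le_one (by ring)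
  rw [Real.one_rpow, mul_one, mul_one, ← Real.rpow_mul (by linarith),
    show b * (a / b) = a by field_simp] at h1
  have h2 := mul_le_mul_of_nonneg_left h1 hb.le
  have h3 : b * (a / b * r ^ b + (1 - a / b)) = a * r ^ b + (b - a) := by
    field_simp
  rw [h3] at h2
  linarith

theorem level_exp (N : ℕ) {a : ℝ} (ha : 0 < a) (ha1 : a < 1) : IsLevel (expLevel N a) := by
  set b := (1 + a) / 2 with hb
  have hab : a < b := by rw [hb]; linarith
  have hb1 : b < 1 := by rw [hb]; linarith
  have hb0 : 0 < b := ha.trans hab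
  refine ⟨expLevel_mono N ha, b, 2, hb1, ?_⟩
  have hl2 : 0 < Real.log 2 := Real.log_pos (by norm_num)
  filter_upwards [(tpow ha).eventually_ge_atTop (b * Real.log 2 / (b - a)),
    (Real.tendsto_exp_atTop.comp (tpow ha)).eventually_ge_atTop ((N : ℝ) + 2),
    eventually_ge_atTop 3] with n h1 h2 h3 m hm
  simp only [Function.comp] at h2
  have hn3 : (3 : ℝ) ≤ n := by exact_mod_cast h3
  have hln : 0 < Real.log (n : ℝ) := Real.log_pos (by linarith)
  have hlnm : Real.log (n : ℝ) ≤ Real.log m :=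
    Real.log_le_log (by linarith) (by exact_mod_cast hm)
  set r := Real.log (m : ℝ) / Real.log n with hr
  have hr1 : 1 ≤ r := by rw [hr, le_div_iff₀ hln]; linarith
  set X := Real.log (n : ℝ) ^ a with hX
  have hN0 : (0 : ℝ) ≤ N := Nat.cast_nonneg _
  -- upper bound for `W m`
  have hM : Real.log (m : ℝ) ^ a = r ^ a * X := by
    rw [hX, ← Real.mul_rpow (by linarith) hln.le, hr]
    congr 1
    field_simp
  have hra : 1 ≤ r ^ a := Real.one_le_rpow hr1 ha.le
  have hX0 : 0 ≤ X := Real.rpow_nonneg hln.le _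
  have hWm : (expLevel N a m : ℝ) ≤ Real.exp (r ^ a * X) := by
    unfold expLevel
    rw [hM]
    push_cast
    apply max_le
    · have h5 : Real.exp X ≤ Real.exp (r ^ a * X) := Real.exp_le_exp.2 (by nlinarith)
      linarith
    · exact Nat.floor_le (Real.exp_pos _).le
  -- lower bound for `W n`
  have hWn : Real.exp X / 2 ≤ (expLevel N a n : ℝ) := by
    unfold expLevel
    push_cast
    refine le_trans ?_ (le_max_right _ _)
    have h5 := Nat.lt_floor_add_one (Real.exp (Real.log (n : ℝ) ^ a))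
    rw [← hX] at h5 ⊢
    linarith
  refine hWm.trans ?_
  have hrb : 0 ≤ r ^ b := Real.rpow_nonneg (by linarith) _
  have h5 : (Real.exp X / 2) ^ (r ^ b) ≤ (expLevel N a n : ℝ) ^ (r ^ b) :=
    Real.rpow_le_rpow (by positivity) hWn hrb
  refine le_trans ?_ (mul_le_mul_of_nonneg_left h5 (by norm_num))
  have h6 : 2 * (Real.exp X / 2) ^ (r ^ b) = Real.exp (Real.log 2 + (X - Real.log 2) * r ^ b) := by
    have h7 : Real.exp X / 2 = Real.exp (X - Real.log 2) := by
      rw [Real.exp_sub, Real.exp_log (by norm_num)]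
    rw [h7, Real.exp_add, Real.exp_log (by norm_num), Real.exp_mul]
  rw [h6]
  apply Real.exp_le_exp.2
  have h7 := amgm ha hab hr1
  have hba : 0 < b - a := by linarith
  rw [div_le_iff₀ hba] at h1
  -- `(r^b - 1) log 2 ≤ (r^b - r^a) X`
  have h8 : r ^ a ≤ r ^ b := Real.rpow_le_rpow_of_exponent_le hr1 hab.le
  have h9 : (b - a) * ((r ^ b - 1) * Real.log 2) ≤ (b - a) * ((r ^ b - r ^ a) * X) := by
    calc (b - a) * ((r ^ b - 1) * Real.log 2) = ((b - a) * (r ^ b - 1)) * Real.log 2 := by ring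
      _ ≤ (b * (r ^ b - r ^ a)) * Real.log 2 := mul_le_mul_of_nonneg_right h7 hl2.le
      _ = (r ^ b - r ^ a) * (b * Real.log 2) := by ring
      _ ≤ (r ^ b - r ^ a) * (X * (b - a)) :=
          mul_le_mul_of_nonneg_left h1 (by linarith)
      _ = _ := by ring
  have h10 := le_of_mul_le_mul_left h9 hba
  nlinarith

end EXMM

end Pool.Agent.Lib.MP_3efbeb_nt.GU
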