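import Pool.Agent.Lib.MP_3efbeb_nt.GU.Spec

/-!
# MP_3efbeb_nt, sieve of growing level: end of the deterministic part (GFN)
-/

set_option autoImplicit false

open Filter Topology Asymptotics

namespace Pool.Agent.Lib.MP_3efbeb_nt.GU

open Pool.Agent.Lib.MP_926cc3_nt.RS Pool.Agent.Lib.MP_3efbeb_nt.RST
  Pool.Agent.Lib.MP_3efbeb_nt.GL

namespace GFNM

theorem pos {E : ℕ → ℝ} (h : EBase E) (n : ℕ) : 0 < E n := lt_of_lt_of_le one_pos (h.one_le n)

/-- the ratio of consecutive values tends to one (last part of `GL.EBase.final`) -/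
theorem ratio {E : ℕ → ℝ} (h : EBase E) : Tendsto (fun n : ℕ => E n / E (n - 1)) atTop (𝓝 1) := by
  have h4 : Tendsto (fun n : ℕ => 1 + 1 / ((n : ℝ) - 1)) atTop (𝓝 (1 + 0)) := by
    apply Tendsto.const_add
    apply Tendsto.div_atTop tendsto_const_nhds
    exact tendsto_atTop_add_const_right _ _ tendsto_natCast_atTop_atTop
  rw [add_zero] at h4
  refine tendsto_of_tendsto_of_tendsto_of_le_of_le' tendsto_const_nhds h4 ?_ ?_
  · refine Eventually.of_forall (fun n => ?_)
    rw [one_le_div (pos h _)]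
    exact h.mono (Nat.sub_le n 1)
  · filter_upwards [eventually_ge_atTop 2] with n hn
    obtain ⟨m, rfl⟩ : ∃ m, n = m + 1 := ⟨n - 1, by omega⟩
    have hm : (1 : ℝ) ≤ m := by exact_mod_cast (by omega : 1 ≤ m)
    have h5 := h.anti m (m + 1) (by omega) (by omega)
    rw [show m + 1 - 1 = m by omega, div_le_iff₀ (pos h m)]
    push_cast at h5 ⊢
    have e : (1 + 1 / ((m : ℝ) + 1 - 1)) * E m = (E m * (m + 1)) / m := by
      have : (m : ℝ) + 1 - 1 = m := by ring
      rw [this]; field_simp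
    rw [e, le_div_iff₀ (by linarith)]
    exact h5

/-- the local exponent tends to one -/
theorem qlim (hLSU : SpecLSU) (hLSL : SpecLSL) {W : ℕ → ℕ} {k S : ℕ → ℝ} {b C : ℝ}
    (hQ : QD W k S b C) : Tendsto (fun n => qq k S n) atTop (𝓝 1) := by
  rw [Metric.tendsto_atTop']
  intro ε hε
  have h1 := hLSU W k S b C hQ (ε / 2) (by linarith)
  have h2 := hLSL W k S b C hQ (ε / 2) (by linarith)
  obtain ⟨N, hN⟩ := eventually_atTop.1 (h1.and h2)
  refine ⟨N, fun n hn => ?_⟩
  obtain ⟨h3, h4⟩ := hN n hn.le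
  rw [Real.dist_eq, abs_lt]
  constructor <;> linarith

end GFNM

open GFNM in
theorem specGFN (hLSU : SpecLSU) (hLSL : SpecLSL) (hQDE : SpecQDE) : SpecGFN := by
  intro W b C hR E h hE hP
  obtain ⟨hES, hQ⟩ := hQDE W b C hR E h hE hP
  have hq := qlim hLSU hLSL hQ
  -- `E / SS → 1`
  have hSne : ∀ᶠ n in atTop, SS W E n ≠ 0 := by
    have h1 := hq.eventually (lt_mem_nhds (show (0 : ℝ) < 1 by norm_num))
    filter_upwards [h1] with n hn h0
    rw [qq, h0, div_zero] at hn
    exact lt_irrefl _ hn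
  have hr : Tendsto (fun n => E n / SS W E n) atTop (𝓝 1) := (isEquivalent_iff_tendsto_one hSne).1 hES
  have h2 : Tendsto (fun n => kap W E n * Real.log (n : ℝ) / E n) atTop (𝓝 1) := by
    have h3 := hq.mul (hr.inv₀ one_ne_zero)
    rw [inv_one, mul_one] at h3
    refine h3.congr' ?_
    filter_upwards [hSne] with n hn
    have i1 := (pos h n).ne'
    unfold qq
    field_simp
  have h6 := h2.mul (ratio h)
  rw [mul_one] at h6
  refine h6.congr' ?_
  filter_upwards [eventually_ge_atTop 2] with n hn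
  have i4 := (pos h n).ne'
  have i5 := (pos h (n - 1)).ne'
  unfold kap
  field_simp

end Pool.Agent.Lib.MP_3efbeb_nt.GU
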