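import Pool.Agent.Lib.MP_3efbeb_nt.RST.Iter

/-!
# GU: a lower bound for constellations in a random set with a predictable density
-/

set_option autoImplicit false
set_option linter.unusedSectionVars false
set_option linter.unusedVariables false

open Filter Topology MeasureTheory ProbabilityTheory Asymptotics

namespace Pool.Agent.Lib.MP_3efbeb_nt.GU

open Pool.Agent.Lib.MP_926cc3_nt.RS Pool.Agent.Lib.MP_3efbeb_nt.RST

variable {Ω : Type*} [m0 : MeasurableSpace Ω]

/-- iterated law of large numbers, lower bound: the predictable density is at least `g`. -/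
theorem iter_low {μ : Measure Ω} [IsProbabilityMeasure μ] {ℱ : Filtration ℕ m0}
    {R : Ω → Set ℕ} {d : ℕ → Ω → ℝ} (hD : Dens μ ℱ R d) (g : ℕ → ℝ) (B : ℝ)
    (hg0 : ∀ n, 0 ≤ g n) (hgB : ∀ n, g n ≤ B)
    (hdg : ∀ᵐ ω ∂μ, ∀ᶠ n in atTop, g n ≤ d n ω)
    (f : ℕ → ℕ → ℕ) (hf : ∀ i, StrictMono (f i)) (hf1 : ∀ i, 1 ≤ f i 0) (I : Finset ℕ) :
    (∀ i ∈ I, ∀ j ∈ I, i < j → ∀ n, f i n < f j n) → ∀ (c : ℕ → ℝ) (C : ℝ),
    (∀ n, 0 ≤ c n) → (∀ n, c n ≤ C) →
    Tendsto (fun x => ∑ n ∈ Finset.range x, c n * ∏ i ∈ I, g (f i n)) atTop atTop →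
    ∀ᵐ ω ∂μ, ∀ ε : ℝ, 0 < ε → ∀ᶠ x in atTop,
      (1 - ε) * ∑ n ∈ Finset.range x, c n * ∏ i ∈ I, g (f i n) ≤
        ∑ n ∈ Finset.range x, c n * ∏ i ∈ I, ind R (f i n) ω := by
  classical
  induction I using Finset.induction_on_max with
  | empty =>
    intro _ c C hc _ _
    refine ae_of_all _ (fun ω ε hε => Eventually.of_forall (fun x => ?_))
    simp only [Finset.prod_empty, mul_one]
    have h1 : 0 ≤ ∑ n ∈ Finset.range x, c n := Finset.sum_nonneg (fun n _ => hc n)
    nlinarith
  | insert a I hmax ih =>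
    intro hlt c C hc0 hcC hdiv
    have haI : a ∉ I := fun h => lt_irrefl a (hmax a h)
    have hB0 : 0 ≤ B := (hg0 0).trans (hgB 0)
    have hC0 : 0 ≤ C := (hc0 0).trans (hcC 0)
    have ih' := ih (fun i hi j hj hij n => hlt i (Finset.mem_insert_of_mem hi) j
      (Finset.mem_insert_of_mem hj) hij n) (fun n => c n * g (f a n)) (C * B)
      (fun n => mul_nonneg (hc0 n) (hg0 _))
      (fun n => mul_le_mul (hcC n) (hgB _) (hg0 _) hC0) (by
        refine hdiv.congr (fun x => Finset.sum_congr rfl (fun n _ => ?_))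
        rw [Finset.prod_insert haI]; ring)
    have hp0 : ∀ n ω, 0 ≤ ∏ i ∈ I, ind R (f i n) ω :=
      fun n ω => Finset.prod_nonneg (fun i _ => Dens.ind_nonneg _ ω)
    have hp1 : ∀ n ω, ∏ i ∈ I, ind R (f i n) ω ≤ 1 :=
      fun n ω => Finset.prod_le_one (fun i _ => Dens.ind_nonneg _ ω)
        (fun i _ => Dens.ind_le_one _ ω)
    -- the law
    have hL : LawData μ ℱ R d (f a)
        (fun n ω => c n / (C + 1) * ∏ i ∈ I, ind R (f i n) ω) := by
      refine ⟨hD, hf a, hf1 a, ?_, ?_, ?_⟩
      · intro n ω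
        exact mul_nonneg (div_nonneg (hc0 n) (by linarith)) (hp0 n ω)
      · intro n ω
        have h1 : c n / (C + 1) ≤ 1 := by
          rw [div_le_one (by linarith)]
          linarith [hcC n]
        exact mul_le_one₀ h1 (hp0 n ω) (hp1 n ω)
      · intro n
        apply Measurable.const_mul
        apply Finset.measurable_fun_prod
        intro i hi
        apply hD.ind_meas'
        have := hlt i (Finset.mem_insert_of_mem hi) a (Finset.mem_insert_self _ _) (hmax i hi) n
        omega
    filter_upwards [ih', hL.law, hdg] with ω h1 h2 h3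
    have hfa : Tendsto (f a) atTop atTop := (hf a).tendsto_atTop
    set G : ℕ → ℝ := fun x => ∑ n ∈ Finset.range x, c n * ∏ i ∈ insert a I, g (f i n) with hG
    set T : ℕ → ℝ := fun x => ∑ n ∈ Finset.range x,
      c n * g (f a n) * ∏ i ∈ I, ind R (f i n) ω with hT
    set D : ℕ → ℝ := fun x => ∑ n ∈ Finset.range x,
      (c n * ∏ i ∈ I, ind R (f i n) ω) * d (f a n) ω with hDD
    have e0 : ∀ x, ∑ n ∈ Finset.range x, c n * g (f a n) * ∏ i ∈ I, g (f i n) = G x := by
      intro x
      refine Finset.sum_congr rfl (fun n _ => ?_)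
      rw [Finset.prod_insert haI]; ring
    have h1' : ∀ ε : ℝ, 0 < ε → ∀ᶠ x in atTop, (1 - ε) * G x ≤ T x := by
      intro ε hε
      filter_upwards [h1 ε hε] with x hx
      rw [← e0 x]; exact hx
    obtain ⟨n0, hn0⟩ := eventually_atTop.1 (hfa.eventually h3)
    set u : ℕ → ℝ := fun n => (c n * ∏ i ∈ I, ind R (f i n) ω) * (d (f a n) ω - g (f a n)) with hu
    set Kc : ℝ := ∑ n ∈ Finset.range n0, |u n| with hKc
    have hDT : ∀ x, T x - Kc ≤ D x := by
      intro x
      have e1 : D x - T x = ∑ n ∈ Finset.range x, u n := by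
        rw [hDD, hT, hu]
        simp only
        rw [← Finset.sum_sub_distrib]
        exact Finset.sum_congr rfl (fun n _ => by ring)
      have e2 : -Kc ≤ ∑ n ∈ Finset.range x, u n := by
        rcases Nat.le_total x n0 with hx | hx
        · have h4 : ∑ n ∈ Finset.range x, |u n| ≤ Kc :=
            Finset.sum_le_sum_of_subset_of_nonneg (Finset.range_mono hx)
              (fun _ _ _ => abs_nonneg _)
          have h5 := Finset.abs_sum_le_sum_abs u (Finset.range x)
          have h6 := neg_abs_le (∑ n ∈ Finset.range x, u n)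
          linarith
        · rw [← Finset.sum_range_add_sum_Ico _ hx]
          have h5 := Finset.abs_sum_le_sum_abs u (Finset.range n0)
          have h6 := neg_abs_le (∑ n ∈ Finset.range n0, u n)
          have h7 : 0 ≤ ∑ n ∈ Finset.Ico n0 x, u n := by
            apply Finset.sum_nonneg
            intro n hn
            rw [Finset.mem_Ico] at hn
            exact mul_nonneg (mul_nonneg (hc0 n) (hp0 n ω)) (by linarith [hn0 n hn.1])
          linarith
      linarith
    have hDG : ∀ ε : ℝ, 0 < ε → ∀ᶠ x in atTop, (1 - ε) * G x ≤ D x := by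
      intro ε hε
      filter_upwards [h1' (ε / 2) (by linarith), hdiv.eventually_ge_atTop (2 * Kc / ε)]
        with x h4 h5
      rw [div_le_iff₀ hε] at h5
      have h6 := hDT x
      have h7 : (1 - ε / 2) * G x = (1 - ε) * G x + ε / 2 * G x := by ring
      have h8 : ε / 2 * G x = (G x * ε) / 2 := by ring
      linarith
    have hDtop : Tendsto D atTop atTop := by
      have h4 : Tendsto (fun x => (1 - 1 / 2 : ℝ) * G x) atTop atTop :=
        hdiv.const_mul_atTop (by norm_num)
      exact tendsto_atTop_mono' _ (hDG (1 / 2) (by norm_num)) h4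
    have hC1 : (C + 1) ≠ 0 := by linarith
    have h8 := h2 (by
      have := hDtop.const_mul_atTop (show (0 : ℝ) < 1 / (C + 1) by positivity)
      refine this.congr (fun x => ?_)
      rw [hDD]
      simp only
      rw [Finset.mul_sum]
      refine Finset.sum_congr rfl (fun n _ => ?_)
      field_simp)
    have h9 : (fun x => ∑ n ∈ Finset.range x,
        (c n * ∏ i ∈ I, ind R (f i n) ω) * ind R (f a n) ω) ~[atTop] D := by
      have h10 := (IsEquivalent.refl (u := fun _ : ℕ => (C + 1)) (l := atTop)).mul h8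
      refine (h10.congr_left ?_).congr_right ?_
      · refine Eventually.of_forall (fun x => ?_)
        simp only [Pi.mul_apply]
        rw [Finset.mul_sum]
        refine Finset.sum_congr rfl (fun n _ => ?_)
        field_simp
      · refine Eventually.of_forall (fun x => ?_)
        simp only [Pi.mul_apply]
        rw [Finset.mul_sum]
        refine Finset.sum_congr rfl (fun n _ => ?_)
        field_simp
    have h11 : Tendsto (fun x => (∑ n ∈ Finset.range x,
        (c n * ∏ i ∈ I, ind R (f i n) ω) * ind R (f a n) ω) / D x) atTop (𝓝 1) :=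
      (isEquivalent_iff_tendsto_one
        ((hDtop.eventually_gt_atTop 0).mono (fun x hx => hx.ne'))).1 h9
    have hsum : ∀ x, ∑ n ∈ Finset.range x, c n * ∏ i ∈ insert a I, ind R (f i n) ω =
        ∑ n ∈ Finset.range x, (c n * ∏ i ∈ I, ind R (f i n) ω) * ind R (f a n) ω := by
      intro x
      refine Finset.sum_congr rfl (fun n _ => ?_)
      rw [Finset.prod_insert haI]; ring
    have hS0 : ∀ x, 0 ≤ ∑ n ∈ Finset.range x, c n * ∏ i ∈ insert a I, ind R (f i n) ω :=
      fun x => Finset.sum_nonneg (fun n _ => mul_nonneg (hc0 n)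
        (Finset.prod_nonneg (fun i _ => Dens.ind_nonneg _ ω)))
    have hG0 : ∀ x, 0 ≤ G x := fun x => Finset.sum_nonneg (fun n _ => mul_nonneg (hc0 n)
        (Finset.prod_nonneg (fun i _ => hg0 _)))
    intro ε hε
    rcases le_or_gt 1 ε with h1ε | h1ε
    · refine Eventually.of_forall (fun x => ?_)
      have h12 : (1 - ε) * G x ≤ 0 := mul_nonpos_of_nonpos_of_nonneg (by linarith) (hG0 x)
      exact h12.trans (hS0 x)
    · filter_upwards [hDG (ε / 2) (by linarith), hDtop.eventually_gt_atTop 0,
        h11.eventually (lt_mem_nhds (show 1 - ε / 2 < 1 by linarith))] with x h12 h13 h14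
      rw [lt_div_iff₀ h13] at h14
      rw [hsum x]
      refine le_trans ?_ h14.le
      calc (1 - ε) * G x ≤ (1 - ε / 2) * ((1 - ε / 2) * G x) := by
            have := hG0 x
            nlinarith [mul_nonneg (sq_nonneg ε) this]
        _ ≤ (1 - ε / 2) * D x := mul_le_mul_of_nonneg_left h12 (by linarith)

end Pool.Agent.Lib.MP_3efbeb_nt.GU
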