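import Pool.Agent.Lib.MP_3efbeb_nt.GU.TDT

/-!
# GU: the theorems on the sieve of growing level, for the higher levels
-/

set_option autoImplicit false
set_option linter.unusedSectionVars false
set_option linter.unusedVariables false

open Filter Topology MeasureTheory ProbabilityTheory Asymptotics

namespace Pool.Agent.Lib.MP_3efbeb_nt.GU

open Pool.Agent.Lib.MP_926cc3_nt.RS Pool.Agent.Lib.MP_3efbeb_nt.RST
  Pool.Agent.Lib.MP_3efbeb_nt.GL

variable {Ω : Type*} [m0 : MeasurableSpace Ω]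

theorem ind_le_rho {W : ℕ → ℕ} {A : ℕ → ℕ → Set Ω} (n : ℕ) (ω : Ω) :
    ind (growSet W A) n ω ≤ rho W n := by
  by_cases hk : n ∈ growSet W A ω
  · rw [Dens.ind_of_mem hk]
    unfold rho
    rw [if_pos ((Sv.mem_iff n ω).1 hk).1]
  · rw [Dens.ind_of_not hk]; exact rho_nonneg W n

theorem estep (W : ℕ → ℕ) (A : ℕ → ℕ → Set Ω) (ω : Ω) : EStep W (fun n => K W A n ω) := by
  intro n hn
  show K W A (n + 1) ω ≤ K W A n ω * (1 + rho W (n + 1) / n)
  rw [KM.K_succ]
  have h1 := ind_le_rho (W := W) (A := A) (n + 1) ω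
  have h2 := KM.K_div_nonneg (W := W) (A := A) n ω
  have h3 : K W A n ω * (1 + rho W (n + 1) / n) =
      K W A n ω + K W A n ω / n * rho W (n + 1) := by ring
  rw [h3]
  have := mul_le_mul_of_nonneg_left h1 h2
  linarith

/-- the Specs used for the main theorems -/
structure HX : Prop where
  tam : SpecTAM
  uat : SpecUAT
  pse : SpecPSE
  gfn : SpecGFN
  tdt : SpecTDT

variable {μ : Measure Ω} [IsProbabilityMeasure μ] {W : ℕ → ℕ} {A : ℕ → ℕ → Set Ω}

/-- the data of a level for which the law is known -/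
structure Good (W : ℕ → ℕ) : Prop where
  mono : Monotone W
  lt : ∀ᶠ n : ℕ in atTop, W n + 1 < n
  upos : ∀ᶠ n : ℕ in atTop, 0 < Path.theta (W n) * Real.log (n : ℝ)
  bdd : ∃ B : ℝ, 0 ≤ B ∧ ∀ n, 1 / (Path.theta (W n) * Real.log n) ≤ B
  fin : ∀ E : ℕ → ℝ, EBase E → EStep W E → (Tendsto (PP W E) atTop atTop → E ~[atTop] PP W E) →
    Tendsto (fun n : ℕ => E (W n) / E (n - 1) * (Path.theta (W n) * Real.log (n : ℝ)))
      atTop (𝓝 1)
  det : ∀ H : Finset ℕ, H.Nonempty → (∀ p, p.Prime → (∃ n, p ≤ W n) → nu H p < p) →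
    ∀ S : ℝ, 0 < S → Tendsto (fun n => sing (W n) H) atTop (𝓝 S) →
    (fun x => ∑ n ∈ Finset.range x, ∏ h ∈ H, gW W (n + 1 + h)) ~[atTop]
      (fun x : ℕ => S * ((x : ℝ) / Real.log (x : ℝ) ^ H.card))
  sing : ∀ H : Finset ℕ, (∀ p, p.Prime → (∃ n, p ≤ W n) → nu H p < p) →
    ∃ S : ℝ, 0 < S ∧ Tendsto (fun n => sing (W n) H) atTop (𝓝 S)

/-- the levels of `GL` are good -/
theorem good_lev (hW : Lev W) : Good W where
  mono := hW.mono
  lt := hW.lt_self
  upos := hW.u_atTop.eventually_gt_atTop 0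
  bdd := den_bdd hW
  fin := fun E hE _ h => hE.final hW (h (hE.PP_atTop hW))
  det := fun H hne _ S hS hlim => tup_det hW H hne S hS hlim
  sing := fun H h => sing_lim hW H h

theorem adm_of_top (ht : Tendsto W atTop atTop) {H : Finset ℕ}
    (h : ∀ p, p.Prime → (∃ n, p ≤ W n) → nu H p < p) : Adm H :=
  fun p hp => h p hp (ht.eventually_ge_atTop p).exists

/-- the regular levels are good -/
theorem good_reg (X : HX) {b C : ℝ} (hW : Reg W b C) : Good W where
  mono := hW.mono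
  lt := TDTM.lt_self (X.tam W b C hW)
  upos := (X.uat W (X.tam W b C hW)).eventually_gt_atTop 0
  bdd := TDTM.den_bdd' X.uat (X.tam W b C hW)
  fin := fun E hE hS h => X.gfn W b C hW E hE hS (h (X.pse W (X.tam W b C hW) E hE hS).2.1)
  det := fun H hne h S hS hlim =>
    X.tdt W (X.tam W b C hW) H hne (adm_of_top hW.top h) S hS hlim
  sing := fun H h => ⟨_, hl_pos H (adm_of_top hW.top h), (sing_tendsto H).comp hW.top⟩

/-- Mertens' theorem for the sieve of level `W` -/
theorem mertens_ae' (hW : Good W) (hA : ∀ m n, MeasurableSet (A m n))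
    (hI : iIndepSet (fun q : ℕ × ℕ => A q.1 q.2) μ)
    (hP : ∀ m n, W n < m → m < n → μ.real (A m n) = 1 / m) :
    ∀ᵐ ω ∂μ, Tendsto (fun n : ℕ => K W A (W n) ω / K W A (n - 1) ω *
      (Path.theta (W n) * Real.log n)) atTop (𝓝 1) := by
  filter_upwards [KM.main hA (Sv.dens (μ := μ) hA hI hP)] with ω hω
  exact hW.fin _ (ebase W A ω) (estep W A ω) hω

/-- the predictable density is asymptotic to the deterministic one -/
theorem dens_ae' (hW : Good W) (hA : ∀ m n, MeasurableSet (A m n))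
    (hI : iIndepSet (fun q : ℕ × ℕ => A q.1 q.2) μ)
    (hP : ∀ m n, W n < m → m < n → μ.real (A m n) = 1 / m) :
    ∀ᵐ ω ∂μ, (fun n => dW W A n ω) ~[atTop] gW W := by
  filter_upwards [mertens_ae' hW hA hI hP] with ω hω
  rw [isEquivalent_iff_exists_eq_mul]
  refine ⟨_, hω, ?_⟩
  filter_upwards [hW.lt, hW.upos, eventually_ge_atTop 2] with n h1 h2 h3
  obtain ⟨m, rfl⟩ : ∃ m, n = m + 1 := ⟨n - 1, by omega⟩
  have h4 := KM.K_dW (W := W) (A := A) m ω
  rw [min_eq_left (by omega)] at h4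
  have h5 := (KM.K_pos (W := W) (A := A) m ω).ne'
  simp only [Pi.mul_apply, gW, show m + 1 - 1 = m by omega]
  have h6 := h2.ne'
  have e : dW W A (m + 1) ω = rho W (m + 1) * K W A (W (m + 1)) ω / K W A m ω := by
    rw [← h4]; field_simp
  rw [e]
  generalize Path.theta (W (m + 1)) * Real.log ((m + 1 : ℕ) : ℝ) = t at h6 ⊢
  field_simp

/-- the tuple law with a prescribed limit of the truncated singular series -/
theorem tuple_ae' (hW : Good W) (hA : ∀ m n, MeasurableSet (A m n))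
    (hI : iIndepSet (fun q : ℕ × ℕ => A q.1 q.2) μ)
    (hP : ∀ m n, W n < m → m < n → μ.real (A m n) = 1 / m) (H : Finset ℕ) (hne : H.Nonempty)
    (hH : ∀ p, p.Prime → (∃ n, p ≤ W n) → nu H p < p)
    (S : ℝ) (hS : 0 < S) (hlim : Tendsto (fun n => sing (W n) H) atTop (𝓝 S)) :
    ∀ᵐ ω ∂μ, Tendsto (fun x : ℕ => (constCount (growSet W A ω) H x : ℝ) /
      ((x : ℝ) / Real.log (x : ℝ) ^ H.card)) atTop (𝓝 S) := by
  have hd := hW.det H hne hH S hS hlim
  have hdiv : Tendsto (fun x : ℕ => S * ((x : ℝ) / Real.log (x : ℝ) ^ H.card))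
      atTop atTop := (div_log_atTop H.card).const_mul_atTop hS
  obtain ⟨B, hB0, hB⟩ := hW.bdd
  have h1 := iter (Sv.dens (μ := μ) hA hI hP) (gW W) B (gW_nonneg W) (gW_le hB)
    (dens_ae' hW hA hI hP) (fun i n => n + 1 + i)
    (fun i => fun a b hab => by simp only; omega) (fun i => by omega) H
    (fun i _ j _ hij n => by omega) (fun _ => 1) 1 (fun _ => zero_le_one) (fun _ => le_rfl)
    (by simpa using hd.symm.tendsto_atTop hdiv)
  filter_upwards [h1] with ω hω
  simp only [one_mul] at hω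
  have h2 := hω.trans hd
  have h3 : Tendsto (fun x : ℕ => (∑ n ∈ Finset.range x, ∏ i ∈ H,
      ind (growSet W A) (n + 1 + i) ω) / (S * ((x : ℝ) / Real.log (x : ℝ) ^ H.card)))
      atTop (𝓝 1) := by
    have hz : ∀ᶠ x : ℕ in atTop, S * ((x : ℝ) / Real.log (x : ℝ) ^ H.card) ≠ 0 :=
      (hdiv.eventually_gt_atTop 0).mono (fun x hx => hx.ne')
    exact (isEquivalent_iff_tendsto_one hz).1 h2
  have h4 := h3.const_mul S
  rw [mul_one] at h4
  refine h4.congr (fun x => ?_)
  rw [constCount_eq]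
  rw [← mul_div_assoc, mul_div_mul_left _ _ hS.ne']

/-- **Theorem.** The prime tuples law in the sieve of level `W`. -/
theorem tuple_all' (hW : Good W) (hA : ∀ m n, MeasurableSet (A m n))
    (hI : iIndepSet (fun q : ℕ × ℕ => A q.1 q.2) μ)
    (hP : ∀ m n, W n < m → m < n → μ.real (A m n) = 1 / m) :
    ∀ᵐ ω ∂μ, ∀ H : Finset ℕ, H.Nonempty → (∀ p, p.Prime → (∃ n, p ≤ W n) → nu H p < p) →
      Tendsto (fun x : ℕ => (constCount (growSet W A ω) H x : ℝ) /
        (sing (W x) H * ((x : ℝ) / Real.log (x : ℝ) ^ H.card))) atTop (𝓝 1) ∧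
      {n | ∀ h ∈ H, n + h ∈ growSet W A ω}.Infinite := by
  rw [ae_all_iff]
  intro H
  by_cases h : H.Nonempty ∧ ∀ p, p.Prime → (∃ n, p ≤ W n) → nu H p < p
  · obtain ⟨S, hS, hlim⟩ := hW.sing H h.2
    filter_upwards [tuple_ae' hW hA hI hP H h.1 h.2 S hS hlim] with ω hω _ _
    refine ⟨?_, infinite_of_tendsto hS hω⟩
    have h1 := hω.div hlim hS.ne'
    rw [div_self hS.ne'] at h1
    refine h1.congr (fun x => ?_)
    simp only [Pi.div_apply]
    rw [div_div, mul_comm (sing (W x) H)]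
  · refine ae_of_all _ (fun ω h1 h2 => absurd ⟨h1, h2⟩ h)

/-- **Theorem.** If the level tends to infinity, the constants are those of Hardy and
Littlewood. -/
theorem tuple_hl' (hW : Good W) (ht : Tendsto W atTop atTop)
    (hA : ∀ m n, MeasurableSet (A m n))
    (hI : iIndepSet (fun q : ℕ × ℕ => A q.1 q.2) μ)
    (hP : ∀ m n, W n < m → m < n → μ.real (A m n) = 1 / m) :
    ∀ᵐ ω ∂μ, ∀ H : Finset ℕ, H.Nonempty → (∀ p, p.Prime → nu H p < p) →
      Tendsto (fun x : ℕ => (constCount (growSet W A ω) H x : ℝ) /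
        ((x : ℝ) / Real.log (x : ℝ) ^ H.card)) atTop (𝓝 (∏' p : Nat.Primes, locFac H p)) := by
  rw [ae_all_iff]
  intro H
  by_cases h : H.Nonempty ∧ ∀ p, p.Prime → nu H p < p
  · filter_upwards [tuple_ae' hW hA hI hP H h.1 (fun p hp _ => h.2 p hp) _ (hl_pos H h.2)
      ((sing_tendsto H).comp ht)] with ω hω _ _
    exact hω
  · refine ae_of_all _ (fun ω h1 h2 => absurd ⟨h1, h2⟩ h)

/-- **Theorem.** Mertens' theorem in the sieve of level `W`. -/
theorem mertens' (hW : Good W) (hA : ∀ m n, MeasurableSet (A m n))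
    (hI : iIndepSet (fun q : ℕ × ℕ => A q.1 q.2) μ)
    (hP : ∀ m n, W n < m → m < n → μ.real (A m n) = 1 / m) :
    ∀ᵐ ω ∂μ, Tendsto (fun n : ℕ => mertensProd (growSet W A ω) (W n) n *
      (Real.log n * ∏ p ∈ (Finset.range (W n + 1)).filter Nat.Prime, (1 - 1 / (p : ℝ))))
      atTop (𝓝 1) := by
  filter_upwards [mertens_ae' (μ := μ) hW hA hI hP] with ω hω
  refine hω.congr' ?_
  filter_upwards [hW.lt] with n hn
  rw [mertensProd_eq W A ω (by omega), theta_eq, mul_comm (Real.log (n : ℝ))]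

/-! ### the levels -/

/-- a level: nondecreasing, and `W m ≤ C (W n) ^ ((log m / log n) ^ b)` for all large `n` and all
`m ≥ n`, for some `b < 1` and `C` -/
def IsLevel (W : ℕ → ℕ) : Prop :=
  Monotone W ∧ ∃ b C : ℝ, b < 1 ∧ ∀ᶠ n : ℕ in atTop, ∀ m : ℕ, n ≤ m →
    (W m : ℝ) ≤ C * (W n : ℝ) ^ ((Real.log m / Real.log n) ^ b)

theorem ev_const_of_not_top (hm : Monotone W) (h : ¬ Tendsto W atTop atTop) :
    ∃ w, ∀ᶠ n in atTop, W n = w := by
  have h1 : ∃ B, ∀ n, W n ≤ B := by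
    by_contra hcon
    push Not at hcon
    apply h
    apply tendsto_atTop_atTop.2
    intro B
    obtain ⟨n, hn⟩ := hcon B
    exact ⟨n, fun m hm' => hn.le.trans (hm hm')⟩
  obtain ⟨B, hB⟩ := h1
  have h2 : (Set.range W).Finite := (Set.finite_Iic B).subset (by
    rintro _ ⟨n, rfl⟩
    exact hB n)
  obtain ⟨w, ⟨n0, hn0⟩, hw⟩ := Set.exists_max_image (Set.range W) id h2 ⟨W 0, 0, rfl⟩
  refine ⟨w, ?_⟩
  filter_upwards [eventually_ge_atTop n0] with n hn
  apply le_antisymm
  · exact hw (W n) ⟨n, rfl⟩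
  · rw [← hn0]; exact hm hn

theorem lev_of_const {w : ℕ} (hm : Monotone W) (hw : ∀ᶠ n in atTop, W n = w) : Lev W where
  mono := hm
  small := by
    filter_upwards [hw, tlog.eventually_ge_atTop (2 * w)] with n h1 h2
    rw [h1]; exact h2
  dbl := by
    refine ⟨1, ?_⟩
    have h1 : Tendsto (fun n : ℕ => n ^ 2) atTop atTop := tendsto_pow_atTop (by norm_num)
    filter_upwards [hw, h1.eventually hw] with n h2 h3
    rw [h2, h3, one_mul]

theorem reg_of_level (h : IsLevel W) (ht : Tendsto W atTop atTop) : ∃ b C : ℝ, Reg W b C := by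
  obtain ⟨hm, b, C, hb, hC⟩ := h
  refine ⟨max b (1 / 2), max C 1, hm, ht, ?_, ?_, le_max_right _ _, ?_⟩
  · exact lt_of_lt_of_le (by norm_num) (le_max_right _ _)
  · exact max_lt hb (by norm_num)
  · filter_upwards [hC, eventually_ge_atTop 3, ht.eventually_ge_atTop 1] with n h1 h2 h3
    intro m hm'
    refine (h1 m hm').trans ?_
    have h4 : (1 : ℝ) ≤ W n := by exact_mod_cast h3
    have h5 : (3 : ℝ) ≤ n := by exact_mod_cast h2
    have h6 : 0 < Real.log (n : ℝ) := Real.log_pos (by linarith)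
    have h7 : Real.log (n : ℝ) ≤ Real.log m :=
      Real.log_le_log (by linarith) (by exact_mod_cast hm')
    have h8 : 1 ≤ Real.log (m : ℝ) / Real.log n := by rw [le_div_iff₀ h6]; linarith
    have h9 : (Real.log (m : ℝ) / Real.log n) ^ b ≤
        (Real.log (m : ℝ) / Real.log n) ^ (max b (1 / 2)) :=
      Real.rpow_le_rpow_of_exponent_le h8 (le_max_left _ _)
    have h10 := Real.rpow_le_rpow_of_exponent_le h4 h9
    have h11 : 0 ≤ (W n : ℝ) ^ ((Real.log m / Real.log n) ^ b) :=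
      Real.rpow_nonneg (by linarith) _
    calc C * (W n : ℝ) ^ ((Real.log m / Real.log n) ^ b)
        ≤ max C 1 * (W n : ℝ) ^ ((Real.log m / Real.log n) ^ b) :=
          mul_le_mul_of_nonneg_right (le_max_left _ _) h11
      _ ≤ max C 1 * (W n : ℝ) ^ ((Real.log m / Real.log n) ^ (max b (1 / 2))) :=
          mul_le_mul_of_nonneg_left h10 (le_trans zero_le_one (le_max_right _ _))

/-- every level is good -/
theorem good_level (X : HX) (h : IsLevel W) : Good W := by
  by_cases ht : Tendsto W atTop atTop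
  · obtain ⟨b, C, hR⟩ := reg_of_level h ht
    exact good_reg X hR
  · obtain ⟨w, hw⟩ := ev_const_of_not_top h.1 ht
    exact good_lev (lev_of_const h.1 hw)

end Pool.Agent.Lib.MP_3efbeb_nt.GU
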