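import Pool.Agent.Lib.MP_3efbeb_nt.GU.Spec

/-! # MP_3efbeb_nt, GU, module PSE (helper67): the compensator and the integral of the slope -/

set_option autoImplicit false

open Filter Topology Asymptotics

namespace Pool.Agent.Lib.MP_3efbeb_nt.GU

open Pool.Agent.Lib.MP_926cc3_nt.RS Pool.Agent.Lib.MP_3efbeb_nt.RST
  Pool.Agent.Lib.MP_3efbeb_nt.GL

namespace PSEM

theorem lt_self {W : ℕ → ℕ} (hW : Tame W) : ∀ᶠ n : ℕ in atTop, W n < n := by
  obtain ⟨N, hN⟩ := eventually_atTop.1 (hW.pow 1 1 one_pos)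
  filter_upwards [eventually_ge_atTop (2 * N + 2)] with n hn
  have h1 := hN ((n + 1) / 2) (by omega)
  have h2 : W n ≤ W (2 * ((n + 1) / 2)) := hW.mono (by omega)
  have h3 : (W n : ℝ) ≤ Real.sqrt ((n + 1) / 2 : ℕ) := by
    have : (W n : ℝ) ≤ W (2 * ((n + 1) / 2)) := by exact_mod_cast h2
    rw [pow_one, one_mul] at h1
    exact this.trans h1
  have h4 : Real.sqrt ((n + 1) / 2 : ℕ) < n := by
    have h5 : (((n + 1) / 2 : ℕ) : ℝ) ≤ n := by exact_mod_cast (by omega : (n + 1) / 2 ≤ n)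
    have h6 : (2 : ℝ) ≤ n := by exact_mod_cast (by omega : 2 ≤ n)
    rw [Real.sqrt_lt' (by linarith)]
    nlinarith
  exact_mod_cast h3.trans_lt h4

theorem SS_top (hUAT : SpecUAT) {W : ℕ → ℕ} {E : ℕ → ℝ} (hW : Tame W) (h : EBase E) :
    Tendsto (SS W E) atTop atTop := by
  refine tendsto_atTop_mono' _ ?_ (hUAT W hW)
  filter_upwards [eventually_ge_atTop 1] with n hn
  have h1 := h.diff_low hW.mono (le_refl 1) hn
  have h2 : 0 ≤ SS W E 1 := by
    unfold SS
    exact Finset.sum_nonneg (fun i _ => div_nonneg (h.kap_pos _).le (Nat.cast_nonneg _))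
  have h3 := h.one_le (W 1)
  have h4 : 0 ≤ Path.theta (W n) * Real.log n :=
    mul_nonneg (Path.theta_pos _).le (Real.log_natCast_nonneg n)
  simp only [Nat.cast_one, Real.log_one, sub_zero] at h1
  nlinarith

/-- the elementary comparison -/
theorem cmp {e K x y i n : ℝ} (he0 : 0 < e) (he1 : e ≤ 1) (hK : 0 < K) (hi : 0 < i) (hn : 0 < n)
    (hin : i ≤ n) (hin' : (1 - e / 8) * n ≤ i) (hx : |x - K| ≤ e / 8 * K) (hy : |y - K| ≤ e / 8 * K) :
    |x / i - y / n| ≤ e * (y / n) := by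
  rw [abs_le] at hx hy
  have hy0 : 0 < y := by nlinarith
  have hx0 : 0 < x := by nlinarith
  rw [abs_le]
  constructor
  · have h1 : (1 - e) * (y / n) ≤ x / i := by
      have h2 : x / n ≤ x / i := div_le_div_of_nonneg_left hx0.le hi hin
      refine le_trans ?_ h2
      rw [← mul_div_assoc]
      apply div_le_div_of_nonneg_right _ hn.le
      nlinarith
    linarith
  · have h1 : x / i ≤ (1 + e) * (y / n) := by
      rw [← mul_div_assoc, div_le_div_iff₀ hi hn]
      have h2 : x ≤ (1 + e / 8) * K := by linarith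
      have h3 : (1 - e / 8) * K ≤ y := by linarith
      have h4 : x * n ≤ (1 + e / 8) * K * n := mul_le_mul_of_nonneg_right h2 hn.le
      have h5 : (1 + e) * ((1 - e / 8) * K) * ((1 - e / 8) * n) ≤ (1 + e) * y * i := by
        apply mul_le_mul
        · exact mul_le_mul_of_nonneg_left h3 (by linarith)
        · exact hin'
        · apply mul_nonneg <;> linarith
        · positivity
      have h6 : (1 + e / 8) ≤ (1 + e) * (1 - e / 8) * (1 - e / 8) := by
        have h7 : (1 + e) * (1 - e / 8) * (1 - e / 8) - (1 + e / 8) =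
            e * (5 / 8 - 15 / 64 * e) + e ^ 3 / 64 := by ring
        have h8 : 0 ≤ e * (5 / 8 - 15 / 64 * e) := mul_nonneg he0.le (by linarith)
        have h9 : 0 ≤ e ^ 3 / 64 := by positivity
        linarith
      have hKn : 0 < K * n := mul_pos hK hn
      calc x * n ≤ (1 + e / 8) * (K * n) := by linarith
        _ ≤ (1 + e) * (1 - e / 8) * (1 - e / 8) * (K * n) :=
          mul_le_mul_of_nonneg_right h6 hKn.le
        _ = (1 + e) * ((1 - e / 8) * K) * ((1 - e / 8) * n) := by ring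
        _ ≤ _ := h5
    linarith

theorem last (hKOS : SpecKOS) {W : ℕ → ℕ} {E : ℕ → ℝ} (hW : Tame W) (h : EBase E) (hS : EStep W E)
    (e : ℝ) (he : 0 < e) : ∃ M : ℕ, 2 ≤ M ∧ ∀ᶠ n : ℕ in atTop, ∀ i ∈ Finset.Ico (n - n / M) n,
      |kap W E (i + 1) / i - kap W E (n + 1) / n| ≤ e * (kap W E (n + 1) / n) := by
  set e' := min e 1 with he'
  have he0 : 0 < e' := lt_min he one_pos
  have he1 : e' ≤ 1 := min_le_right _ _
  obtain ⟨M, hM⟩ := exists_nat_ge (8 / e')
  refine ⟨M + 2, by omega, ?_⟩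
  obtain ⟨N, hN⟩ := eventually_atTop.1 (hKOS W hW E h hS (e' / 8) (by positivity))
  filter_upwards [eventually_ge_atTop (2 * N + 2)] with n hn i hi
  rw [Finset.mem_Ico] at hi
  have hM2 : n / (M + 2) ≤ n / 2 := Nat.div_le_div_left (by omega) (by norm_num)
  set m := n - n / 2 + 1 with hm
  have hKm := h.kap_pos (W := W) m
  have h1 := hN m (by omega) (i + 1) (by omega) (by omega)
  have h2 := hN m (by omega) (n + 1) (by omega) (by omega)
  have hi0 : 0 < i := by omega
  have hi0' : (0 : ℝ) < i := by exact_mod_cast hi0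
  have hn0 : (0 : ℝ) < n := by exact_mod_cast (by omega : 0 < n)
  have hin : (i : ℝ) ≤ n := by exact_mod_cast hi.2.le
  have hin' : (1 - e' / 8) * n ≤ (i : ℝ) := by
    have h3 : ((n / (M + 2) : ℕ) : ℝ) ≤ (n : ℝ) / ((M + 2 : ℕ) : ℝ) := Nat.cast_div_le
    have h4 : (n : ℝ) ≤ i + ((n / (M + 2) : ℕ) : ℝ) := by
      exact_mod_cast (by omega : n ≤ i + n / (M + 2))
    have h5 : (n : ℝ) / ((M + 2 : ℕ) : ℝ) ≤ e' / 8 * n := by
      rw [div_le_iff₀ (by positivity)]
      push_cast
      have h6 : 8 ≤ (M : ℝ) * e' := by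
        rw [div_le_iff₀ he0] at hM
        exact hM
      nlinarith
    linarith
  have h7 := cmp he0 he1 hKm hi0' hn0 hin hin' h1 h2
  refine h7.trans (mul_le_mul_of_nonneg_right (min_le_left _ _) ?_)
  exact div_nonneg (h.kap_pos _).le hn0.le

theorem near (hRAV : SpecRAV) (hKOS : SpecKOS) (hAVG : SpecAVG) {W : ℕ → ℕ} {E : ℕ → ℝ}
    (hW : Tame W) (h : EBase E) (hS : EStep W E) (e : ℝ) (he : 0 < e) :
    ∃ K : ℝ, ∀ n : ℕ, |PP W E n - SS W E n| ≤ e * SS W E n + K := by
  obtain ⟨K, hK⟩ := hAVG (fun i => rho W (i + 1) / Path.theta (W (i + 1)))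
    (fun i => kap W E (i + 1) / i)
    (fun i => div_nonneg (rho_nonneg _ _) (Path.theta_pos _).le)
    (fun i => div_nonneg (h.kap_pos _).le (Nat.cast_nonneg _))
    (fun M hM η hη => hRAV W hW M hM η hη)
    (fun e he => last hKOS hW h hS e he) e he
  obtain ⟨n0, hn0⟩ := eventually_atTop.1 (lt_self hW)
  set D : ℕ → ℝ := fun i => rho W (i + 1) * E (min (W (i + 1)) i) / i -
    rho W (i + 1) * E (W (i + 1)) / i with hD
  refine ⟨K + ∑ i ∈ Finset.range n0, |D i|, fun n => ?_⟩
  have e1 : PP W E n - SS W E n = (∑ i ∈ Finset.range n,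
      (rho W (i + 1) / Path.theta (W (i + 1)) - 1) * (kap W E (i + 1) / i)) +
      ∑ i ∈ Finset.range n, D i := by
    unfold PP SS
    rw [← Finset.sum_sub_distrib, ← Finset.sum_add_distrib]
    refine Finset.sum_congr rfl (fun i _ => ?_)
    have hθ := (Path.theta_pos (W (i + 1))).ne'
    have e2 : (rho W (i + 1) / Path.theta (W (i + 1)) - 1) * (kap W E (i + 1) / i) =
        rho W (i + 1) * E (W (i + 1)) / i - kap W E (i + 1) / i := by
      unfold kap
      field_simp
    rw [e2, hD]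
    ring
  have e3 : |∑ i ∈ Finset.range n, D i| ≤ ∑ i ∈ Finset.range n0, |D i| := by
    have hz : ∀ i, n0 ≤ i → D i = 0 := by
      intro i hi
      have := hn0 (i + 1) (by omega)
      rw [hD]
      simp only
      rw [min_eq_left (show W (i + 1) ≤ i by omega), sub_self]
    rcases Nat.lt_or_ge n n0 with h1 | h1
    · exact (Finset.abs_sum_le_sum_abs _ _).trans (Finset.sum_le_sum_of_subset_of_nonneg
        (Finset.range_mono h1.le) (fun _ _ _ => abs_nonneg _))
    · rw [← Finset.sum_range_add_sum_Ico _ h1]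
      have h2 : ∑ i ∈ Finset.Ico n0 n, D i = 0 :=
        Finset.sum_eq_zero (fun i hi => hz i (Finset.mem_Ico.1 hi).1)
      rw [h2, add_zero]
      exact Finset.abs_sum_le_sum_abs _ _
  rw [e1]
  refine (abs_add_le _ _).trans ?_
  have h4 := hK n
  have e4 : SS W E n = ∑ i ∈ Finset.range n, kap W E (i + 1) / i := rfl
  rw [e4]
  linarith

end PSEM

open PSEM in
theorem specPSE (hUAT : SpecUAT) (hRAV : SpecRAV) (hKOS : SpecKOS) (hAVG : SpecAVG) : SpecPSE := by
  intro W hW E h hS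
  have hSS := SS_top hUAT hW h
  have hequiv : PP W E ~[atTop] SS W E := by
    refine IsLittleO.of_bound (fun c hc => ?_)
    obtain ⟨K, hK⟩ := near hRAV hKOS hAVG hW h hS (c / 2) (by positivity)
    filter_upwards [hSS.eventually_ge_atTop (2 * K / c), hSS.eventually_ge_atTop 0] with n hn hn0
    rw [Pi.sub_apply, Real.norm_eq_abs, Real.norm_eq_abs, abs_of_nonneg hn0]
    have h1 := hK n
    have h2 : K ≤ c / 2 * SS W E n := by
      rw [div_le_iff₀ hc] at hn
      linarith
    linarith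
  exact ⟨hSS, hequiv.symm.tendsto_atTop hSS, hequiv⟩

end Pool.Agent.Lib.MP_3efbeb_nt.GU
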