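import Pool.Agent.Lib.MP_3efbeb_nt.GU.Main
import Pool.Agent.Lib.MP_3efbeb_nt.GU.Low

/-!
# GU: levels that are powers
-/

set_option autoImplicit false
set_option linter.unusedSectionVars false
set_option linter.unusedVariables false

open Filter Topology MeasureTheory ProbabilityTheory Asymptotics

namespace Pool.Agent.Lib.MP_3efbeb_nt.GU

open Pool.Agent.Lib.MP_926cc3_nt.RS Pool.Agent.Lib.MP_3efbeb_nt.RST
  Pool.Agent.Lib.MP_3efbeb_nt.GL

namespace PITM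

theorem cop_anti {w z : ℕ} (h : w ≤ z) (n : ℕ) : cop z n ≤ cop w n := by
  unfold cop
  by_cases hz : (primorial z).Coprime n
  · have hw : (primorial w).Coprime n :=
      Nat.Coprime.coprime_dvd_left (primorial_dvd_primorial h) hz
    rw [if_pos hz, if_pos hw]
  · rw [if_neg hz]; split_ifs <;> norm_num

variable {W : ℕ → ℕ}

theorem shift_sum (F : ℕ → ℝ) (X : ℕ) :
    ∑ n ∈ Finset.range X, F (n + 1) = ∑ m ∈ Finset.Ioc 0 X, F m := by
  rw [Finset.range_eq_Ico, Finset.sum_Ico_add' F 0 X 1]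
  congr 1

/-- the sum over a dyadic block bounds the sum up to `X` from below -/
theorem low_sum (hmono : Monotone W) (hlt : ∀ᶠ n : ℕ in atTop, W n + 1 < n) (H : Finset ℕ)
    (φ ψ : ℕ → ℝ) (hφ : ∀ n, 0 ≤ φ n) (hψ : ∀ n, 0 ≤ ψ n)
    (hφψ : ∀ᶠ x : ℕ in atTop, ∀ m, x < m → m ≤ 4 * x → ψ x ≤ φ m) (z0 : ℕ) :
    ∀ᶠ X : ℕ in atTop, (∑ m ∈ Finset.Ioc (X / 2) (2 * (X / 2)), chi (max (W (2 * X)) z0) H m) *
      ψ (X / 2) ^ H.card ≤
      ∑ n ∈ Finset.range X, ∏ h ∈ H, rho W (n + 1 + h) * φ (n + 1 + h) := by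
  obtain ⟨M, hM⟩ : ∃ M, ∀ h ∈ H, h ≤ M := ⟨H.sup id, fun h hh => Finset.le_sup (f := id) hh⟩
  obtain ⟨n1, hn1⟩ := eventually_atTop.1 hlt
  obtain ⟨n2, hn2⟩ := eventually_atTop.1 hφψ
  filter_upwards [eventually_ge_atTop (2 * (n1 + n2 + M + 3))] with X hX
  set x := X / 2 with hx
  set z := max (W (2 * X)) z0 with hz
  set F : ℕ → ℝ := fun m => ∏ h ∈ H, rho W (m + h) * φ (m + h) with hF
  have hF0 : ∀ m, 0 ≤ F m := fun m => Finset.prod_nonneg (fun h _ =>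
    mul_nonneg (rho_nonneg W _) (hφ _))
  have e1 : ∑ n ∈ Finset.range X, ∏ h ∈ H, rho W (n + 1 + h) * φ (n + 1 + h) =
      ∑ m ∈ Finset.Ioc 0 X, F m := shift_sum F X
  rw [e1, Finset.sum_mul]
  refine le_trans (Finset.sum_le_sum (f := _) (g := F) ?_)
    (Finset.sum_le_sum_of_subset_of_nonneg ?_ (fun m _ _ => hF0 m))
  · intro m hm
    rw [Finset.mem_Ioc] at hm
    rw [hF]
    simp only
    unfold chi
    rw [← Finset.prod_const, ← Finset.prod_mul_distrib]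
    apply Finset.prod_le_prod
    · intro h _
      exact mul_nonneg (Sieve.cop_nonneg _) (hψ _)
    · intro h hh
      have h1 := hM h hh
      have h2 : ψ x ≤ φ (m + h) := hn2 x (by omega) (m + h) (by omega) (by omega)
      have h3 : W (m + h) + 1 < m + h := hn1 (m + h) (by omega)
      have h4 : W (m + h) ≤ z := (hmono (by omega)).trans (le_max_left _ _)
      rw [rho_eq (by omega) (by omega)]
      exact mul_le_mul (cop_anti h4 _) h2 (hψ _) (Sieve.cop_nonneg _)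
  · intro m hm
    rw [Finset.mem_Ioc] at hm ⊢
    omega

theorem z_small {A z0 : ℕ} (hA : 1 ≤ A) (hW : ∀ᶠ n : ℕ in atTop, W n ^ (2 * A) ≤ n) :
    ∀ᶠ X : ℕ in atTop, (max (W (2 * X)) z0) ^ A ≤ X / 2 := by
  have h2 : Tendsto (fun X : ℕ => 2 * X) atTop atTop := tendsto_id.const_mul_atTop' (by omega)
  filter_upwards [h2.eventually hW, eventually_ge_atTop 8, eventually_ge_atTop (2 * z0 ^ A)]
    with X h3 h4 h5
  have h6 : W (2 * X) ^ A ≤ X / 2 := by
    by_contra hcon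
    push Not at hcon
    set y := W (2 * X) ^ A with hy
    have h7 : y ^ 2 ≤ 2 * X := by
      rw [hy, ← pow_mul, mul_comm A 2]; exact h3
    have h8 : X + 1 ≤ 2 * y := by omega
    nlinarith
  have h7 : z0 ^ A ≤ X / 2 := by omega
  rcases le_total (W (2 * X)) z0 with h | h
  · rw [max_eq_right h]; exact h7
  · rw [max_eq_left h]; exact h6

theorem lt_of_pow {A : ℕ} (hA : 1 ≤ A) (hW : ∀ᶠ n : ℕ in atTop, W n ^ (2 * A) ≤ n) :
    ∀ᶠ n : ℕ in atTop, W n + 1 < n := by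
  filter_upwards [hW, eventually_ge_atTop 4] with n h1 h2
  have h3 : W n ^ 2 ≤ n := by
    rcases Nat.eq_zero_or_pos (W n) with h | h
    · rw [h]; omega
    · exact (Nat.pow_le_pow_right h (by omega)).trans h1
  by_contra hcon
  push Not at hcon
  have h4 : n - 1 ≤ W n := by omega
  obtain ⟨m, rfl⟩ : ∃ m, n = m + 1 := ⟨n - 1, by omega⟩
  have h5 : m ≤ W (m + 1) := by omega
  nlinarith

theorem pow_of_rpow {A : ℕ} (hA : 1 ≤ A)
    (hW : ∀ᶠ n : ℕ in atTop, (W n : ℝ) ≤ (n : ℝ) ^ (((2 * A : ℕ) : ℝ)⁻¹)) :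
    ∀ᶠ n : ℕ in atTop, W n ^ (2 * A) ≤ n := by
  filter_upwards [hW] with n h1
  have h2 : ((W n : ℝ)) ^ (2 * A) ≤ ((n : ℝ) ^ (((2 * A : ℕ) : ℝ)⁻¹)) ^ (2 * A) :=
    pow_le_pow_left₀ (Nat.cast_nonneg _) h1 _
  rw [Real.rpow_inv_natCast_pow (Nat.cast_nonneg _) (by omega)] at h2
  exact_mod_cast h2

/-- the number of constellations of rough numbers, weighted, is large -/
theorem low_count {A z0 : ℕ} (hA : 1 ≤ A) (hmono : Monotone W)
    (hW : ∀ᶠ n : ℕ in atTop, W n ^ (2 * A) ≤ n) (H : Finset ℕ) {c1 : ℝ} (hc1 : 0 < c1)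
    (hP : ∀ z x : ℕ, z0 ≤ z → z ^ A ≤ x →
      c1 * (x / Real.log (z : ℝ) ^ H.card) ≤ ∑ n ∈ Finset.Ioc x (2 * x), chi z H n)
    (φ ψ : ℕ → ℝ) (hφ : ∀ n, 0 ≤ φ n) (hψ : ∀ n, 0 ≤ ψ n)
    (hφψ : ∀ᶠ x : ℕ in atTop, ∀ m, x < m → m ≤ 4 * x → ψ x ≤ φ m) :
    ∃ c : ℝ, 0 < c ∧ ∀ᶠ X : ℕ in atTop,
      c * (X * (ψ (X / 2) / Real.log ((W (2 * X) : ℝ) + 2)) ^ H.card) ≤
      ∑ n ∈ Finset.range X, ∏ h ∈ H, rho W (n + 1 + h) * φ (n + 1 + h) := by
  set z1 := z0 + 3 with hz1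
  set D : ℝ := 1 + Real.log ((z1 : ℝ) + 2) / Real.log 2 with hD
  have hl2 : 0 < Real.log 2 := Real.log_pos (by norm_num)
  have hlz : 0 ≤ Real.log ((z1 : ℝ) + 2) := Real.log_nonneg (by
    have : (0 : ℝ) ≤ z1 := Nat.cast_nonneg _
    linarith)
  have hD1 : 1 ≤ D := by
    have : 0 ≤ Real.log ((z1 : ℝ) + 2) / Real.log 2 := div_nonneg hlz hl2.le
    rw [hD]; linarith
  refine ⟨c1 / (3 * D ^ H.card), by positivity, ?_⟩
  filter_upwards [low_sum hmono (lt_of_pow hA hW) H φ ψ hφ hψ hφψ z1,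
    z_small (z0 := z1) hA hW, eventually_ge_atTop 3] with X h1 h2 h3
  refine le_trans ?_ h1
  set z := max (W (2 * X)) z1 with hz
  have hz3 : z1 ≤ z := le_max_right _ _
  have h4 := hP z (X / 2) (by omega) h2
  have h5 : (X : ℝ) / 3 ≤ ((X / 2 : ℕ) : ℝ) := by
    have h6 : X ≤ 3 * (X / 2) := by omega
    have h7 : (X : ℝ) ≤ 3 * ((X / 2 : ℕ) : ℝ) := by exact_mod_cast h6
    linarith
  have hz3' : (3 : ℝ) ≤ z := by exact_mod_cast (by omega : 3 ≤ z)
  have hlogz : 0 < Real.log (z : ℝ) := Real.log_pos (by linarith)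
  have hw0 : (0 : ℝ) ≤ W (2 * X) := Nat.cast_nonneg _
  have hz10 : (0 : ℝ) ≤ z1 := Nat.cast_nonneg _
  have hlw : Real.log 2 ≤ Real.log ((W (2 * X) : ℝ) + 2) :=
    Real.log_le_log (by norm_num) (by linarith)
  have h6 : Real.log (z : ℝ) ≤ D * Real.log ((W (2 * X) : ℝ) + 2) := by
    have h7 : (z : ℝ) ≤ ((W (2 * X) : ℝ) + 2) * ((z1 : ℝ) + 2) := by
      rw [hz]
      push_cast
      apply max_le
      · nlinarith
      · nlinarith
    have h8 := Real.log_le_log (by linarith) h7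
    rw [Real.log_mul (by linarith) (by linarith)] at h8
    refine h8.trans ?_
    rw [hD, add_mul, one_mul]
    have h9 : Real.log ((z1 : ℝ) + 2) ≤
        Real.log ((z1 : ℝ) + 2) / Real.log 2 * Real.log ((W (2 * X) : ℝ) + 2) := by
      rw [div_mul_eq_mul_div, le_div_iff₀ hl2]
      exact mul_le_mul_of_nonneg_left hlw hlz
    linarith
  have hψ0 := hψ (X / 2)
  have hLw : 0 < Real.log ((W (2 * X) : ℝ) + 2) := by linarith
  have h7 : 1 / (D * Real.log ((W (2 * X) : ℝ) + 2)) ^ H.card ≤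
      1 / Real.log (z : ℝ) ^ H.card := by
    apply one_div_le_one_div_of_le (pow_pos hlogz _)
    exact pow_le_pow_left₀ hlogz.le h6 _
  calc c1 / (3 * D ^ H.card) *
        (X * (ψ (X / 2) / Real.log ((W (2 * X) : ℝ) + 2)) ^ H.card)
      = c1 * ((X : ℝ) / 3 * (1 / (D * Real.log ((W (2 * X) : ℝ) + 2)) ^ H.card)) *
          ψ (X / 2) ^ H.card := by
        rw [div_pow, mul_pow]
        field_simp
    _ ≤ c1 * (((X / 2 : ℕ) : ℝ) * (1 / Real.log (z : ℝ) ^ H.card)) * ψ (X / 2) ^ H.card := by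
        apply mul_le_mul_of_nonneg_right _ (pow_nonneg hψ0 _)
        apply mul_le_mul_of_nonneg_left _ hc1.le
        apply mul_le_mul h5 h7 (by positivity) (Nat.cast_nonneg _)
    _ = c1 * (((X / 2 : ℕ) : ℝ) / Real.log (z : ℝ) ^ H.card) * ψ (X / 2) ^ H.card := by
        rw [mul_one_div]
    _ ≤ _ := mul_le_mul_of_nonneg_right h4 (pow_nonneg hψ0 _)

/-- infinitely many constellations -/
theorem infinite_of_top {R : Set ℕ} {H : Finset ℕ}
    (h : Tendsto (fun x : ℕ => (constCount R H x : ℝ)) atTop atTop) :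
    {n : ℕ | ∀ h ∈ H, n + h ∈ R}.Infinite := by
  intro hfin
  have h2 : ∀ x, (constCount R H x : ℝ) ≤ ({n : ℕ | ∀ h ∈ H, n + h ∈ R}.ncard : ℝ) := by
    intro x
    have h3 : {n : ℕ | 1 ≤ n ∧ n ≤ x ∧ ∀ h ∈ H, n + h ∈ R} ⊆ {n : ℕ | ∀ h ∈ H, n + h ∈ R} :=
      fun n hn => hn.2.2
    exact_mod_cast Set.ncard_le_ncard h3 hfin
  obtain ⟨x, hx⟩ := (h.eventually_gt_atTop
    ({n : ℕ | ∀ h ∈ H, n + h ∈ R}.ncard : ℝ)).exists
  exact absurd (h2 x) (not_le.2 hx)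

variable {Ω : Type*} [m0 : MeasurableSpace Ω] {μ : Measure Ω} [IsProbabilityMeasure μ]
  {A : ℕ → ℕ → Set Ω}

theorem dW_eq {n : ℕ} (h1 : W n + 1 < n) (ω : Ω) :
    dW W A n ω = rho W n * (K W A (W n) ω / K W A (n - 1) ω) := by
  obtain ⟨m, rfl⟩ : ∃ m, n = m + 1 := ⟨n - 1, by omega⟩
  have h4 := KM.K_dW (W := W) (A := A) m ω
  rw [min_eq_left (by omega)] at h4
  have h5 := (KM.K_pos (W := W) (A := A) m ω).ne'
  rw [show m + 1 - 1 = m by omega, mul_div_assoc', ← h4]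
  field_simp

/-- the predictable density is at least `rho / (2 log n)` -/
theorem dens_low (hPPD : SpecPPD) (hPLD : SpecPLD) (hmono : Monotone W)
    (hlt : ∀ᶠ n : ℕ in atTop, W n + 1 < n) (hA : ∀ m n, MeasurableSet (A m n))
    (hI : iIndepSet (fun q : ℕ × ℕ => A q.1 q.2) μ)
    (hP : ∀ m n, W n < m → m < n → μ.real (A m n) = 1 / m) :
    ∀ᵐ ω ∂μ, ∀ᶠ n : ℕ in atTop, rho W n * (1 / (2 * Real.log (n : ℝ))) ≤ dW W A n ω := by
  filter_upwards [KM.main hA (Sv.dens (μ := μ) hA hI hP)] with ω hω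
  have hE := ebase W A ω
  have h1 := hPLD W _ hmono hE (hω (hPPD W _ hE))
  filter_upwards [h1, hlt] with n h2 h3
  rw [dW_eq h3]
  exact mul_le_mul_of_nonneg_left h2 (rho_nonneg W n)

/-- the predictable density is at least `c rho` for large levels -/
theorem dens_low2 {c : ℝ} {ω : Ω}
    (h : ∀ᶠ n : ℕ in atTop, c ≤ K W A (W n) ω / K W A (n - 1) ω)
    (hlt : ∀ᶠ n : ℕ in atTop, W n + 1 < n) :
    ∀ᶠ n : ℕ in atTop, rho W n * c ≤ dW W A n ω := by
  filter_upwards [h, hlt] with n h2 h3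
  rw [dW_eq h3]
  exact mul_le_mul_of_nonneg_left h2 (rho_nonneg W n)

theorem sqrt_o (k : ℕ) :
    (fun x : ℕ => Real.sqrt (x : ℝ)) =o[atTop] (fun x : ℕ => (x : ℝ) / Real.log (x : ℝ) ^ k) := by
  have h2 : (fun t : ℝ => Real.log t ^ k) =o[atTop] (fun t : ℝ => t ^ (1 / 2 : ℝ)) := by
    have h := isLittleO_log_rpow_rpow_atTop (k : ℝ) (show (0 : ℝ) < 1 / 2 by norm_num)
    refine h.congr_left (fun t => ?_)
    exact Real.rpow_natCast _ _
  have h3 := h2.comp_tendsto tendsto_natCast_atTop_atTop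
  rw [isLittleO_iff] at h3 ⊢
  intro ε hε
  filter_upwards [h3 hε, eventually_ge_atTop 3] with x hx hx3
  simp only [Function.comp] at hx
  have hx0 : (3 : ℝ) ≤ x := by exact_mod_cast hx3
  have hl : 0 < Real.log (x : ℝ) := Real.log_pos (by linarith)
  have hlk : 0 < Real.log (x : ℝ) ^ k := pow_pos hl k
  rw [Real.norm_of_nonneg hlk.le, Real.norm_of_nonneg (by positivity), ← Real.sqrt_eq_rpow] at hx
  rw [Real.norm_of_nonneg (Real.sqrt_nonneg _), Real.norm_of_nonneg (by positivity),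
    ← mul_div_assoc, le_div_iff₀ hlk]
  have h5 : Real.sqrt (x : ℝ) * Real.sqrt x = x := Real.mul_self_sqrt (by linarith)
  calc Real.sqrt (x : ℝ) * Real.log (x : ℝ) ^ k
      ≤ Real.sqrt (x : ℝ) * (ε * Real.sqrt (x : ℝ)) :=
        mul_le_mul_of_nonneg_left hx (Real.sqrt_nonneg _)
    _ = ε * (Real.sqrt (x : ℝ) * Real.sqrt x) := by ring
    _ = ε * x := by rw [h5]

/-- summation over dyadic blocks -/
theorem dyadic {F : ℕ → ℝ} (hF : ∀ m, 0 ≤ F m) {B : ℝ} {x0 : ℕ} (h1 : 1 ≤ x0)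
    (h : ∀ x : ℕ, x0 ≤ x → ∑ m ∈ Finset.Ioc x (2 * x), F m ≤ B * x) :
    ∀ X : ℕ, ∑ m ∈ Finset.Ioc x0 X, F m ≤ 3 * B * X := by
  have hx0 : (1 : ℝ) ≤ x0 := by exact_mod_cast h1
  have hB : 0 ≤ B := by
    have h2 := h x0 le_rfl
    have h3 : 0 ≤ ∑ m ∈ Finset.Ioc x0 (2 * x0), F m := Finset.sum_nonneg (fun m _ => hF m)
    by_contra hcon
    push Not at hcon
    nlinarith
  intro X
  induction X using Nat.strong_induction_on with
  | _ X ih =>
    have hX0 : (0 : ℝ) ≤ X := Nat.cast_nonneg _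
    rcases Nat.le_total X x0 with h2 | h2
    · rw [Finset.Ioc_eq_empty (by omega), Finset.sum_empty]
      positivity
    · rcases Nat.le_total X (2 * x0) with h3 | h3
      · have h4 : ∑ m ∈ Finset.Ioc x0 X, F m ≤ ∑ m ∈ Finset.Ioc x0 (2 * x0), F m :=
          Finset.sum_le_sum_of_subset_of_nonneg (Finset.Ioc_subset_Ioc_right h3)
            (fun m _ _ => hF m)
        have h5 := h x0 le_rfl
        have h6 : (x0 : ℝ) ≤ X := by exact_mod_cast h2
        nlinarith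
      · set x := (X + 1) / 2 with hx
        have h4 : x0 ≤ x := by omega
        have h5 : x < X := by omega
        have h6 := ih x h5
        have h7 : ∑ m ∈ Finset.Ioc x X, F m ≤ ∑ m ∈ Finset.Ioc x (2 * x), F m :=
          Finset.sum_le_sum_of_subset_of_nonneg (Finset.Ioc_subset_Ioc_right (by omega))
            (fun m _ _ => hF m)
        have h8 := h x h4
        have h9 : ∑ m ∈ Finset.Ioc x0 X, F m = ∑ m ∈ Finset.Ioc x0 x, F m +
            ∑ m ∈ Finset.Ioc x X, F m := (Finset.sum_Ioc_consecutive _ h4 h5.le).symm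
        have h10 : 2 * (x : ℝ) ≤ X + 1 := by exact_mod_cast (by omega : 2 * x ≤ X + 1)
        have h11 : (2 : ℝ) ≤ X := by exact_mod_cast (by omega : 2 ≤ X)
        rw [h9]
        nlinarith

theorem rho_le_cop {w m : ℕ} (h2 : 2 ≤ m) (hW : W m < m) (hw : w ≤ W m) :
    rho W m ≤ cop w m := by
  rw [rho_eq h2 hW]
  exact cop_anti hw m

/-- upper bound for the number of the constellations of rough numbers -/
theorem up_count {A z0 : ℕ} (hA : 1 ≤ A) (hmono : Monotone W)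
    (hW : ∀ᶠ n : ℕ in atTop, W n ^ (2 * A) ≤ n) {t : ℝ} (ht : 0 < t)
    (hWt : ∀ᶠ n : ℕ in atTop, (n : ℝ) ^ t ≤ W n) (H : Finset ℕ) {c2 : ℝ} (hc2 : 0 < c2)
    (hP : ∀ z x : ℕ, z0 ≤ z → z ^ A ≤ x →
      ∑ n ∈ Finset.Ioc x (2 * x), chi z H n ≤ c2 * (x / Real.log (z : ℝ) ^ H.card)) :
    ∃ c : ℝ, 0 < c ∧ ∀ᶠ X : ℕ in atTop,
      ∑ n ∈ Finset.range X, ∏ h ∈ H, rho W (n + 1 + h) ≤
        c * ((X : ℝ) / Real.log (X : ℝ) ^ H.card) := by
  have htop : Tendsto (fun n : ℕ => (W n : ℝ)) atTop atTop :=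
    tendsto_atTop_mono' _ hWt ((tendsto_rpow_atTop ht).comp tendsto_natCast_atTop_atTop)
  have hs : Tendsto Nat.sqrt atTop atTop := Lev.sqrt_atTop
  obtain ⟨n1, hn1⟩ := eventually_atTop.1 (lt_of_pow hA hW)
  refine ⟨1 + 3 * (c2 * (4 / t) ^ H.card), by positivity, ?_⟩
  filter_upwards [hs.eventually hW, hs.eventually hWt,
    hs.eventually (htop.eventually_ge_atTop ((z0 : ℝ) + 3)), hs.eventually_ge_atTop (n1 + 3),
    (sqrt_o H.card).def (show (0 : ℝ) < 1 by norm_num), eventually_ge_atTop 3]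
    with X h1 h2 h3 h4 h5 h6
  set s := X.sqrt with hsd
  set z := W s with hz
  have hX3 : (3 : ℝ) ≤ X := by exact_mod_cast h6
  have hlX : 0 < Real.log (X : ℝ) := Real.log_pos (by linarith)
  rw [one_mul, Real.norm_of_nonneg (Real.sqrt_nonneg _), Real.norm_of_nonneg (by positivity)] at h5
  have hz0 : z0 + 3 ≤ z := by exact_mod_cast h3
  have hzA : z ^ A ≤ s := (Nat.pow_le_pow_right (by omega) (by omega)).trans h1
  have hz3 : (3 : ℝ) ≤ z := by exact_mod_cast (by omega : 3 ≤ z)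
  have hlogz : 0 < Real.log (z : ℝ) := Real.log_pos (by linarith)
  have hdy := dyadic (F := chi z H) (fun m => chi_nonneg _ _ _)
    (B := c2 / Real.log (z : ℝ) ^ H.card) (x0 := s) (by omega) (fun x hx => by
      have h7 := hP z x (by omega) (hzA.trans hx)
      refine h7.trans (le_of_eq ?_)
      ring) X
  have e1 : ∑ n ∈ Finset.range X, ∏ h ∈ H, rho W (n + 1 + h) =
      ∑ m ∈ Finset.Ioc 0 X, ∏ h ∈ H, rho W (m + h) :=
    shift_sum (fun m => ∏ h ∈ H, rho W (m + h)) X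
  have hsX : s ≤ X := Nat.sqrt_le_self X
  rw [e1, ← Finset.sum_Ioc_consecutive _ (Nat.zero_le s) hsX]
  have h7 : ∑ m ∈ Finset.Ioc 0 s, ∏ h ∈ H, rho W (m + h) ≤ s := by
    have : ∑ m ∈ Finset.Ioc 0 s, ∏ h ∈ H, rho W (m + h) ≤ ∑ m ∈ Finset.Ioc 0 s, (1 : ℝ) :=
      Finset.sum_le_sum (fun m _ => Finset.prod_le_one (fun h _ => rho_nonneg W _)
        (fun h _ => rho_le_one W _))
    simpa using this
  have h8 : ∑ m ∈ Finset.Ioc s X, ∏ h ∈ H, rho W (m + h) ≤ ∑ m ∈ Finset.Ioc s X, chi z H m := by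
    apply Finset.sum_le_sum
    intro m hm
    rw [Finset.mem_Ioc] at hm
    unfold chi
    apply Finset.prod_le_prod
    · intro h _
      exact rho_nonneg W _
    · intro h _
      have h9 := hn1 (m + h) (by omega)
      exact rho_le_cop (by omega) (by omega) (hmono (by omega))
  have h9 : (s : ℝ) ≤ (X : ℝ) / Real.log (X : ℝ) ^ H.card := by
    refine le_trans ?_ h5
    apply Real.le_sqrt_of_sq_le
    have := Nat.sqrt_le' X
    exact_mod_cast this
  have hs3 : (3 : ℝ) ≤ s := by exact_mod_cast (by omega : 3 ≤ s)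
  have h10 : Real.log (X : ℝ) / 4 ≤ Real.log (s : ℝ) := by
    have h11 : X < (s + 1) ^ 2 := Nat.lt_succ_sqrt' X
    have h12 : (s + 1) ^ 2 ≤ s ^ 4 := by
      have h13 : s + 1 ≤ s ^ 2 := by nlinarith
      calc (s + 1) ^ 2 ≤ (s ^ 2) ^ 2 := Nat.pow_le_pow_left h13 2
        _ = s ^ 4 := by ring
    have h14 : (X : ℝ) ≤ (s : ℝ) ^ 4 := by exact_mod_cast (h11.le.trans h12)
    have h15 := Real.log_le_log (by linarith) h14
    rw [Real.log_pow] at h15
    push_cast at h15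
    linarith
  have h11 : t / 4 * Real.log (X : ℝ) ≤ Real.log (z : ℝ) := by
    have h12 := Real.log_le_log (Real.rpow_pos_of_pos (by linarith) t) h2
    rw [Real.log_rpow (by linarith)] at h12
    nlinarith
  have h12 : 1 / Real.log (z : ℝ) ^ H.card ≤
      (4 / t) ^ H.card * (1 / Real.log (X : ℝ) ^ H.card) := by
    have h13 : 0 < t / 4 * Real.log (X : ℝ) := by positivity
    have h14 := one_div_le_one_div_of_le (pow_pos h13 H.card) (pow_le_pow_left₀ h13.le h11 H.card)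
    refine h14.trans (le_of_eq ?_)
    rw [mul_pow, div_pow, div_pow]
    field_simp
  have h13 : ∑ m ∈ Finset.Ioc s X, chi z H m ≤
      3 * (c2 * (4 / t) ^ H.card) * ((X : ℝ) / Real.log (X : ℝ) ^ H.card) := by
    refine hdy.trans ?_
    calc 3 * (c2 / Real.log (z : ℝ) ^ H.card) * X
        = 3 * c2 * X * (1 / Real.log (z : ℝ) ^ H.card) := by ring
      _ ≤ 3 * c2 * X * ((4 / t) ^ H.card * (1 / Real.log (X : ℝ) ^ H.card)) :=
          mul_le_mul_of_nonneg_left h12 (by positivity)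
      _ = _ := by ring
  have h14 : 0 ≤ (X : ℝ) / Real.log (X : ℝ) ^ H.card := by positivity
  calc ∑ m ∈ Finset.Ioc 0 s, ∏ h ∈ H, rho W (m + h) + ∑ m ∈ Finset.Ioc s X, ∏ h ∈ H, rho W (m + h)
      ≤ (X : ℝ) / Real.log (X : ℝ) ^ H.card +
        3 * (c2 * (4 / t) ^ H.card) * ((X : ℝ) / Real.log (X : ℝ) ^ H.card) :=
        add_le_add (h7.trans h9) (h8.trans h13)
    _ = _ := by ring

end PITM

end Pool.Agent.Lib.MP_3efbeb_nt.GU
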