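import Pool.Agent.Lib.MP_3efbeb_nt.GU.Defs

/-!
# MP_3efbeb_nt and MP_926cc3_nt: the sieve of growing level, higher levels: Specs with proofs

**Setting.** `growSet W A` is the sieve of Eratosthenes in which the primes up to the level `W n` sieve exactly and the
later kept numbers sieve at random (`GL/Def.lean`). `rho W n` is the indicator of the rough numbers (no prime factor
`≤ W n` except `n` itself), `cop w n` the indicator of `gcd(n, ∏_{p ≤ w} p) = 1`, `θ w = Path.theta w = ∏_{p ≤ w} (1 - 1/p)`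
(`RST.theta_eq`), `E` the reciprocal of the sieving product over all kept numbers (`EBase E`, `EStep W E`),
`kap W E n = θ (W n) E (W n)`, `SS W E n = ∑_{i < n} kap (i+1) / i`, `PP W E n = ∑_{i < n} rho W (i+1) E (min (W (i+1)) i) / i`
(`GL/EAsy.lean`). The landed files `GL/*.lean` treat the levels `W n ≤ (log n)/2`; here `W n` may be as large as
`exp ((log n)^b)`, `b < 1`.

Every module: file `GU/<NAME>.lean`, theorem `specNAME (hXX : SpecXX) .. : SpecNAME` in the namespace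
`Pool.Agent.Lib.MP_3efbeb_nt.GU`, own lemmas in the namespace `Pool.Agent.Lib.MP_3efbeb_nt.GU.<NAME>M`.
-/

set_option autoImplicit false

open Filter Topology Asymptotics

namespace Pool.Agent.Lib.MP_3efbeb_nt.GU

open Pool.Agent.Lib.MP_926cc3_nt.RS Pool.Agent.Lib.MP_3efbeb_nt.RST
  Pool.Agent.Lib.MP_3efbeb_nt.GL

/-! ## Part L: levels -/

/-- **TAM** (120 lines). Fix `n0 ≥ 3` for which `grow` holds. For `m ≥ n0`:
`log W(m) ≤ log C + (log m / log n0)^b log W(n0)` (if `W m ≥ 1`), so `A log W(2n) ≤ K (log 2n)^b + K`, which is at most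
`(log n)/2 + log ε` for large `n` (`isLittleO_rpow_rpow`-type facts, or `x^b ≤ η x` for `x ≥ η^(-1/(1-b))`): `pow`.
`dbl`: for large `n`, `grow` at `n` with `m = 2n`; the exponent is `e = (1 + log 2/log n)^b ≤ 1 + log 2/log n`
(base `≥ 1`, `b ≤ 1`); `W n ≥ 1` and `W n ≤ n` (`pow` with `A = 1`), so `(W n)^e ≤ W n · n^(log 2/log n) = 2 W n`, hence
`W (2n) ≤ 2 C W n`; `c = ⌈2C⌉`. -/
def SpecTAM : Prop := ∀ (W : ℕ → ℕ) (b C : ℝ), Reg W b C → Tame W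

/-- **LMT** (60 lines). `Pool.Agent.Lib.MP_926cc3_nt.TH.specDDE` gives `g` with `IsG g`, and
`Pool.Agent.Lib.MP_926cc3_nt.TH.All.hLIM g hg` (import `Pool.Agent.Lib.MP_926cc3_nt.TH.All`) gives `c > 0` with
`V z log z → c`, `V z = ∏_{p < z} (1 - 1/p)`; compose with `w ↦ w + 1` (`V (w+1) = θ w` by `RST.theta_eq`) and
`log (w+1) / log w → 1`. -/
def SpecLMT : Prop := ∃ c : ℝ, 0 < c ∧
  Tendsto (fun w : ℕ => Path.theta w * Real.log (w : ℝ)) atTop (𝓝 c)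

/-- **THW** (50 lines). `GL.theta_ratio` with `v = W n`, `w = W (2n) ≤ c v` and `GL.theta_anti`
(compare `GL.Lev.theta_sqrt` in `GL/Asy.lean`). -/
def SpecTHW : Prop := ∀ W : ℕ → ℕ, Tame W →
  Tendsto (fun n : ℕ => Path.theta (W (2 * n)) / Path.theta (W n)) atTop (𝓝 1)

/-- **UAT** (60 lines, from LMT). `θ(W n) ≥ (c/2)/log W(n)` for large `n`, and for every `A` `(W n)^A ≤ √n`, i.e.
`log W(n) ≤ log n/(2A)`: so `θ(W n) log n ≥ c A`. -/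
def SpecUAT : Prop := ∀ W : ℕ → ℕ, Tame W →
  Tendsto (fun n : ℕ => Path.theta (W n) * Real.log (n : ℝ)) atTop atTop

/-! ## Part R: averages over the rough numbers -/

/-- **RAV** (120 lines). Use `Gra.window` and `Gra.interval` (`MP_926cc3_nt/RS/Gra.lean`) for the level
`w n = max 2 (W n + 1)`: `|∑_{j ∈ (a,e]} (r (w j) j / V (w j) - 1)| ≤ C exp(-b) (e-a) + 2 C (w e)^(8b+19)` with `a = n - n/M`,
`e = n`. For large `j`: `V (w j) = θ (W j)` and `rho W j = cop (W j) j = r (w j) j` (`GL.rho_eq`; compare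
`GROM.V_lw`, `GROM.noSmall_iff` in `MP_926cc3_nt/TH/GRO.lean`, whose proofs may be copied). Shift the index by one
(`Finset.sum_Ico_add'` or so). Choose `b` with `C exp(-b) ≤ η/2`; the second term is at most `(η/2)(n/M)` for large `n`
by `pow` (`w n ≤ 3 W n`). -/
def SpecRAV : Prop := ∀ W : ℕ → ℕ, Tame W → ∀ M : ℕ, 2 ≤ M → ∀ η : ℝ, 0 < η →
  ∀ᶠ n : ℕ in atTop, |∑ i ∈ Finset.Ico (n - n / M) n,
    (rho W (i + 1) / Path.theta (W (i + 1)) - 1)| ≤ η * ((n / M : ℕ) : ℝ)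

/-- **EMU** (120 lines, from LMT). `1 ≤ E(cw)/E(w) ≤ ∏_{w ≤ i < cw} (1 + rho(i+1)/i) ≤ exp((1/w) ∑_{w ≤ i < cw} rho(i+1))`. For
`j > w` large `rho W j ≤ r z j` with `z = max 2 (W w + 1)` (the primes `≤ W w ≤ W j` do not divide `j`, `W j < j`), and
`Gra.interval` with `b = 0` bounds the sum by `(1+C) c w V(z) + C z^17`; `V z = θ (W w) → 0` (LMT) and `z^17 / w → 0`
(`pow` with `A = 17`). -/
def SpecEMU : Prop := ∀ W : ℕ → ℕ, Tame W → ∀ E : ℕ → ℝ, EBase E → EStep W E →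
  ∀ c : ℕ, 1 ≤ c → Tendsto (fun w : ℕ => E (c * w) / E w) atTop (𝓝 1)

/-- **KOS** (60 lines, from THW, EMU). `kap i / kap n = (θ(W i)/θ(W n)) (E(W i)/E(W n))` lies between
`θ(W 2n)/θ(W n)` and `E(c W n)/E(W n)` (monotonicity, `dbl`). -/
def SpecKOS : Prop := ∀ W : ℕ → ℕ, Tame W → ∀ E : ℕ → ℝ, EBase E → EStep W E →
  ∀ ε : ℝ, 0 < ε → ∀ᶠ n : ℕ in atTop, ∀ i : ℕ, n ≤ i → i ≤ 2 * n →
    |kap W E i - kap W E n| ≤ ε * kap W E n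

/-- **AVG** (120 lines). The averaging lemma. WLOG `ε ≤ 1`; `η = ε/8`, `ε1 = ε/8`, `M` from the last hypothesis for `ε1`. For
`n ≥ N`, `L = n/M ≥ 1`, `n' = n - L < n`: `∑_{[n',n)} (c-1) b = b_n ∑ (c-1) + ∑ (c-1)(b - b_n)`, at most
`b_n (η L + ε1 ∑ (c+1)) ≤ b_n L (η + ε1 (η+2)) ≤ ε (1-ε1) b_n L ≤ ε ∑_{[n',n)} b`. Strong induction on `n` (`n → n'`),
`K = ∑_{i < N} |(c i - 1) b i|`. -/
def SpecAVG : Prop := ∀ c b : ℕ → ℝ, (∀ i, 0 ≤ c i) → (∀ i, 0 ≤ b i) →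
  (∀ M : ℕ, 2 ≤ M → ∀ η : ℝ, 0 < η → ∀ᶠ n : ℕ in atTop,
    |∑ i ∈ Finset.Ico (n - n / M) n, (c i - 1)| ≤ η * ((n / M : ℕ) : ℝ)) →
  (∀ ε : ℝ, 0 < ε → ∃ M : ℕ, 2 ≤ M ∧ ∀ᶠ n : ℕ in atTop, ∀ i ∈ Finset.Ico (n - n / M) n,
    |b i - b n| ≤ ε * b n) →
  ∀ ε : ℝ, 0 < ε → ∃ K : ℝ, ∀ n : ℕ,
    |∑ i ∈ Finset.range n, (c i - 1) * b i| ≤ ε * ∑ i ∈ Finset.range n, b i + K

/-- **PSE** (150 lines, from UAT, RAV, KOS, AVG). `SS → ∞`: `EBase.diff_low` gives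
`SS n ≥ θ(W n) E(W 1) log n ≥ θ(W n) log n` (as in `EBase.SS_atTop`). AVG with `c i = rho W (i+1)/θ(W(i+1))`, `b i = kap(i+1)/i`
(KOS gives the last hypothesis: `b i / b n = (kap(i+1)/kap(n+1)) (n/i)`, `n/i ≤ 1/(1-1/M)`; compare both `kap(i+1)` and
`kap(n+1)` with `kap m`, `m = n - n/2 + 1`, `m ≤ i+1`, `n+1 ≤ 2m`): `|PP - SS| ≤ ε SS + K'` (the finitely many terms
with `min (W (i+1)) i ≠ W (i+1)`, i.e. small `i`, go into `K'`; `W i < i` for large `i` by `pow`). So `PP ~ SS`. -/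
def SpecPSE : Prop := ∀ W : ℕ → ℕ, Tame W → ∀ E : ℕ → ℝ, EBase E → EStep W E →
  Tendsto (SS W E) atTop atTop ∧ Tendsto (PP W E) atTop atTop ∧ PP W E ~[atTop] SS W E

/-! ## Part Q: analysis of the recursion -/

/-- **SMA** (60 lines). Telescoping: for `x = log i ≤ y = log(i+1)`, `y^(1+s) - x^(1+s) ≤ (1+s) y^s (y-x)` and
`y - x ≤ 1/i`. -/
def SpecSMA : Prop := ∀ s : ℝ, 0 ≤ s → ∀ M n : ℕ, 1 ≤ M → M ≤ n →
  (Real.log (n : ℝ) ^ (1 + s) - Real.log (M : ℝ) ^ (1 + s)) / (1 + s) ≤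
    ∑ i ∈ Finset.Ico M n, Real.log ((i + 1 : ℕ) : ℝ) ^ s / i

/-- **SMB** (70 lines). Telescoping: `y^(1-s) - x^(1-s) ≥ (1-s) y^(-s) (y-x)`, `y - x ≥ 1/(i+1)` and
`1/i = (1+1/i)/(i+1) ≤ (1+1/M)/(i+1)`. -/
def SpecSMB : Prop := ∀ s : ℝ, 0 ≤ s → s < 1 → ∀ M n : ℕ, 2 ≤ M → M ≤ n →
  ∑ i ∈ Finset.Ico M n, Real.log ((i + 1 : ℕ) : ℝ) ^ (-s) / i ≤
    (1 + 1 / (M : ℝ)) * Real.log (n : ℝ) ^ (1 - s) / (1 - s)

/-- **GRU** (120 lines). Induction on `j`. Step: `x = k(j+1)/(j S(j+1)) = q(j+1)/(j log(j+1))`, `x ≤ 2/j` (`kle`),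
`S j = S(j+1) (1-x)`, `1/(1-x) ≤ exp(x/(1-x))`, `x/(1-x) ≤ (B/(j log(j+1)))/(1-2/j)`; on the other side
`log(log(j+1)/log j) ≥ 1 - log j/log(j+1) ≥ 1/((j+1) log(j+1))`. So it suffices that `1/(j-2) ≤ (1+ε)/(j+1)`. -/
def SpecGRU : Prop := ∀ (W : ℕ → ℕ) (k S : ℕ → ℝ) (b C : ℝ), QD W k S b C →
  ∀ ε : ℝ, 0 < ε → ∃ N : ℕ, 3 ≤ N ∧ ∀ B : ℝ, 0 ≤ B → ∀ i j : ℕ, N ≤ i → i ≤ j →
    (∀ l, i < l → l ≤ j → qq k S l ≤ B) →
    S j ≤ S i * (Real.log (j : ℝ) / Real.log (i : ℝ)) ^ ((1 + ε) * B)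

/-- **GRL** (100 lines). Induction on `j`. Step: `S(j+1) = S j/(1-x) ≥ S j exp x`, `x = q(j+1)/(j log(j+1)) ≥ a/(j log(j+1))`,
and `log(log(j+1)/log j) ≤ (log(j+1)-log j)/log j ≤ 1/(j log j)`; it suffices that `(1-ε) log(j+1) ≤ log j`. -/
def SpecGRL : Prop := ∀ (W : ℕ → ℕ) (k S : ℕ → ℝ) (b C : ℝ), QD W k S b C →
  ∀ ε : ℝ, 0 < ε → ε < 1 → ∃ N : ℕ, 3 ≤ N ∧ ∀ a : ℝ, 0 ≤ a → ∀ i j : ℕ, N ≤ i → i ≤ j →
    (∀ l, i < l → l ≤ j → a ≤ qq k S l) →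
    S i * (Real.log (j : ℝ) / Real.log (i : ℝ)) ^ ((1 - ε) * a) ≤ S j

/-- **STU** (200 lines, from SMA, GRU). One step for the upper bound. `δ = ε/4`; `c' = ⌈2C⌉`. Choose `N0` so that for
`m ≥ N0`: GRU holds from `N0` on; `grow` holds at `m`; `W m ≥ 3`, `W m < m`;
`exp(-δ) c ≤ k m log(W m)/S(W m) ≤ exp(δ) c`; `S(c' v) ≤ exp(δ) S v` for `v ≥ N0`. Given `N1 ≥ N0` let `M ≥ N1` with `W M ≥ N1`, and
`N2 > M` with `log M/log N2 ≤ 1 - exp(-δ)`. Let `n ≥ N2` and `M < m ≤ n`; `λ = (log n/log m)^b ≥ 1`,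
`X = (W m)^λ ≥ W m`, `v = min (W n) ⌊X⌋`; so `W m ≤ v ≤ W n < n`, `log v ≤ λ log(W m)`, and `S(W n) ≤ exp(δ) S v`: if `v = ⌊X⌋ < W n`
then `W n ≤ C X ≤ 2 C v ≤ c' v` (`S` is nondecreasing). GRU on `[W m, v]` (all `l` with `W m < l ≤ v` satisfy `N1 ≤ l < n`):
`S v ≤ S(W m) (log v/log W m)^((1+ε)B)`. Hence
`k n/k m ≤ exp(2δ) (S(W n)/S(W m)) (log W m/log W n) ≤ exp(3δ) (log v/log W m)^((1+ε)B - 1) ≤ exp(3δ) (log n/log m)^s`,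
`s = b((1+ε)B - 1) ≥ 0` (`log W n ≥ log v`). So `k m ≥ exp(-3δ) k n (log m/log n)^s`, and by SMA
`S n ≥ ∑_{M ≤ i < n} k(i+1)/i ≥ exp(-3δ) k n (log n)^(-s) ((log n)^(1+s) - (log M)^(1+s))/(1+s) ≥ exp(-4δ) k n log n/(1+s)`. -/
def SpecSTU : Prop := ∀ (W : ℕ → ℕ) (k S : ℕ → ℝ) (b C : ℝ), QD W k S b C →
  ∀ ε : ℝ, 0 < ε → ∃ N0 : ℕ, ∀ N1 : ℕ, N0 ≤ N1 → ∃ N2 : ℕ, ∀ B : ℝ, 1 ≤ B → ∀ n : ℕ, N2 ≤ n →
    (∀ l, N1 ≤ l → l < n → qq k S l ≤ B) →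
    qq k S n ≤ Real.exp ε * (1 + b * ((1 + ε) * B - 1))

/-- **STL** (200 lines, from SMB, GRL). One step for the lower bound. `δ = ε/4`. Choose `N0 ≥ N1` so that for `m ≥ N0`: GRL
holds from `N0` on; `grow` at `m`; `W m ≥ 3`, `W m < m`; `exp(-δ) c ≤ k m log(W m)/S(W m) ≤ exp(δ) c`;
`log C ≤ (exp(δ) - 1) log W m`. Let `M ≥ N0` with `W M ≥ N0` and `1 + 1/M ≤ exp(δ)`. For `M < m ≤ n` GRL on `[W m, W n]`
(`W n < n`): `S(W n) ≥ S(W m) (log W n/log W m)^((1-ε)a)`, so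
`k m/k n ≤ exp(2δ) (log W n/log W m)^(1-(1-ε)a)`, and `log W n ≤ λ log W m + log C ≤ exp(δ) λ log W m`, `λ = (log n/log m)^b ≥ 1`, gives
`k m ≤ exp(3δ) k n (log n/log m)^s`, `s = b(1-(1-ε)a) < 1`. By SMB
`S n ≤ S M + exp(3δ) k n (log n)^s ∑_{M ≤ i < n} (log(i+1))^(-s)/i ≤ S M + exp(4δ) k n log n/(1-s)`, and `S M ≤ ε k n log n` for
large `n` (`klog`). -/
def SpecSTL : Prop := ∀ (W : ℕ → ℕ) (k S : ℕ → ℝ) (b C : ℝ), QD W k S b C →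
  ∀ ε : ℝ, 0 < ε → ε < 1 → ∀ N1 : ℕ, ∃ N2 : ℕ, ∀ a : ℝ, 0 ≤ a → a ≤ 1 → ∀ n : ℕ, N2 ≤ n →
    (∀ l, N1 ≤ l → l < n → a ≤ qq k S l) →
    S n / (k n * Real.log (n : ℝ)) ≤ ε + Real.exp ε / (1 - b * (1 - (1 - ε) * a))

/-- **BDD** (80 lines, from STU). Choose `ε > 0` with `(1+ε) exp(ε) b < 1`; `N0`, `N1 = N0`, `N2` from STU.
`exp(ε)(1 + b((1+ε)B - 1)) ≤ B` for `B ≥ B0 = exp(ε)/(1 - exp(ε) b (1+ε))`. `B = max 1, B0, q_l (l < N2)`; strong induction: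
`q_n ≤ B` for all `n ≥ N0`. -/
def SpecBDD : Prop := ∀ (W : ℕ → ℕ) (k S : ℕ → ℝ) (b C : ℝ), QD W k S b C →
  ∃ B : ℝ, 1 ≤ B ∧ ∀ᶠ n : ℕ in atTop, qq k S n ≤ B

/-- **LSU** (100 lines, from STU, BDD). Let `T` be the set of the `B ≥ 1` with `q ≤ B` eventually, nonempty by BDD,
`B* = inf T`. If `B ∈ T` then every `B' > 1 + b(B-1)`, is in `T` (STU with small `ε`). If `B* > 1` then
`1 + b(B*-1) < B*`, so for `B ∈ T` close to `B*` there is `B' ∈ T` with `B' < B*`. -/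
def SpecLSU : Prop := ∀ (W : ℕ → ℕ) (k S : ℕ → ℝ) (b C : ℝ), QD W k S b C →
  ∀ η : ℝ, 0 < η → ∀ᶠ n : ℕ in atTop, qq k S n ≤ 1 + η

/-- **LSL** (100 lines, from STL). Let `T` be the set of the `a ∈ [0,1]` with `a ≤ q` eventually; `0 ∈ T`. If `a ∈ T` then every
`a' ∈ [0,1]` with `a' < 1 - b(1-a)` is in `T` (STL with small `ε`: `1/q = S/(k log)`, and
`ε + exp(ε)/(1 - b(1-(1-ε)a)) → 1/(1-b(1-a))`). If `a* = sup T < 1` then `1 - b(1-a*) > a*`, a contradiction. -/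
def SpecLSL : Prop := ∀ (W : ℕ → ℕ) (k S : ℕ → ℝ) (b C : ℝ), QD W k S b C →
  ∀ η : ℝ, 0 < η → ∀ᶠ n : ℕ in atTop, 1 - η ≤ qq k S n

/-- **QDE** (150 lines, from TAM, LMT, UAT, EMU, PSE). Assembly of the data for `k = kap W E`, `S = SS W E`. `E ~ S` (PSE).
`lim`: `kap n log(W n)/S(W n) = (θ(W n) log(W n)) (E(W n)/S(W n)) → c · 1`. `kle`: `kap n ≤ E(W n) ≤ E n ≤ 2 S n`. `mul`: EMU
and `E ~ S`. `klog`: `E ≥ 1` and UAT. -/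
def SpecQDE : Prop := ∀ (W : ℕ → ℕ) (b C : ℝ), Reg W b C → ∀ E : ℕ → ℝ, EBase E → EStep W E →
  E ~[atTop] PP W E → E ~[atTop] SS W E ∧ QD W (kap W E) (SS W E) b C

/-- **GFN** (80 lines, from LSU, LSL, QDE). `q = kap n log n/SS n → 1` and `E ~ SS` give
`E n/(kap n log n) → 1`; `E n/E(n-1) → 1` as in `GL.EBase.final` (`GL/EMain.lean`, copy the last part). -/
def SpecGFN : Prop := ∀ (W : ℕ → ℕ) (b C : ℝ), Reg W b C → ∀ E : ℕ → ℝ, EBase E → EStep W E →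
  E ~[atTop] PP W E →
  Tendsto (fun n : ℕ => E (W n) / E (n - 1) * (Path.theta (W n) * Real.log (n : ℝ))) atTop (𝓝 1)

/-! ## Part T: constellations -/

/-- **TFC** (150 lines). `ψ n = chi N0 H n` if `δ ∣ ∏_{h ∈ H} (n+h)`, else `0`, has values in `[0,1]` and period `Q δ`,
`Q = primorial N0`; `GL.per_count` gives the estimate with the mean of `ψ` over a period. By the Chinese remainder
theorem (`gcd(Q, δ) = 1`) the mean is `(lc H Q/Q) (R/δ)`, `R` the number of the `r < δ` with `δ ∣ ∏ (r+h)`;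
`lc H Q/Q = mH H N0` (`RST.sing_eq`); `R = ∏_{p ∣ δ} nu H p` (`MP3efbeb.Odd.RTM.nu_prod` for
`F = H.image (fun h => (1,h))` in `Odd/RT.lean`, and for a prime `p` the roots modulo `p` are the classes of the `-h`). -/
def SpecTFC : Prop := ∀ (H : Finset ℕ) (N0 δ a e : ℕ), Squarefree δ →
  (∀ p : ℕ, p.Prime → p ∣ δ → N0 < p) → a ≤ e →
  |∑ n ∈ (Finset.Ioc a e).filter (fun n => δ ∣ ∏ h ∈ H, (n + h)), chi N0 H n -
    ((e : ℝ) - a) * mH H N0 * ∏ p ∈ δ.primeFactors, ((nu H p : ℝ) / p)| ≤ (primorial N0 : ℝ) * δ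

/-- **TFL** (200 lines, from TFC). The fundamental lemma for constellations. `C` is the constant of
`MP3efbeb.Odd.specFLK` for `κ = k` (`Odd/FLK.lean`). For `w ≤ 2k`: `GL.per_count` with `GL.chi_mean`, error
`≤ primorial w ≤ 4^(2k)`. For `w > 2k`: FLK with `z = w + 1`, the index set `Ioc a e`, `v n = ∏_{h ∈ H} (n+h)`,
`om n = chi (2k) H n`, `X = (e-a) mH H (2k)`, `g p = nu H p/p` for `p > 2k` and `0` for `p ≤ 2k` (`nu H p ≤ |H| ≤ k`):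
`om n · rInd z (v n) = chi w H n`, `X ∏_{p ≤ w} (1 - g p) = (e-a) mH H w`. Remainder: if `δ` has a prime factor `p ≤ 2k` both
terms are `0` (`p ∣ n+h` kills `chi (2k) H n`); otherwise TFC bounds it by `primorial (2k) δ`; the sum over
`δ ≤ z^(8b+16)` is `≤ primorial (2k) z^(16b+32)`, and `1 + log z ≤ z`. -/
def SpecTFL : Prop := ∀ k : ℕ, ∃ C : ℝ, 0 < C ∧ ∀ H : Finset ℕ, H.card ≤ k → Adm H →
  ∃ C' : ℝ, 0 < C' ∧ ∀ b w a e : ℕ, a ≤ e →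
    |∑ n ∈ Finset.Ioc a e, chi w H n - ((e : ℝ) - a) * mH H w| ≤
      C * Real.exp (-(b : ℝ)) * ((e : ℝ) - a) * mH H w + C' * ((w : ℝ) + 2) ^ (16 * b + 40)

/-- **MHL** (80 lines). `sing w H > 0` for all `w` and `sing w H → S(H) > 0` (`RST.sing_pos`, `RST.sing_tendsto`,
`RST.hl_pos`), so `0 < s0 ≤ sing w H ≤ s1`; `θ w ≥ 1/(w+1)` (compare `Gra.V_ge`) and `θ w ≤ 1`. -/
def SpecMHL : Prop := ∀ H : Finset ℕ, Adm H → ∃ s0 s1 : ℝ, 0 < s0 ∧ ∀ w : ℕ,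
  s0 ≤ sing w H ∧ sing w H ≤ s1 ∧ s0 / ((w : ℝ) + 1) ^ H.card ≤ mH H w

/-- **TWN** (150 lines, from TFL, MHL). Decompose `(a,e]`, `a = n - n/M`, `e = n`, into the pieces on which `W` is constant
(`Gra.fiber`, as in the proof of `Gra.window`); on a piece with value `w` TFL divided by `mH H w` gives
`≤ C exp(-b) length + (C'/s0) (w+2)^(16b+40+|H|)`; there are at most `W n + 1` pieces. Choose `b` with `C exp(-b) ≤ η/2`, and use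
`pow`. -/
def SpecTWN : Prop := ∀ W : ℕ → ℕ, Tame W → ∀ H : Finset ℕ, Adm H → ∀ M : ℕ, 2 ≤ M →
  ∀ η : ℝ, 0 < η → ∀ᶠ n : ℕ in atTop, |∑ i ∈ Finset.Ico (n - n / M) n,
    (chi (W (i + 1)) H (i + 1) / mH H (W (i + 1)) - 1)| ≤ η * ((n / M : ℕ) : ℝ)

/-- **TDT** (250 lines, from UAT, AVG, TWN). As `GL.tup_det` (`GL/Det.lean`, copy and change). `B` bounds
`1/(θ(W n) log n)` (UAT, as in `GL.den_bdd`). `T n = chi (W(n+1)) H (n+1) · bw H (W(n+1)) n = c n · b n` with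
`c n = chi/mH`, `b n = sing (W(n+1)) H ∏_h 1/log(n+1+h)` (`GL.sing_bw`); AVG and TWN give `∑ T ~ ∑ b ~ S x/log^k x` (`b` is
slowly varying as `sing (W(n+1)) H → S > 0`). The difference between `∏_h gW W (n+1+h)` and `T n` is bounded by
`GL.tH_bad` and `GL.jumps`: total `O(∑_{j < M} W(x+1+j)) = o(x/log^k x)` by `pow`. -/
def SpecTDT : Prop := ∀ W : ℕ → ℕ, Tame W → ∀ H : Finset ℕ, H.Nonempty → Adm H → ∀ S : ℝ, 0 < S →
  Tendsto (fun n => sing (W n) H) atTop (𝓝 S) →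
  (fun x => ∑ n ∈ Finset.range x, ∏ h ∈ H, gW W (n + 1 + h)) ~[atTop]
    (fun x : ℕ => S * ((x : ℝ) / Real.log (x : ℝ) ^ H.card))

/-! ## Part P: levels that are powers -/

/-- **PLS** (120 lines, from TFL, MHL, LMT). Rough constellations in `(x, 2x]`. `b` with `C exp(-b) ≤ 1/2`,
`A = 16b + 42 + k`: TFL gives `x mH/2 - C'(z+2)^(16b+40) ≤ ∑ ≤ (3/2) x mH + C'(z+2)^(16b+40)`, `mH H z` is between constants
times `(log z)^(-|H|)` (LMT: `θ z log z → c > 0`; `sing` is bounded above and below), and `(z+2)^(16b+40) ≤ small · x mH` as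
`x ≥ z^A`. -/
def SpecPLS : Prop := ∀ k : ℕ, ∃ A : ℕ, 1 ≤ A ∧ ∀ H : Finset ℕ, H.card ≤ k → Adm H →
  ∃ c1 c2 : ℝ, 0 < c1 ∧ 0 < c2 ∧ ∃ z0 : ℕ, ∀ z x : ℕ, z0 ≤ z → z ^ A ≤ x →
    c1 * (x / Real.log (z : ℝ) ^ H.card) ≤ ∑ n ∈ Finset.Ioc x (2 * x), chi z H n ∧
    ∑ n ∈ Finset.Ioc x (2 * x), chi z H n ≤ c2 * (x / Real.log (z : ℝ) ^ H.card)

/-- **PPD** (60 lines). Every prime is rough, so `PP W E n ≥ ∑_{i < n, i+1 prime} 1/i` (`E ≥ 1`), which diverges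
(`Nat.Primes.not_summable_one_div` or `not_summable_one_div_on_primes`). -/
def SpecPPD : Prop := ∀ (W : ℕ → ℕ) (E : ℕ → ℝ), EBase E → Tendsto (PP W E) atTop atTop

/-- **PLD** (80 lines, from PPD). `min (W(i+1)) i ≤ W n` for `i < n`, so
`PP W E n ≤ E(W n) ∑_{1 ≤ i < n} 1/i ≤ E(W n)(1 + log n)`; `E(n-1) ≤ E n ≤ (1+ε) PP n`. -/
def SpecPLD : Prop := ∀ (W : ℕ → ℕ) (E : ℕ → ℝ), Monotone W → EBase E → E ~[atTop] PP W E →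
  ∀ᶠ n : ℕ in atTop, 1 / (2 * Real.log (n : ℝ)) ≤ E (W n) / E (n - 1)

/-- **PLC** (120 lines). Let `n^t ≤ W n < n`. `E n/E(W n) ≤ ∏_{W n ≤ i < n} (1 + rho(i+1)/i) ≤ exp(2 ∑_{W n < m ≤ n} rho m/m)`, and for
`m > W n ≥ n^t`: `W m ≥ m^t ≥ n^(t²)`, so `rho m ≤ r z m`, `z = ⌊n^(t²)⌋`; the sum is at most `G z T` with `T = 2/t²`
(`z^T ≥ n` for large `n`), and `G z T ≤ exp(4T)` for large `z` by `Pool.Agent.Lib.MP_926cc3_nt.TH.All.hBDG`. -/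
def SpecPLC : Prop := ∀ t : ℝ, 0 < t → ∃ c : ℝ, 0 < c ∧ ∀ (W : ℕ → ℕ) (E : ℕ → ℝ), EBase E → EStep W E →
  (∀ᶠ n : ℕ in atTop, (n : ℝ) ^ t ≤ W n ∧ W n < n) →
  ∀ᶠ n : ℕ in atTop, c ≤ E (W n) / E (n - 1)

end Pool.Agent.Lib.MP_3efbeb_nt.GU
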