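import Pool.Agent.Lib.MP_3efbeb_nt.GU.Spec

/-!
# GU: TDT, the deterministic sum along a constellation
-/

set_option autoImplicit false
set_option linter.unusedSectionVars false
set_option linter.unusedVariables false

open Filter Topology Asymptotics

namespace Pool.Agent.Lib.MP_3efbeb_nt.GU

open Pool.Agent.Lib.MP_926cc3_nt.RS Pool.Agent.Lib.MP_3efbeb_nt.RST
  Pool.Agent.Lib.MP_3efbeb_nt.GL

namespace TDTM

variable {W : ℕ → ℕ}

theorem lt_self (hW : Tame W) : ∀ᶠ n : ℕ in atTop, W n + 1 < n := by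
  filter_upwards [hW.pow 1 1 one_pos, eventually_ge_atTop 9] with n h1 h2
  rw [pow_one, one_mul] at h1
  have h3 : (W n : ℝ) ≤ W (2 * n) := by exact_mod_cast hW.mono (by omega)
  have h4 : (9 : ℝ) ≤ n := by exact_mod_cast h2
  have h5 : Real.sqrt n * Real.sqrt n = n := Real.mul_self_sqrt (by linarith)
  have h6 : 3 ≤ Real.sqrt n := by
    rw [show (3 : ℝ) = Real.sqrt 9 by rw [show (9 : ℝ) = 3 ^ 2 by norm_num, Real.sqrt_sq (by norm_num)]]
    exact Real.sqrt_le_sqrt h4
  have h7 : ((W n + 1 : ℕ) : ℝ) < n := by push_cast; nlinarith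
  exact_mod_cast h7

theorem den_bdd' (hUAT : SpecUAT) (hW : Tame W) :
    ∃ B : ℝ, 0 ≤ B ∧ ∀ n, 1 / (Path.theta (W n) * Real.log n) ≤ B := by
  have h1 : Tendsto (fun n : ℕ => 1 / (Path.theta (W n) * Real.log n)) atTop (𝓝 0) :=
    tendsto_const_nhds.div_atTop (hUAT W hW)
  obtain ⟨B, hB⟩ := h1.bddAbove_range
  have h2 : ∀ n, 1 / (Path.theta (W n) * Real.log n) ≤ B := fun n => hB ⟨n, rfl⟩
  exact ⟨B, (div_nonneg zero_le_one (den_nonneg W 0)).trans (h2 0), h2⟩

/-- `W (x + c)` is small compared with `x / log ^ k x` -/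
theorem W_o (hW : Tame W) (k c : ℕ) :
    (fun x : ℕ => (W (x + c) : ℝ)) =o[atTop]
      (fun x : ℕ => (x : ℝ) / Real.log (x : ℝ) ^ k) := by
  have h1 : (fun x : ℕ => Real.sqrt (x : ℝ)) =o[atTop]
      (fun x : ℕ => (x : ℝ) / Real.log (x : ℝ) ^ k) := by
    have h2 : (fun t : ℝ => Real.log t ^ k) =o[atTop] (fun t : ℝ => t ^ (1 / 2 : ℝ)) := by
      have h := isLittleO_log_rpow_rpow_atTop (k : ℝ) (show (0 : ℝ) < 1 / 2 by norm_num)
      refine h.congr_left (fun t => ?_)
      exact Real.rpow_natCast _ _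
    have h3 := h2.comp_tendsto tendsto_natCast_atTop_atTop
    rw [isLittleO_iff] at h3 ⊢
    intro ε hε
    filter_upwards [h3 hε, eventually_ge_atTop 3] with x hx hx3
    simp only [Function.comp] at hx
    have hx0 : (3 : ℝ) ≤ x := by exact_mod_cast hx3
    have hl : 0 < Real.log (x : ℝ) := Real.log_pos (by linarith)
    have hlk : 0 < Real.log (x : ℝ) ^ k := pow_pos hl k
    rw [Real.norm_of_nonneg hlk.le, Real.norm_of_nonneg (by positivity), ← Real.sqrt_eq_rpow] at hx
    rw [Real.norm_of_nonneg (Real.sqrt_nonneg _), Real.norm_of_nonneg (by positivity),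
      ← mul_div_assoc, le_div_iff₀ hlk]
    have h5 : Real.sqrt (x : ℝ) * Real.sqrt x = x := Real.mul_self_sqrt (by linarith)
    calc Real.sqrt (x : ℝ) * Real.log (x : ℝ) ^ k
        ≤ Real.sqrt (x : ℝ) * (ε * Real.sqrt (x : ℝ)) :=
          mul_le_mul_of_nonneg_left hx (Real.sqrt_nonneg _)
      _ = ε * (Real.sqrt (x : ℝ) * Real.sqrt x) := by ring
      _ = ε * x := by rw [h5]
  refine IsBigO.trans_isLittleO ?_ h1
  apply IsBigO.of_bound 1
  filter_upwards [hW.pow 1 1 one_pos, eventually_ge_atTop c] with x h2 h3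
  rw [pow_one, one_mul] at h2
  rw [Real.norm_of_nonneg (Nat.cast_nonneg _), one_mul, Real.norm_of_nonneg (Real.sqrt_nonneg _)]
  refine le_trans ?_ h2
  exact_mod_cast hW.mono (by omega)

theorem isEquiv_ev {u v : ℕ → ℝ} (h : u ~[atTop] v) (hv : ∀ n, 0 < v n) {δ : ℝ} (hδ : 0 < δ) :
    ∀ᶠ n in atTop, (1 - δ) * v n ≤ u n ∧ u n ≤ (1 + δ) * v n := by
  have h1 : Tendsto (fun n => u n / v n) atTop (𝓝 1) :=
    (isEquivalent_iff_tendsto_one (Eventually.of_forall (fun n => (hv n).ne'))).1 h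
  filter_upwards [h1.eventually (lt_mem_nhds (show 1 - δ < 1 by linarith)),
    h1.eventually (gt_mem_nhds (show 1 < 1 + δ by linarith))] with n h2 h3
  rw [lt_div_iff₀ (hv n)] at h2
  rw [div_lt_iff₀ (hv n)] at h3
  exact ⟨h2.le, h3.le⟩

/-- `ilog k` is slowly varying -/
theorem ilog_half (k : ℕ) {δ : ℝ} (hδ : 0 < δ) :
    ∀ᶠ n : ℕ in atTop, ilog k (n / 2) ≤ (1 + δ) * ilog k n := by
  have h1 : Tendsto (fun n : ℕ => Real.log ((n : ℝ) + 2) / (Real.log ((n : ℝ) + 2) - Real.log 2))
      atTop (𝓝 1) := by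
    have h2 := tendsto_log_add_two
    have h3 : Tendsto (fun n : ℕ => 1 - Real.log 2 / Real.log ((n : ℝ) + 2)) atTop (𝓝 (1 - 0)) :=
      (tendsto_const_nhds.div_atTop h2).const_sub 1
    rw [sub_zero] at h3
    have h4 := h3.inv₀ one_ne_zero
    rw [inv_one] at h4
    refine h4.congr' ?_
    filter_upwards [h2.eventually_gt_atTop (Real.log 2 + 1)] with n hn
    have h5 : 0 < Real.log 2 := Real.log_pos (by norm_num)
    have h6 : 0 < Real.log ((n : ℝ) + 2) := by linarith
    rw [one_sub_div h6.ne', inv_div]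
  have h2 := h1.pow k
  rw [one_pow] at h2
  filter_upwards [h2.eventually (gt_mem_nhds (show 1 < 1 + δ by linarith)),
    tendsto_log_add_two.eventually_gt_atTop (Real.log 2 + 1)] with n h3 h4
  have h5 : 0 < Real.log 2 := Real.log_pos (by norm_num)
  have h6 : 0 < Real.log ((n : ℝ) + 2) := by linarith
  have h7 : 0 < Real.log ((n : ℝ) + 2) - Real.log 2 := by linarith
  have h8 : Real.log ((n : ℝ) + 2) - Real.log 2 ≤ Real.log (((n / 2 : ℕ) : ℝ) + 2) := by
    rw [← Real.log_div (by positivity) (by norm_num)]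
    apply Real.log_le_log (by positivity)
    have h9 : n < 2 * (n / 2) + 2 := by omega
    have h10 : (n : ℝ) < 2 * ((n / 2 : ℕ) : ℝ) + 2 := by exact_mod_cast h9
    linarith
  rw [div_pow, div_lt_iff₀ (pow_pos h7 k)] at h3
  unfold ilog
  rw [mul_one_div, div_le_div_iff₀ (pow_pos (lt_of_lt_of_le h7 h8) k) (pow_pos h6 k), one_mul]
  refine h3.le.trans ?_
  apply mul_le_mul_of_nonneg_left _ (by linarith)
  exact pow_le_pow_left₀ h7.le h8 k

/-- a sequence equivalent to `S ilog k` varies slowly -/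
theorem slow {b : ℕ → ℝ} {S : ℝ} {k : ℕ} (hS : 0 < S) (hb : b ~[atTop] (fun n => S * ilog k n)) :
    ∀ ε : ℝ, 0 < ε → ∃ M : ℕ, 2 ≤ M ∧ ∀ᶠ n : ℕ in atTop, ∀ i ∈ Finset.Ico (n - n / M) n,
      |b i - b n| ≤ ε * b n := by
  intro ε hε
  refine ⟨2, le_rfl, ?_⟩
  set δ := min ε 1 / 8 with hδe
  have hm0 : 0 < min ε 1 := lt_min hε one_pos
  have hm1 : min ε 1 ≤ 1 := min_le_right _ _
  have hmε : min ε 1 ≤ ε := min_le_left _ _
  have hδ : 0 < δ := by rw [hδe]; linarith
  have hδ1 : δ ≤ 1 / 8 := by rw [hδe]; linarith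
  have hpos : ∀ n, 0 < S * ilog k n := fun n => mul_pos hS (ilog_pos k n)
  obtain ⟨N, hN⟩ := eventually_atTop.1 (isEquiv_ev hb hpos hδ)
  filter_upwards [ilog_half k hδ, eventually_ge_atTop (2 * N + 2)] with n h1 h2
  intro i hi
  rw [Finset.mem_Ico] at hi
  obtain ⟨a1, a2⟩ := hN i (by omega)
  obtain ⟨b1, b2⟩ := hN n (by omega)
  have h3 : ilog k n ≤ ilog k i := ilog_anti k hi.2.le
  have h4 : ilog k i ≤ ilog k (n / 2) := ilog_anti k (by omega)
  have h5 : ilog k i ≤ (1 + δ) * ilog k n := h4.trans h1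
  set v := S * ilog k n with hv
  have hv0 : 0 < v := hpos n
  have h6 : v ≤ S * ilog k i := mul_le_mul_of_nonneg_left h3 hS.le
  have h7 : S * ilog k i ≤ (1 + δ) * v := by
    have := mul_le_mul_of_nonneg_left h5 hS.le
    rw [hv]; linarith
  have h8 : (1 - δ) * v ≤ b i := (mul_le_mul_of_nonneg_left h6 (by linarith)).trans a1
  have h9 : b i ≤ (1 + δ) * ((1 + δ) * v) := a2.trans (mul_le_mul_of_nonneg_left h7 (by linarith))
  have h10 : |b i - b n| ≤ 4 * δ * v := by
    rw [abs_le]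
    have hd2 : δ * δ ≤ δ := by nlinarith
    constructor <;> nlinarith
  have h11 : 4 * δ * v ≤ ε * ((1 - δ) * v) := by
    have h12 : 4 * δ ≤ ε * (1 - δ) := by
      have : 4 * δ = min ε 1 / 2 := by rw [hδe]; ring
      rw [this]
      nlinarith
    nlinarith
  exact h10.trans (h11.trans (mul_le_mul_of_nonneg_left b1 hε.le))

end TDTM

open TDTM in
theorem specTDT (hUAT : SpecUAT) (hAVG : SpecAVG) (hTWN : SpecTWN) : SpecTDT := by
  intro W hW H hne hadm S hS hlim
  set k := H.card with hk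
  obtain ⟨B, hB0, hB⟩ := den_bdd' hUAT hW
  obtain ⟨M, hM⟩ : ∃ M, ∀ h ∈ H, h ≤ M := ⟨H.sup id, fun h hh => Finset.le_sup (f := id) hh⟩
  set L : ℕ → ℝ := fun n => ∏ h ∈ H, 1 / Real.log ((n + 1 + h : ℕ) : ℝ) with hL
  set tH : ℕ → ℝ := fun n => ∏ h ∈ H, gW W (n + 1 + h) with htH
  set T : ℕ → ℝ := fun n => chi (W (n + 1)) H (n + 1) * bw H (W (n + 1)) n with hT
  set F : ℕ → ℝ := fun x => S * ((x : ℝ) / Real.log (x : ℝ) ^ k) with hF
  set β : ℕ → ℝ := fun n => sing (W (n + 1)) H * L n with hβ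
  set γ : ℕ → ℝ := fun n => chi (W (n + 1)) H (n + 1) / mH H (W (n + 1)) with hγ
  have hsp : ∀ w, 0 < sing w H := fun w => sing_pos (fun p hp _ => hadm p hp)
  have hmp : ∀ w, 0 < mH H w := fun w => mul_pos (hsp w) (pow_pos (Path.theta_pos w) _)
  have hL0 : ∀ n, 0 ≤ L n := fun n => Finset.prod_nonneg (fun h _ =>
    div_nonneg zero_le_one (Real.log_natCast_nonneg _))
  have hβ0 : ∀ n, 0 ≤ β n := fun n => mul_nonneg (hsp _).le (hL0 n)
  have hγ0 : ∀ n, 0 ≤ γ n := fun n => div_nonneg (chi_nonneg _ _ _) (hmp _).le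
  -- the main term
  have hLe : L ~[atTop] (ilog k) := by
    have h2 : ∀ i ∈ H, (fun n : ℕ => Real.log (((n + 1 + i : ℕ) : ℝ))) ~[atTop]
        (fun n : ℕ => Real.log ((n : ℝ) + 2)) := by
      intro i _
      have h3 := (log_shift ((1 : ℝ) + i)).trans (log_shift 2).symm
      refine h3.congr_left (Eventually.of_forall (fun n => ?_))
      simp only
      congr 1
      push_cast; ring
    have h3 := (IsEquivalent.finsetProd h2).inv
    refine (h3.congr_left ?_).congr_right ?_
    · refine Eventually.of_forall (fun n => ?_)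
      rw [hL]
      simp only [Pi.inv_apply, one_div, Finset.prod_inv_distrib]
    · refine Eventually.of_forall (fun n => ?_)
      simp only [Pi.inv_apply, Finset.prod_const]
      unfold ilog
      rw [one_div]
  have hsing : (fun n => sing (W (n + 1)) H) ~[atTop] (fun _ => S) :=
    (isEquivalent_const_iff_tendsto hS.ne').2 (hlim.comp (tendsto_add_atTop_nat 1))
  have hβe : β ~[atTop] (fun n => S * ilog k n) := hsing.mul hLe
  have hmain : (fun x => ∑ n ∈ Finset.range x, β n) ~[atTop] F := by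
    have hdiv : Tendsto (fun x => ∑ n ∈ Finset.range x, S * ilog k n) atTop atTop := by
      have := (ilog_div k).const_mul_atTop hS
      refine this.congr (fun x => ?_)
      rw [Finset.mul_sum]
    have h2 := equiv_sum hβe (fun n => mul_nonneg hS.le (ilog_pos _ _).le) hdiv
    have h3 := (IsEquivalent.refl (u := fun _ : ℕ => S) (l := atTop)).mul (sum_ilog k)
    refine (h2.congr_right (Eventually.of_forall (fun x => ?_))).trans h3
    simp only [Pi.mul_apply]
    rw [Finset.mul_sum]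
  have hFtop : Tendsto F atTop atTop := (div_log_atTop k).const_mul_atTop hS
  have hβtop : Tendsto (fun x => ∑ n ∈ Finset.range x, β n) atTop atTop :=
    hmain.symm.tendsto_atTop hFtop
  -- a large index
  obtain ⟨n1, hn1⟩ := eventually_atTop.1 (lt_self hW)
  set n0 := n1 + 1 with hn0
  have hlt : ∀ n, n0 ≤ n → W (n + 1) < n + 1 := fun n hn => by
    have := hn1 (n + 1) (by omega)
    omega
  have hBk : 0 ≤ B ^ k := pow_nonneg hB0 _
  -- first error
  have herr1 : (fun x => ∑ n ∈ Finset.range x, (tH n - T n)) =o[atTop]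
      (fun x : ℕ => (x : ℝ) / Real.log (x : ℝ) ^ k) := by
    have hb : ∀ x, n0 ≤ x → |∑ n ∈ Finset.range x, (tH n - T n)| ≤
        ∑ n ∈ Finset.range n0, |tH n - T n| +
          B ^ k * ∑ j ∈ Finset.range M, (W (x + (1 + j)) : ℝ) := by
      intro x hx
      rw [← Finset.sum_range_add_sum_Ico _ hx]
      refine (abs_add_le _ _).trans (add_le_add (Finset.abs_sum_le_sum_abs _ _) ?_)
      refine (Finset.abs_sum_le_sum_abs _ _).trans ?_
      have h1 : ∀ n ∈ Finset.Ico n0 x, |tH n - T n| ≤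
          B ^ k * ((W (n + 1 + M) : ℝ) - W (n + 1)) := by
        intro n hn
        rw [Finset.mem_Ico] at hn
        exact tH_bad hB0 hB hM hW.mono (by omega) (hlt n hn.1)
      refine (Finset.sum_le_sum h1).trans ?_
      rw [← Finset.mul_sum]
      apply mul_le_mul_of_nonneg_left _ hBk
      have h2 : ∑ n ∈ Finset.Ico n0 x, ((W (n + 1 + M) : ℝ) - W (n + 1)) ≤
          ∑ n ∈ Finset.range x, ((W (n + 1 + M) : ℝ) - W (n + 1)) := by
        rw [Finset.range_eq_Ico]
        apply Finset.sum_le_sum_of_subset_of_nonneg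
        · exact Finset.Ico_subset_Ico_left (Nat.zero_le _)
        · intro n _ _
          have : (W (n + 1) : ℝ) ≤ W (n + 1 + M) := by exact_mod_cast hW.mono (by omega)
          linarith
      refine h2.trans ?_
      rw [Finset.sum_sub_distrib]
      have h3 := jumps W x M
      have h4 : ∑ j ∈ Finset.range M, (W (x + 1 + j) : ℝ) =
          ∑ j ∈ Finset.range M, (W (x + (1 + j)) : ℝ) :=
        Finset.sum_congr rfl (fun j _ => by rw [show x + 1 + j = x + (1 + j) by ring])
      linarith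
    have hs : (fun x : ℕ => ∑ n ∈ Finset.range n0, |tH n - T n| +
        B ^ k * ∑ j ∈ Finset.range M, (W (x + (1 + j)) : ℝ)) =o[atTop]
        (fun x : ℕ => (x : ℝ) / Real.log (x : ℝ) ^ k) := by
      apply (const_o k _).add
      apply IsLittleO.const_mul_left
      have h1 := IsLittleO.sum (s := Finset.range M) (fun j _ => W_o hW k (1 + j))
      refine h1.congr_left (fun x => ?_)
      rw [Finset.sum_apply]
    refine IsBigO.trans_isLittleO ?_ hs
    apply IsBigO.of_bound 1
    filter_upwards [eventually_ge_atTop n0] with x hx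
    rw [Real.norm_eq_abs, one_mul, Real.norm_eq_abs]
    exact (hb x hx).trans (le_abs_self _)
  -- second error
  have hTeq : ∀ n, T n = γ n * β n := by
    intro n
    have h1 := sing_bw (W (n + 1)) H n
    have h2 := (hmp (W (n + 1))).ne'
    have h3 : mH H (W (n + 1)) * bw H (W (n + 1)) n = β n := h1
    rw [hT, hγ]
    simp only
    rw [← h3]
    field_simp
  have herr2 : (fun x => ∑ n ∈ Finset.range x, (T n - β n)) =o[atTop]
      (fun x => ∑ n ∈ Finset.range x, β n) := by
    have hA := hAVG γ β hγ0 hβ0 (fun M' hM' η hη => hTWN W hW H hadm M' hM' η hη) (slow hS hβe)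
    rw [isLittleO_iff]
    intro ε hε
    obtain ⟨K, hK⟩ := hA (ε / 2) (by linarith)
    filter_upwards [hβtop.eventually_ge_atTop (2 * |K| / ε), hβtop.eventually_ge_atTop 0]
      with x h1 h2
    have h3 := hK x
    have h4 : ∑ n ∈ Finset.range x, (T n - β n) = ∑ n ∈ Finset.range x, (γ n - 1) * β n :=
      Finset.sum_congr rfl (fun n _ => by rw [hTeq n]; ring)
    rw [Real.norm_eq_abs, h4, Real.norm_of_nonneg h2]
    rw [div_le_iff₀ hε] at h1
    have h5 := le_abs_self K
    linarith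
  -- conclusion
  have hfin1 : (fun x => ∑ n ∈ Finset.range x, T n) ~[atTop] F := by
    have h1 : (fun x => ∑ n ∈ Finset.range x, T n) ~[atTop]
        (fun x => ∑ n ∈ Finset.range x, β n) := by
      refine herr2.congr_left (fun x => ?_)
      simp only [Pi.sub_apply]
      rw [← Finset.sum_sub_distrib]
    exact h1.trans hmain
  have herr : (fun x => ∑ n ∈ Finset.range x, (tH n - T n)) =o[atTop] F :=
    (isLittleO_const_mul_right_iff hS.ne').2 herr1
  have hfin := hfin1.add_isLittleO herr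
  refine hfin.congr_left (Eventually.of_forall (fun x => ?_))
  simp only [Pi.add_apply]
  rw [← Finset.sum_add_distrib]
  exact Finset.sum_congr rfl (fun n _ => by ring)

end Pool.Agent.Lib.MP_3efbeb_nt.GU
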